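import Pool.Agent.Lib.MP_2e739e_gt.Torsion

/-!
# The determinant of the minor `(0, 0)`
-/

set_option autoImplicit false
set_option linter.unusedSectionVars false

open Filter Topology

namespace Pool.Agent.Lib.MP_2e739e_gt

section Gen

variable {G : Type*} [Group G] {n : Type*} [Fintype n] [DecidableEq n]

theorem vdet_mul_left {S : vN G n} (T : vN G n) (hS : IsUnit S) :
    vdet (S * T) = vdet S * vdet T := rdet_mul_left' _ T hS

theorem vdet_mul_right {S : vN G n} (T : vN G n) (hS : IsUnit S) :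
    vdet (T * S) = vdet T * vdet S := rdet_mul_right' _ T hS

theorem vdet_unitary {u : vN G n} (hu : u ∈ unitary (vN G n)) : IsUnit u ∧ vdet u = 1 :=
  rdet_unitary _ hu

theorem vdet_neg (T : vN G n) : vdet (-T) = vdet T := by
  have h : (-1 : vN G n) ∈ unitary (vN G n) := by
    rw [Unitary.mem_iff, star_neg, star_one]; simp
  have h2 := vdet_unitary h
  have := vdet_mul_left T h2.1
  rwa [h2.2, one_mul, neg_one_mul] at this

theorem mm_neg (M : Matrix n n (MonoidAlgebra ℝ G)) : mm (-M) = -mm M := by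
  rw [eq_neg_iff_add_eq_zero, ← mm_add, neg_add_cancel, mm_zero]

/-- Unipotent matrices. -/
theorem vdet_one_add (N : Matrix n n (MonoidAlgebra ℝ G)) (hN : N * N = 0)
    (hd : ∀ i, N i i = 0) : IsUnit (mm (1 + N)) ∧ vdet (mm (1 + N)) = 1 := by
  have h1 : mm (1 + N) = 1 + mm N := by rw [mm_add, mm_one]
  rw [h1]
  refine rdet_unipotent _ ?_ ?_
  · rw [← mm_mul, hN, mm_zero]
  · rw [trace_mm]
    refine Finset.sum_eq_zero fun i _ => ?_
    rw [hd i, mulRightRing_zero]; rfl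

theorem vdet_DM_single (i₀ : n) (g : G) :
    IsUnit (mm (DM i₀ (MonoidAlgebra.single g (1 : ℝ))) : vN G n) ∧
      vdet (mm (DM i₀ (MonoidAlgebra.single g (1 : ℝ))) : vN G n) = 1 :=
  vdet_unitary (unitary_DM i₀ g)

/-- Two-term elements. -/
theorem vdet_two_term (i₀ : n) (g h : G) (hgh : ∀ k : ℕ, (g⁻¹ * h) ^ (k + 1) ≠ 1) :
    vdet (mm (DM i₀ (MonoidAlgebra.single g 1 + MonoidAlgebra.single h (1 : ℝ))) : vN G n) =
      1 := by
  have h1 : (MonoidAlgebra.single g 1 + MonoidAlgebra.single h (1 : ℝ)) =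
      MonoidAlgebra.single g (1 : ℝ) * (1 + MonoidAlgebra.single (g⁻¹ * h) 1) := by
    rw [mul_add, mul_one, MonoidAlgebra.single_mul_single, mul_one, mul_inv_cancel_left]
  rw [h1, ← DM_mul, mm_mul, vdet_mul_right _ (vdet_DM_single i₀ g).1, (vdet_DM_single i₀ g).2,
    vdet_DM_one_add i₀ _ hgh, one_mul]

end Gen

theorem tx_smul (t : ℝ) (i : Fin 5) : tx t i = t • MonoidAlgebra.single (gx i) (1 : ℝ) := by
  rw [tx, MonoidAlgebra.smul_single, smul_eq_mul, mul_one]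

/-- The minor `(0, 0)`. -/
theorem minor00 (t : ℝ) : minorM 0 0 t =
    !![-1, 0, 1 - tx t 1, 0;
       tx t 4, -1, 0, 1 - tx t 2;
       0, tx t 0, -1, 0;
       0, 1 - tx t 4, tx t 2, -1] := by
  have h : ∀ i j : Fin 4, minorM 0 0 t i j = JM t i.succ j.succ := fun i j => rfl
  refine Matrix.ext fun i j => ?_
  rw [h]
  unfold JM
  fin_cases i <;> fin_cases j <;> simp [oIdx, iIdx]

/-- The element `-a` of the factorization. -/
noncomputable def na (t : ℝ) : MonoidAlgebra ℝ K52.KnotGroup :=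
  1 - (tx t 4 * (1 - tx t 1) + (1 - tx t 2) * tx t 2) * tx t 0 - (1 - tx t 2) * (1 - tx t 4)

theorem one44 (R : Type*) [Ring R] : (1 : Matrix (Fin 4) (Fin 4) R) =
    !![1, 0, 0, 0; 0, 1, 0, 0; 0, 0, 1, 0; 0, 0, 0, 1] := by
  refine Matrix.ext fun i j => ?_
  fin_cases i <;> fin_cases j <;> rfl

theorem fact_gen {R : Type*} [Ring R] (p q r s u v : R) :
    (1 + !![0, 0, 0, 0; q, 0, q * p + r * v, r; 0, 0, 0, 0; 0, 0, 0, 0]) *
      !![-1, 0, p, 0; q, -1, 0, r; 0, s, -1, 0; 0, u, v, -1] =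
    -(!![1, 0, 0, 0; 0, 1 - (q * p + r * v) * s - r * u, 0, 0; 0, 0, 1, 0; 0, 0, 0, 1] *
      (1 + !![0, 0, 0, 0; 0, 0, 0, 0; 0, -s, 0, 0; 0, 0, 0, 0]) *
      (1 + !![0, 0, -p, 0; 0, 0, 0, 0; 0, 0, 0, 0; 0, -u, -v, 0])) := by
  rw [one44]
  refine Matrix.ext fun i j => ?_
  simp only [Matrix.mul_apply, Fin.sum_univ_four, Matrix.add_apply, Matrix.neg_apply]
  fin_cases i <;> fin_cases j <;> simp <;> noncomm_ring

theorem DM_explicit (a : MonoidAlgebra ℝ K52.KnotGroup) :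
    DM (1 : Fin 4) a = !![1, 0, 0, 0; 0, a, 0, 0; 0, 0, 1, 0; 0, 0, 0, 1] := by
  unfold DM EM
  refine Matrix.ext fun i j => ?_
  fin_cases i <;> fin_cases j <;> simp [Matrix.single]

theorem sq_zero₁ {R : Type*} [Ring R] (a b c : R) :
    (!![0, 0, 0, 0; a, 0, b, c; 0, 0, 0, 0; 0, 0, 0, 0] : Matrix (Fin 4) (Fin 4) R) *
      !![0, 0, 0, 0; a, 0, b, c; 0, 0, 0, 0; 0, 0, 0, 0] = 0 := by
  refine Matrix.ext fun i j => ?_
  rw [Matrix.mul_apply, Fin.sum_univ_four]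
  fin_cases i <;> fin_cases j <;> simp

theorem sq_zero₂ {R : Type*} [Ring R] (a : R) :
    (!![0, 0, 0, 0; 0, 0, 0, 0; 0, a, 0, 0; 0, 0, 0, 0] : Matrix (Fin 4) (Fin 4) R) *
      !![0, 0, 0, 0; 0, 0, 0, 0; 0, a, 0, 0; 0, 0, 0, 0] = 0 := by
  refine Matrix.ext fun i j => ?_
  rw [Matrix.mul_apply, Fin.sum_univ_four]
  fin_cases i <;> fin_cases j <;> simp

theorem sq_zero₃ {R : Type*} [Ring R] (a b c : R) :
    (!![0, 0, a, 0; 0, 0, 0, 0; 0, 0, 0, 0; 0, b, c, 0] : Matrix (Fin 4) (Fin 4) R) *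
      !![0, 0, a, 0; 0, 0, 0, 0; 0, 0, 0, 0; 0, b, c, 0] = 0 := by
  refine Matrix.ext fun i j => ?_
  rw [Matrix.mul_apply, Fin.sum_univ_four]
  fin_cases i <;> fin_cases j <;> simp

theorem vdet_minor00 (t : ℝ) :
    vdet (mm (minorM 0 0 t)) = vdet (mm (DM (1 : Fin 4) (na t))) := by
  have h := fact_gen (1 - tx t 1) (tx t 4) (1 - tx t 2) (tx t 0) (1 - tx t 4) (tx t 2)
  rw [← minor00] at h
  have hD := DM_explicit (na t)
  unfold na at hD
  rw [← hD] at h
  have h2 := congrArg (fun M => vdet (mm M)) h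
  rw [mm_mul, mm_neg, vdet_neg, mm_mul, mm_mul] at h2
  have u1 := vdet_one_add _ (sq_zero₁ (tx t 4) (tx t 4 * (1 - tx t 1) + (1 - tx t 2) * tx t 2)
    (1 - tx t 2)) (by intro i; fin_cases i <;> rfl)
  have u2 := vdet_one_add _ (sq_zero₂ (-tx t 0)) (by intro i; fin_cases i <;> rfl)
  have u3 := vdet_one_add _ (sq_zero₃ (-(1 - tx t 1)) (-(1 - tx t 4)) (-tx t 2))
    (by intro i; fin_cases i <;> rfl)
  rw [vdet_mul_right _ u1.1, u1.2, mul_one, vdet_mul_left _ u3.1, u3.2, one_mul,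
    vdet_mul_left _ u2.1, u2.2, one_mul] at h2
  exact h2

/-- The coefficients of the polynomial. -/
noncomputable def cc (k : ℕ) : MonoidAlgebra ℝ K52.KnotGroup :=
  match k with
  | 0 => MonoidAlgebra.single (gx 2) 1 + MonoidAlgebra.single (gx 4) 1
  | 1 => -(MonoidAlgebra.single (gx 2 * gx 4) 1 + MonoidAlgebra.single (gx 4 * gx 0) 1 +
      MonoidAlgebra.single (gx 2 * gx 0) 1)
  | 2 => MonoidAlgebra.single (gx 4 * gx 1 * gx 0) 1 + MonoidAlgebra.single (gx 2 * gx 2 * gx 0) 1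
  | _ => 0

theorem na_eq (t : ℝ) : na t = MonoidAlgebra.single (1 : K52.KnotGroup) t *
    ∑ k ∈ Finset.range (2 + 1), t ^ k • cc k := by
  have h1 : (MonoidAlgebra.single (1 : K52.KnotGroup) t) = t • (1 : MonoidAlgebra ℝ _) := by
    rw [MonoidAlgebra.one_def, MonoidAlgebra.smul_single, smul_eq_mul, mul_one]
  have h2 : ∀ g h : K52.KnotGroup, MonoidAlgebra.single (g * h) (1 : ℝ) =
      MonoidAlgebra.single g 1 * MonoidAlgebra.single h 1 := by
    intro g h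
    rw [MonoidAlgebra.single_mul_single, mul_one]
  rw [Finset.sum_range_succ, Finset.sum_range_succ, Finset.sum_range_one]
  unfold na cc
  simp only [tx_smul, h1, h2]
  simp only [mul_add, add_mul, mul_sub, sub_mul, mul_one, one_mul, smul_mul_assoc,
    mul_smul_comm, smul_smul, smul_add, smul_sub, smul_neg, mul_neg, mul_assoc]
  module

theorem homog_cc : ∀ k : ℕ, k ≤ 2 → IsHomog K52.phi (1 + k) (cc k) := by
  intro k hk
  interval_cases k
  · exact (IsHomog.single _ (by rw [phi_gx]; rfl)).add (IsHomog.single _ (by rw [phi_gx]; rfl))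
  · refine IsHomog.neg (((IsHomog.single _ ?_).add (IsHomog.single _ ?_)).add
      (IsHomog.single _ ?_)) <;> (rw [map_mul, phi_gx, phi_gx]; rfl)
  · refine (IsHomog.single _ ?_).add (IsHomog.single _ ?_) <;>
      (simp only [map_mul, phi_gx]; rfl)

theorem vdet_bottom : vdet (mm (DM (1 : Fin 4) (cc 0))) = 1 :=
  vdet_two_term 1 _ _ bot_ne_one

theorem vdet_top : vdet (mm (DM (1 : Fin 4) (cc 2))) = 1 :=
  vdet_two_term 1 _ _ top_ne_one

/-- The determinant of the minor `(0, 0)`. -/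
theorem vdet_minor00_limits :
    (∀ t : ℝ, 0 < t → t ≤ vdet (mm (minorM 0 0 t))) ∧
    Tendsto (fun t : ℝ => vdet (mm (minorM 0 0 t)) / t) (𝓝[>] 0) (𝓝 1) ∧
    Tendsto (fun t : ℝ => vdet (mm (minorM 0 0 t)) / t ^ 3) atTop (𝓝 1) := by
  have key := vdet_limits K52.phi (1 : Fin 4) cc 2 1 homog_cc
  rw [vdet_bottom, vdet_top] at key
  have h : ∀ t : ℝ, 0 < t → vdet (mm (minorM 0 0 t)) =
      vdet (mm (DM (1 : Fin 4) (∑ k ∈ Finset.range (2 + 1), t ^ k • cc k))) * t := by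
    intro t ht
    have h8 := vdet_DM_real (G := K52.KnotGroup) (1 : Fin 4) ht
    rw [vdet_minor00, na_eq, ← DM_mul, mm_mul, vdet_mul_right _ h8.1, h8.2]
  refine ⟨fun t ht => ?_, ?_, ?_⟩
  · rw [h t ht]
    have := key.1 t ht
    nlinarith
  · refine key.2.1.congr' ?_
    filter_upwards [self_mem_nhdsWithin] with t ht
    rw [h t ht, mul_div_cancel_right₀ _ (ne_of_gt ht)]
  · refine key.2.2.congr' ?_
    filter_upwards [eventually_gt_atTop 0] with t ht
    rw [h t ht, pow_succ t 2, mul_div_mul_right _ _ (ne_of_gt ht)]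

end Pool.Agent.Lib.MP_2e739e_gt
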