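import Pool.Agent.Lib.MP_2e739e_gt.Hilbert

/-!
# Basis vectors and the action of the operators on them
-/

set_option autoImplicit false

open scoped ENNReal ComplexConjugate

namespace Pool.Agent.Lib.MP_2e739e_gt

section L2

variable {G : Type*}

open Classical in
/-- The basis vector `δ_g`. -/
noncomputable def del (g : G) : L2 G := lp.single 2 g (1 : ℂ)

theorem inner_del (g : G) (v : L2 G) : inner ℂ (del g) v = v g := by
  classical
  unfold del
  rw [lp.inner_single_left]
  simp

theorem ext_del {F : Type*} [NormedAddCommGroup F] [NormedSpace ℂ F] {S T : L2 G →L[ℂ] F}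
    (h : ∀ g, S (del g) = T (del g)) : S = T := by
  classical
  apply lp.ext_continuousLinearMap (by norm_num)
  intro i
  ext
  simpa [del] using h i

theorem transport_del {ι κ : Type*} (e : ι ≃ κ) (i : ι) : transport e (del i) = del (e i) := by
  classical
  apply lp.ext
  funext k
  rw [transport_apply]
  unfold del
  simp only [lp.single_apply]
  by_cases h : k = e i
  · subst h; simp
  · have h' : e.symm k ≠ i := fun h2 => h (by rw [← h2, Equiv.apply_symm_apply])
    simp [Pi.single, Function.update, h, h']

end L2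

section Group

variable {G : Type*} [Group G] {m n : Type*} [Fintype m] [Fintype n]

theorem mulRightGrp_del (h g : G) : mulRightGrp h (del g) = del (g * h) :=
  transport_del (Equiv.mulRight h) g

theorem mulRightGrp_mul (g h : G) :
    (mulRightGrp (g * h) : L2 G →L[ℂ] L2 G) = mulRightGrp h ∘L mulRightGrp g := by
  apply ext_del
  intro k
  rw [ContinuousLinearMap.comp_apply, mulRightGrp_del, mulRightGrp_del, mulRightGrp_del, mul_assoc]

theorem mulRightGrp_one : (mulRightGrp (1 : G) : L2 G →L[ℂ] L2 G) = 1 := by
  apply ext_del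
  intro k
  rw [mulRightGrp_del, mul_one]; rfl

/-- Right multiplication, as an algebra homomorphism to the opposite algebra. -/
noncomputable def mulRightHom (G : Type*) [Group G] :
    MonoidAlgebra ℝ G →ₐ[ℝ] (L2 G →L[ℂ] L2 G)ᵐᵒᵖ :=
  MonoidAlgebra.lift ℝ (L2 G →L[ℂ] L2 G)ᵐᵒᵖ G
    { toFun := fun g => MulOpposite.op (mulRightGrp g)
      map_one' := by rw [mulRightGrp_one]; rfl
      map_mul' := fun g h => by rw [mulRightGrp_mul]; rfl }

theorem mulRightRing_eq (a : MonoidAlgebra ℝ G) :
    mulRightRing a = (mulRightHom G a).unop := by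
  unfold mulRightRing mulRightHom
  rw [MonoidAlgebra.lift_apply, Finsupp.sum, Finsupp.sum, Finset.unop_sum]
  rfl

theorem mulRightRing_mul (a b : MonoidAlgebra ℝ G) :
    mulRightRing (a * b) = mulRightRing b ∘L mulRightRing a := by
  rw [mulRightRing_eq, mulRightRing_eq, mulRightRing_eq, map_mul]; rfl

theorem mulRightRing_add (a b : MonoidAlgebra ℝ G) :
    mulRightRing (a + b) = mulRightRing a + mulRightRing b := by
  rw [mulRightRing_eq, mulRightRing_eq, mulRightRing_eq, map_add]; rfl

theorem mulRightRing_sum {ι : Type*} (s : Finset ι) (a : ι → MonoidAlgebra ℝ G) :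
    mulRightRing (∑ i ∈ s, a i) = ∑ i ∈ s, mulRightRing (a i) := by
  simp only [mulRightRing_eq, map_sum, Finset.unop_sum]

theorem mulRightRing_zero : mulRightRing (0 : MonoidAlgebra ℝ G) = 0 := by
  rw [mulRightRing_eq, map_zero]; rfl

theorem mulRightRing_one : mulRightRing (1 : MonoidAlgebra ℝ G) = 1 := by
  rw [mulRightRing_eq, map_one]; rfl

theorem mulRightRing_single (g : G) (c : ℝ) :
    mulRightRing (MonoidAlgebra.single g c) = c • mulRightGrp g := by
  rw [mulRightRing_eq, mulRightHom, MonoidAlgebra.lift_single]; rfl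

theorem mulRightMatrix_apply (M : Matrix m n (MonoidAlgebra ℝ G)) (x : L2n G m) (j : n) :
    mulRightMatrix M x j = ∑ i, mulRightRing (M i j) (x i) := by
  simp [mulRightMatrix]

theorem mulRightMatrix_mul {k : Type*} [Fintype k] (M : Matrix k m (MonoidAlgebra ℝ G))
    (N : Matrix m n (MonoidAlgebra ℝ G)) :
    mulRightMatrix (M * N) = mulRightMatrix N ∘L mulRightMatrix M := by
  ext x j g
  simp only [mulRightMatrix_apply, ContinuousLinearMap.comp_apply, Matrix.mul_apply, map_sum,
    mulRightRing_sum, mulRightRing_mul, _root_.sum_apply]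
  rw [Finset.sum_comm]

theorem mulRightMatrix_add (M N : Matrix m n (MonoidAlgebra ℝ G)) :
    mulRightMatrix (M + N) = mulRightMatrix M + mulRightMatrix N := by
  apply ContinuousLinearMap.ext
  intro x
  apply PiLp.ext
  intro j
  simp only [mulRightMatrix_apply, Matrix.add_apply, mulRightRing_add,
    _root_.add_apply, PiLp.add_apply, Finset.sum_add_distrib]

theorem mulRightMatrix_smul (c : ℝ) (M : Matrix m n (MonoidAlgebra ℝ G)) :
    mulRightMatrix (c • M) = c • mulRightMatrix M := by
  apply ContinuousLinearMap.ext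
  intro x
  apply PiLp.ext
  intro j
  simp only [mulRightMatrix_apply, Matrix.smul_apply, _root_.smul_apply,
    PiLp.smul_apply, Finset.smul_sum]
  refine Finset.sum_congr rfl fun i _ => ?_
  rw [mulRightRing_eq, map_smul, MulOpposite.unop_smul, ← mulRightRing_eq]; rfl

theorem mulRightMatrix_one [DecidableEq n] :
    mulRightMatrix (1 : Matrix n n (MonoidAlgebra ℝ G)) = 1 := by
  apply ContinuousLinearMap.ext
  intro x
  apply PiLp.ext
  intro j
  rw [mulRightMatrix_apply, Finset.sum_eq_single j]
  · rw [Matrix.one_apply_eq, mulRightRing_one]; rfl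
  · intro i _ hij
    rw [Matrix.one_apply_ne hij, mulRightRing_zero]; rfl
  · simp

open Classical in
/-- The basis vector `δ_{g, i}` of `ℓ²(G)^n`. -/
noncomputable def bvec (g : G) (i : n) : L2n G n := PiLp.single 2 i (del g)

theorem unitVec_eq (i : n) : unitVec G i = bvec 1 i := rfl

theorem inner_bvec (g : G) (i : n) (x : L2n G n) : inner ℂ (bvec g i) x = x i g := by
  classical
  unfold bvec
  rw [PiLp.inner_apply, Finset.sum_eq_single i]
  · rw [PiLp.single_eq_same, inner_del]
  · intro j _ hj
    rw [PiLp.single_eq_of_ne 2 hj, inner_zero_left]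
  · simp

theorem ext_bvec {F : Type*} [NormedAddCommGroup F] [NormedSpace ℂ F] {S T : L2n G n →L[ℂ] F}
    (h : ∀ g i, S (bvec g i) = T (bvec g i)) : S = T := by
  classical
  have hcomp : ∀ i : n, ∀ v : L2 G, S (PiLp.single 2 i v) = T (PiLp.single 2 i v) := by
    intro i
    set J : L2 G →L[ℂ] L2n G n :=
      ((PiLp.continuousLinearEquiv 2 ℂ (fun _ : n => L2 G)).symm : (n → L2 G) →L[ℂ] L2n G n) ∘L
      (ContinuousLinearMap.single ℂ (fun _ : n => L2 G) i) with hJ
    have hJ' : ∀ v, J v = PiLp.single 2 i v := fun v => rfl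
    have : S ∘L J = T ∘L J := by
      apply ext_del
      intro g
      simpa [hJ', bvec] using h g i
    intro v
    have := congrArg (fun f => f v) this
    simpa [hJ'] using this
  apply ContinuousLinearMap.ext
  intro x
  have hx : x = ∑ i, PiLp.single 2 i (x i) := by
    apply PiLp.ext
    intro j
    rw [WithLp.ofLp_sum, Finset.sum_apply, Finset.sum_eq_single j]
    · rw [PiLp.single_eq_same]
    · intro i _ hij
      rw [PiLp.single_eq_of_ne' 2 hij]
    · simp
  rw [hx, map_sum, map_sum]
  exact Finset.sum_congr rfl fun i _ => hcomp i _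

/-- Left translation. -/
noncomputable def leftTr (n : Type*) [Fintype n] (g : G) : L2n G n ≃ₗᵢ[ℂ] L2n G n :=
  LinearIsometryEquiv.piLpCongrRight 2 fun _ => transport (Equiv.mulLeft g)

theorem leftTr_bvec (g h : G) (i : n) : leftTr n g (bvec h i) = bvec (g * h) i := by
  classical
  unfold leftTr bvec
  rw [LinearIsometryEquiv.piLpCongrRight_single, transport_del]
  rfl

theorem mulRightMatrix_bvec (M : Matrix m n (MonoidAlgebra ℝ G)) (g : G) (i : m) (j : n) :
    mulRightMatrix M (bvec g i) j = mulRightRing (M i j) (del g) := by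
  classical
  rw [mulRightMatrix_apply, Finset.sum_eq_single i]
  · unfold bvec
    rw [PiLp.single_eq_same]
  · intro k _ hk
    unfold bvec
    rw [PiLp.single_eq_of_ne 2 hk, map_zero]
  · simp

theorem transport_comm (g : G) (a : MonoidAlgebra ℝ G) (v : L2 G) :
    mulRightRing a (transport (Equiv.mulLeft g) v) =
      transport (Equiv.mulLeft g) (mulRightRing a v) := by
  have h : (mulRightRing a) ∘L
      (((transport (Equiv.mulLeft g)).toContinuousLinearEquiv : L2 G →L[ℂ] L2 G)) =
      (((transport (Equiv.mulLeft g)).toContinuousLinearEquiv : L2 G →L[ℂ] L2 G)) ∘L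
        (mulRightRing a) := by
    induction a using MonoidAlgebra.induction_linear with
    | zero => simp [mulRightRing_zero]
    | add a b ha hb =>
      rw [mulRightRing_add, ContinuousLinearMap.add_comp, ContinuousLinearMap.comp_add, ha, hb]
    | single h c =>
      rw [mulRightRing_single]
      apply ext_del
      intro k
      have e1 : ∀ j : G, (((transport (Equiv.mulLeft g)).toContinuousLinearEquiv :
          L2 G →L[ℂ] L2 G)) (del j) = del (g * j) := fun j => transport_del (Equiv.mulLeft g) j
      have e2 : ∀ (c : ℝ) (v : L2 G), (((transport (Equiv.mulLeft g)).toContinuousLinearEquiv :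
          L2 G →L[ℂ] L2 G)) (c • v) = c • (((transport (Equiv.mulLeft g)).toContinuousLinearEquiv :
          L2 G →L[ℂ] L2 G)) v := fun c v => by
        have := (((transport (Equiv.mulLeft g)).toContinuousLinearEquiv :
          L2 G →L[ℂ] L2 G)).map_smul (c : ℂ) v
        simpa using this
      simp only [ContinuousLinearMap.comp_apply, _root_.smul_apply, e1, e2,
        mulRightGrp_del, mul_assoc]
  exact congrArg (fun f => f v) h

theorem mulRightMatrix_leftTr (M : Matrix m n (MonoidAlgebra ℝ G)) (g : G) (x : L2n G m) :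
    mulRightMatrix M (leftTr m g x) = leftTr n g (mulRightMatrix M x) := by
  apply PiLp.ext
  intro j
  rw [mulRightMatrix_apply]
  unfold leftTr
  simp only [LinearIsometryEquiv.piLpCongrRight_apply, PiLp.toLp_apply]
  rw [mulRightMatrix_apply, map_sum]
  exact Finset.sum_congr rfl fun i _ => transport_comm g _ _

end Group

end Pool.Agent.Lib.MP_2e739e_gt
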