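import Pool.Agent.Lib.MP_2e739e_gt.Commutant

/-!
# Comparison of the Fuglede-Kadison determinant with the regularised determinant; gauge action
-/

set_option autoImplicit false
set_option linter.unusedSectionVars false

open scoped ENNReal ComplexConjugate InnerProductSpace
open Filter Topology

namespace Pool.Agent.Lib.MP_2e739e_gt

variable {G : Type*} [Group G] {n : Type*} [Fintype n]

/-- The regularised determinant in the group von Neumann algebra. -/
noncomputable def vdet (T : vN G n) : ℝ := rdet (vnPosTrace G n) T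

theorem coe_log {B : Type*} [CStarAlgebra B] (S : StarSubalgebra ℂ B) [hS : IsClosed (S : Set B)]
    (x : S) (hx : IsSelfAdjoint x) (h : ContinuousOn Real.log (spectrum ℝ x)) :
    ((CFC.log x : S) : B) = CFC.log (x : B) :=
  StarAlgHom.map_cfc S.subtype Real.log x h continuous_subtype_val hx (hx.map S.subtype)

theorem coe_log_reg (T : vN G n) {ε : ℝ} (hε : 0 < ε) :
    ((CFC.log (star T * T + ε • (1 : vN G n)) : vN G n) : L2n G n →L[ℂ] L2n G n) =
      CFC.log (ContinuousLinearMap.adjoint (T : L2n G n →L[ℂ] L2n G n) ∘L T + ε • 1 :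
        L2n G n →L[ℂ] L2n G n) := by
  let _ : PartialOrder (vN G n) := CStarAlgebra.spectralOrder _
  have _ : StarOrderedRing (vN G n) := CStarAlgebra.spectralOrderedRing _
  have hpos := isStrictlyPositive_reg T hε
  have hcont : ContinuousOn Real.log (spectrum ℝ (star T * T + ε • (1 : vN G n))) :=
    ContinuousOn.log continuousOn_id fun x hx => (hpos.spectrum_pos hx).ne'
  exact coe_log (vN G n) _ hpos.isSelfAdjoint hcont

theorem hreg_eq (T : vN G n) {ε : ℝ} (hε : 0 < ε) :
    hreg (vnPosTrace G n) T ε = (vnTrace (CFC.log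
      (ContinuousLinearMap.adjoint (T : L2n G n →L[ℂ] L2n G n) ∘L T + ε • 1 :
        L2n G n →L[ℂ] L2n G n))).re / 2 := by
  unfold hreg tlog
  rw [PosTrace.rfn_apply, vnPosTrace_fn, coe_log_reg T hε]

theorem iInf_eq_vdet (T : vN G n) :
    (⨅ ε : Set.Ioi (0 : ℝ), Real.exp ((vnTrace (CFC.log
      (ContinuousLinearMap.adjoint (T : L2n G n →L[ℂ] L2n G n) ∘L T + (ε : ℝ) • 1 :
        L2n G n →L[ℂ] L2n G n))).re / 2)) = vdet T := by
  unfold vdet rdet
  congr 1
  ext ε
  rw [hreg_eq T ε.2]

/-- An operator in the group von Neumann algebra with positive determinant is injective. -/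
theorem injective_of_vdet_pos (T : vN G n) (h : 0 < vdet T) :
    Function.Injective (T : L2n G n →L[ℂ] L2n G n) := by
  let _ : PartialOrder (vN G n) := CStarAlgebra.spectralOrder _
  have _ : StarOrderedRing (vN G n) := CStarAlgebra.spectralOrderedRing _
  set K : Submodule ℂ (L2n G n) := LinearMap.ker (T : L2n G n →L[ℂ] L2n G n).toLinearMap with hK
  have hKc : IsClosed (K : Set (L2n G n)) := (T : L2n G n →L[ℂ] L2n G n).isClosed_ker
  have : CompleteSpace K := hKc.completeSpace_coe
  set Q : L2n G n →L[ℂ] L2n G n := K.starProjection with hQ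
  have hQmem : Q ∈ vN G n := by
    rw [mem_vN]
    intro g x
    have hKinv : ∀ (g : G), ∀ y ∈ K, leftTr n g y ∈ K := by
      intro g y hy
      rw [hK, LinearMap.mem_ker] at hy ⊢
      change (T : L2n G n →L[ℂ] L2n G n) (leftTr n g y) = 0
      rw [mem_vN.mp T.2]
      change (T : L2n G n →L[ℂ] L2n G n) y = 0 at hy
      rw [hy, map_zero]
    refine (Submodule.eq_starProjection_of_mem_of_inner_eq_zero ?_ ?_)
    · exact hKinv g _ (Submodule.starProjection_apply_mem K x)
    · intro w hw
      have h1 : leftTr n g⁻¹ w ∈ K := hKinv g⁻¹ w hw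
      have h2 := Submodule.starProjection_inner_eq_zero x (leftTr n g⁻¹ w) h1
      rw [← map_sub]
      have h3 : w = leftTr n g (leftTr n g⁻¹ w) := by
        rw [← leftTr_symm, LinearIsometryEquiv.apply_symm_apply]
      rw [h3, LinearIsometryEquiv.inner_map_map]
      exact h2
  set P : vN G n := ⟨Q, hQmem⟩ with hP
  have hPP : P * P = P := by
    apply Subtype.ext
    exact (Submodule.isIdempotentElem_starProjection K)
  have hPs : star P = P := by
    apply Subtype.ext
    exact (isSelfAdjoint_starProjection K)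
  have hTP : T * P = 0 := by
    apply Subtype.ext
    apply ContinuousLinearMap.ext
    intro x
    have h1 : K.starProjection x ∈ K := Submodule.starProjection_apply_mem K x
    exact LinearMap.mem_ker.mp h1
  have h0 := rfn_eq_zero_of_kernel (vnPosTrace G n) hPP hPs hTP h
  have h1 : vnTrace (star Q * Q) = vnTrace Q := by
    have : star Q * Q = Q := by
      have e1 : star Q = Q := isSelfAdjoint_starProjection K
      rw [e1]
      exact Submodule.isIdempotentElem_starProjection K
    rw [this]
  rw [PosTrace.rfn_apply, vnPosTrace_fn] at h0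
  change (vnTrace Q).re = 0 at h0
  rw [← h1, vnTrace_star_mul_self, Complex.re_sum,
    Finset.sum_eq_zero_iff_of_nonneg (fun i _ => by rw [Complex.ofReal_re]; positivity)] at h0
  have h2 : ∀ i : n, Q (bvec 1 i) = 0 := by
    intro i
    have := h0 i (Finset.mem_univ i)
    rw [Complex.ofReal_re] at this
    have h3 : ‖Q (unitVec G i)‖ = 0 := by simpa using this
    rw [← unitVec_eq]
    exact norm_eq_zero.mp h3
  have hQ0 : Q = 0 := by
    apply ext_bvec
    intro g i
    have e : (bvec g i : L2n G n) = leftTr n g (bvec 1 i) := by rw [leftTr_bvec, mul_one]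
    rw [e, mem_vN.mp hQmem, h2, map_zero]; rfl
  intro x y hxy
  have hmem : x - y ∈ K := by
    rw [hK, LinearMap.mem_ker]
    change (T : L2n G n →L[ℂ] L2n G n) (x - y) = 0
    rw [map_sub, hxy, sub_self]
  have h4 : Q (x - y) = x - y := Submodule.starProjection_eq_self_iff.mpr hmem
  rw [hQ0] at h4
  have h5 : x - y = 0 := h4.symm
  exact sub_eq_zero.mp h5

theorem fkDet_eq_vdet (T : vN G n) (h : 0 < vdet T) :
    fkDet (T : L2n G n →L[ℂ] L2n G n) = vdet T := by
  unfold fkDet
  rw [if_pos (injective_of_vdet_pos T h)]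
  exact iInf_eq_vdet T

end Pool.Agent.Lib.MP_2e739e_gt
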