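import Pool.Agent.Lib.MP_2e739e_gt.Radial

/-!
# Generic consequences, without reference to an order
-/

set_option autoImplicit false

open scoped ComplexConjugate Topology
open Filter Finset

namespace Pool.Agent.Lib.MP_2e739e_gt

variable {A : Type*} [CStarAlgebra A] (τ : PosTrace A)

theorem norm_le_one_of_proj {P : A} (hP : P * P = P) (hPs : star P = P) : ‖P‖ ≤ 1 := by
  have h : ‖star P * P‖ = ‖P‖ * ‖P‖ := CStarRing.norm_star_mul_self
  rw [hPs, hP] at h
  nlinarith [norm_nonneg P]

theorem norm_le_one_of_star_mul_self {w P : A} (hP : P * P = P) (hPs : star P = P)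
    (hw : star w * w = P) : ‖w‖ ≤ 1 := by
  have h2 : ‖star w * w‖ = ‖w‖ * ‖w‖ := CStarRing.norm_star_mul_self
  rw [hw] at h2
  have h4 := norm_le_one_of_proj hP hPs
  nlinarith [norm_nonneg w]

theorem unitary_phase {P : A} (hP : P * P = P) (hPs : star P = P) {γ : ℂ} (hγ : ‖γ‖ = 1) :
    1 - P + γ • P ∈ unitary A := by
  have h1 : conj γ * γ = 1 := by
    rw [← Complex.normSq_eq_conj_mul_self, Complex.normSq_eq_norm_sq, hγ]; simp
  have h2 : γ * conj γ = 1 := by rw [mul_comm]; exact h1
  have hs : star (1 - P + γ • P) = 1 - P + conj γ • P := by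
    rw [star_add, star_sub, star_one, star_smul, hPs]; rfl
  have key : ∀ a b : ℂ, a * b = 1 → (1 - P + a • P) * (1 - P + b • P) = 1 := by
    intro a b hab
    have : (1 - P + a • P) * (1 - P + b • P) = 1 - P + (a * b) • P := by
      simp only [mul_add, add_mul, mul_sub, sub_mul, mul_one, one_mul, smul_mul_assoc,
        mul_smul_comm, hP]
      rw [mul_comm a b, mul_smul]
      abel_nf
    rw [this, hab, one_smul]
    abel
  rw [Unitary.mem_iff, hs]
  exact ⟨key _ _ h1, key _ _ h2⟩

theorem rdet_one_add_w {w P : A} (hP : P * P = P) (hPs : star P = P) (hw : star w * w = P)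
    (hτ : ∀ k : ℕ, τ.rfn (w ^ (k + 1)) = 0) : rdet τ (1 + w) = 1 := by
  let _ : PartialOrder A := CStarAlgebra.spectralOrder A
  have _ : StarOrderedRing A := CStarAlgebra.spectralOrderedRing A
  exact rdet_one_add_of_trace_pow τ (norm_le_one_of_star_mul_self hP hPs hw) hτ

theorem rdet_one_add_contr {w : A} (hw : ‖w‖ ≤ 1)
    (hτ : ∀ k : ℕ, τ.rfn (w ^ (k + 1)) = 0) : rdet τ (1 + w) = 1 := by
  let _ : PartialOrder A := CStarAlgebra.spectralOrder A
  have _ : StarOrderedRing A := CStarAlgebra.spectralOrderedRing A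
  exact rdet_one_add_of_trace_pow τ hw hτ

theorem rdet_scale {P : A} (hP : P * P = P) (h1 : τ.rfn P = 1) {r : ℝ} (hr : 0 < r) :
    IsUnit (1 + (r - 1) • P) ∧ rdet τ (1 + (r - 1) • P) = r := by
  let _ : PartialOrder A := CStarAlgebra.spectralOrder A
  have _ : StarOrderedRing A := CStarAlgebra.spectralOrderedRing A
  refine ⟨(one_add_proj_inv hP hr).1, ?_⟩
  rw [rdet_one_add_proj _ hP hr, h1, mul_one, Real.exp_log hr]

theorem rdet_unipotent {N : A} (hN : N * N = 0) (hτ : τ.rfn N = 0) :
    IsUnit (1 + N) ∧ rdet τ (1 + N) = 1 := by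
  let _ : PartialOrder A := CStarAlgebra.spectralOrder A
  have _ : StarOrderedRing A := CStarAlgebra.spectralOrderedRing A
  exact ⟨(inverse_one_add_of_sq hN).1, rdet_one_add_of_sq τ hN hτ⟩

theorem rdet_unitary {u : A} (hu : u ∈ unitary A) : IsUnit u ∧ rdet τ u = 1 := by
  let _ : PartialOrder A := CStarAlgebra.spectralOrder A
  have _ : StarOrderedRing A := CStarAlgebra.spectralOrderedRing A
  exact ⟨(Unitary.toUnits ⟨u, hu⟩).isUnit, rdet_of_unitary τ hu⟩

theorem rdet_mul_left' {S : A} (T : A) (hS : IsUnit S) :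
    rdet τ (S * T) = rdet τ S * rdet τ T := by
  let _ : PartialOrder A := CStarAlgebra.spectralOrder A
  have _ : StarOrderedRing A := CStarAlgebra.spectralOrderedRing A
  exact rdet_mul_left τ T hS

theorem rdet_mul_right' {S : A} (T : A) (hS : IsUnit S) :
    rdet τ (T * S) = rdet τ T * rdet τ S := by
  let _ : PartialOrder A := CStarAlgebra.spectralOrder A
  have _ : StarOrderedRing A := CStarAlgebra.spectralOrderedRing A
  exact rdet_mul_right τ T hS

/-- Derivative of an exponential polynomial. -/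
theorem hasDerivAt_expPoly (B : A) (N : ℕ) (C : ℕ → A) (z : ℂ) :
    HasDerivAt (fun z : ℂ => B + ∑ k ∈ range N, Complex.exp (k * z) • C k)
      (∑ k ∈ range N, Complex.exp (k * z) • ((k : ℂ) • C k)) z := by
  have h1 : ∀ k : ℕ, HasDerivAt (fun z : ℂ => Complex.exp (k * z) • C k)
      (Complex.exp (k * z) • ((k : ℂ) • C k)) z := by
    intro k
    have h2 : HasDerivAt (fun z : ℂ => Complex.exp (k * z)) (Complex.exp (k * z) * k) z := by
      have := (hasDerivAt_mul_const (x := z) (k : ℂ)).cexp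
      simpa [mul_comm] using this
    have h3 := h2.smul_const (C k)
    rwa [mul_smul] at h3
  have h2 := HasDerivAt.fun_sum (u := range N) (fun k _ => h1 k)
  exact h2.const_add B

theorem tendsto_expPoly (B : A) (N : ℕ) (C : ℕ → A) :
    Tendsto (fun s : ℝ => B + ∑ k ∈ range (N + 1), Complex.exp (k * (s : ℂ)) • C k) atBot
      (𝓝 (B + C 0)) := by
  refine Tendsto.const_add B ?_
  have h : ∀ k ∈ range (N + 1), Tendsto (fun s : ℝ => Complex.exp (k * (s : ℂ)) • C k) atBot
      (𝓝 (if k = 0 then C 0 else 0)) := by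
    intro k _
    by_cases hk : k = 0
    · subst hk; simp
    · rw [if_neg hk]
      have h1 : Tendsto (fun s : ℝ => Complex.exp (k * (s : ℂ))) atBot (𝓝 0) := by
        rw [tendsto_zero_iff_norm_tendsto_zero]
        have h2 : ∀ s : ℝ, ‖Complex.exp (k * (s : ℂ))‖ = Real.exp (k * s) := by
          intro s
          rw [Complex.norm_exp]
          congr 1
          simp
        simp only [h2]
        refine Real.tendsto_exp_atBot.comp ?_
        exact tendsto_id.const_mul_atBot (by positivity)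
      have := h1.smul_const (C k)
      rwa [zero_smul] at this
  have h2 := tendsto_finsetSum (range (N + 1)) h
  simpa using h2

/-- **Continuity of the determinant of a graded polynomial family at its end.** -/
theorem tendsto_rdet_family {P : A} (hP : P * P = P) (hPs : star P = P) (C : ℕ → A)
    (hPC : ∀ k, P * C k = C k) (N : ℕ)
    (hsym : ∀ θ : ℝ, ∃ (α : A →⋆ₐ[ℂ] A) (γ : ℂ), ‖γ‖ = 1 ∧ (∀ x, τ.fn (α x) = τ.fn x) ∧
      α P = P ∧ ∀ k ∈ range (N + 1), α (C k) = (γ * Complex.exp (k * (θ * Complex.I))) • C k) :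
    (∀ s : ℝ, rdet τ (1 - P + C 0) ≤
      rdet τ (1 - P + ∑ k ∈ range (N + 1), Complex.exp (k * (s : ℂ)) • C k)) ∧
    Tendsto (fun s : ℝ => rdet τ (1 - P + ∑ k ∈ range (N + 1), Complex.exp (k * (s : ℂ)) • C k))
      atBot (𝓝 (rdet τ (1 - P + C 0))) := by
  let _ : PartialOrder A := CStarAlgebra.spectralOrder A
  have _ : StarOrderedRing A := CStarAlgebra.spectralOrderedRing A
  set T : ℂ → A := fun z => 1 - P + ∑ k ∈ range (N + 1), Complex.exp (k * z) • C k with hT
  set T₁ : ℂ → A := fun z => ∑ k ∈ range (N + 1), Complex.exp (k * z) • ((k : ℂ) • C k) with hT₁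
  set T₂ : ℂ → A := fun z => ∑ k ∈ range (N + 1),
    Complex.exp (k * z) • ((k : ℂ) • ((k : ℂ) • C k)) with hT₂
  have hd : ∀ z, HasDerivAt T (T₁ z) z := fun z => hasDerivAt_expPoly (1 - P) (N + 1) C z
  have hd₁ : ∀ z, HasDerivAt T₁ (T₂ z) z := fun z => by
    have := hasDerivAt_expPoly 0 (N + 1) (fun k => (k : ℂ) • C k) z
    simpa using this
  have hl : Tendsto (fun s : ℝ => T s) atBot (𝓝 (1 - P + C 0)) := tendsto_expPoly _ _ _
  have hl₁ : Tendsto (fun s : ℝ => T₁ s) atBot (𝓝 0) := by
    have := tendsto_expPoly 0 N (fun k => (k : ℂ) • C k)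
    simpa using this
  refine tendsto_rdet τ hd hd₁ ?_ hl hl₁
  intro θ
  obtain ⟨α, γ, hγ, hα, hαP, hαC⟩ := hsym θ
  refine ⟨α, 1 - P + γ • P, unitary_phase hP hPs hγ, hα, fun z => ⟨?_, ?_⟩⟩
  · have hPC' : ∀ k, (1 - P + γ • P) * C k = γ • C k := by
      intro k
      rw [add_mul, sub_mul, one_mul, smul_mul_assoc, hPC, sub_self, zero_add]
    have h1P : (1 - P + γ • P) * (1 - P) = 1 - P := by
      simp only [add_mul, mul_sub, sub_mul, mul_one, one_mul, smul_mul_assoc, hP]
      abel
    simp only [hT]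
    rw [map_add, map_sub, map_one, hαP, mul_add, h1P, map_sum, Finset.mul_sum]
    congr 1
    refine Finset.sum_congr rfl fun k hk => ?_
    rw [map_smul, hαC k hk, mul_smul_comm, hPC', smul_smul, smul_smul]
    congr 1
    rw [mul_add, Complex.exp_add]
    ring
  · have hPC' : ∀ k, (1 - P + γ • P) * C k = γ • C k := by
      intro k
      rw [add_mul, sub_mul, one_mul, smul_mul_assoc, hPC, sub_self, zero_add]
    simp only [hT₁]
    rw [map_sum, Finset.mul_sum]
    refine Finset.sum_congr rfl fun k hk => ?_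
    rw [map_smul, map_smul, hαC k hk, mul_smul_comm, mul_smul_comm, hPC', smul_smul, smul_smul,
      smul_smul, smul_smul]
    congr 1
    rw [mul_add, Complex.exp_add]
    ring

end Pool.Agent.Lib.MP_2e739e_gt
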