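import Pool.Agent.Lib.MP_2e739e_gt.Basis
import Pool.Agent.Lib.MP_2e739e_gt.Generic

/-!
# The group von Neumann algebra (commutant of the left translations) and its trace
-/

set_option autoImplicit false

open scoped ENNReal ComplexConjugate InnerProductSpace

namespace Pool.Agent.Lib.MP_2e739e_gt

variable (G : Type*) [Group G] (n : Type*) [Fintype n]

/-- The algebra of operators on `ℓ²(G)^n` which commute with the left translations. -/
noncomputable def vN : StarSubalgebra ℂ (L2n G n →L[ℂ] L2n G n) :=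
  StarSubalgebra.centralizer ℂ
    (Set.range fun g : G => ((leftTr n g).toContinuousLinearEquiv : L2n G n →L[ℂ] L2n G n))

variable {G n}

theorem leftTr_symm (g : G) : (leftTr n g).symm = leftTr n g⁻¹ := by
  apply LinearIsometryEquiv.ext
  intro x
  apply PiLp.ext
  intro i
  apply lp.ext
  funext k
  change (x i) (g * k) = (x i) (g⁻¹⁻¹ * k)
  rw [inv_inv]

theorem mem_vN {T : L2n G n →L[ℂ] L2n G n} :
    T ∈ vN G n ↔ ∀ g x, T (leftTr n g x) = leftTr n g (T x) := by
  unfold vN
  rw [StarSubalgebra.mem_centralizer_iff]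
  constructor
  · intro h g x
    have := (h _ ⟨g, rfl⟩).1
    exact (congrArg (fun f => f x) this).symm
  · rintro h _ ⟨g, rfl⟩
    refine ⟨?_, ?_⟩
    · apply ContinuousLinearMap.ext
      intro x
      exact (h g x).symm
    · rw [ContinuousLinearMap.star_eq_adjoint, LinearIsometryEquiv.adjoint_eq_symm, leftTr_symm]
      apply ContinuousLinearMap.ext
      intro x
      exact (h g⁻¹ x).symm

instance isClosed_vN : IsClosed (vN G n : Set (L2n G n →L[ℂ] L2n G n)) := by
  unfold vN
  rw [StarSubalgebra.coe_centralizer]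
  exact Set.isClosed_centralizer _

noncomputable instance instCStarAlgebraVN : CStarAlgebra (vN G n) :=
  StarSubalgebra.cstarAlgebra (vN G n)

noncomputable instance instModuleRealVN : Module ℝ (vN G n) := inferInstance

theorem mulRightMatrix_mem_vN (M : Matrix n n (MonoidAlgebra ℝ G)) :
    mulRightMatrix M ∈ vN G n := mem_vN.mpr fun g x => mulRightMatrix_leftTr M g x

/-- The trace as a continuous linear functional. -/
noncomputable def vnTraceL (G : Type*) [Group G] (n : Type*) [Fintype n] :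
    (L2n G n →L[ℂ] L2n G n) →L[ℂ] ℂ :=
  ∑ i, (innerSL ℂ (unitVec G i : L2n G n)) ∘L
    (ContinuousLinearMap.apply ℂ (L2n G n) (unitVec G i : L2n G n))

theorem vnTraceL_apply (X : L2n G n →L[ℂ] L2n G n) : vnTraceL G n X = vnTrace X := by
  simp [vnTraceL, vnTrace]

theorem vnTrace_eq (X : L2n G n →L[ℂ] L2n G n) :
    vnTrace X = ∑ i, (X (bvec 1 i)) i 1 := by
  unfold vnTrace
  refine Finset.sum_congr rfl fun i _ => ?_
  rw [unitVec_eq, inner_bvec]

theorem inner_eq_sum (x y : L2n G n) : inner ℂ x y = ∑ i, inner ℂ (x i) (y i) :=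
  PiLp.inner_apply x y

/-- The coefficients of the adjoint. -/
theorem adjoint_coeff {X : L2n G n →L[ℂ] L2n G n} (hX : X ∈ vN G n) (i j : n) (g : G) :
    (ContinuousLinearMap.adjoint X (bvec 1 i)) j g = conj ((X (bvec 1 j)) i g⁻¹) := by
  rw [← inner_bvec, ContinuousLinearMap.adjoint_inner_right, ← inner_conj_symm]
  congr 1
  have h1 : (bvec g j : L2n G n) = leftTr n g (bvec 1 j) := by rw [leftTr_bvec, mul_one]
  have h2 : (bvec 1 i : L2n G n) = leftTr n g (bvec g⁻¹ i) := by
    rw [leftTr_bvec, mul_inv_cancel]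
  rw [h1, (mem_vN.mp hX), h2, LinearIsometryEquiv.inner_map_map, inner_bvec]

theorem vnTrace_mul_eq {X Y : L2n G n →L[ℂ] L2n G n} (hX : X ∈ vN G n) :
    vnTrace (X * Y) = ∑ i, ∑ j, ∑' g : G, (X (bvec 1 j)) i g⁻¹ * (Y (bvec 1 i)) j g := by
  unfold vnTrace
  refine Finset.sum_congr rfl fun i _ => ?_
  rw [unitVec_eq, show (X * Y) (bvec 1 i) = X (Y (bvec 1 i)) from rfl,
    ← ContinuousLinearMap.adjoint_inner_left, inner_eq_sum]
  refine Finset.sum_congr rfl fun j _ => ?_
  rw [lp.inner_eq_tsum]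
  refine tsum_congr fun g => ?_
  rw [adjoint_coeff hX]
  simp [mul_comm]

theorem vnTrace_comm {X Y : L2n G n →L[ℂ] L2n G n} (hX : X ∈ vN G n) (hY : Y ∈ vN G n) :
    vnTrace (X * Y) = vnTrace (Y * X) := by
  rw [vnTrace_mul_eq hX, vnTrace_mul_eq hY, Finset.sum_comm]
  refine Finset.sum_congr rfl fun i _ => Finset.sum_congr rfl fun j _ => ?_
  rw [← Equiv.tsum_eq (Equiv.inv G)]
  refine tsum_congr fun g => ?_
  simp [mul_comm]

theorem vnTrace_star (X : L2n G n →L[ℂ] L2n G n) : vnTrace (star X) = conj (vnTrace X) := by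
  unfold vnTrace
  rw [map_sum]
  refine Finset.sum_congr rfl fun i _ => ?_
  rw [ContinuousLinearMap.star_eq_adjoint, ContinuousLinearMap.adjoint_inner_right,
    inner_conj_symm]

theorem vnTrace_star_mul_self (X : L2n G n →L[ℂ] L2n G n) :
    vnTrace (star X * X) = ∑ i, ((‖X (unitVec G i)‖ ^ 2 : ℝ) : ℂ) := by
  unfold vnTrace
  refine Finset.sum_congr rfl fun i _ => ?_
  rw [ContinuousLinearMap.star_eq_adjoint, show (ContinuousLinearMap.adjoint X * X) (unitVec G i) =
    ContinuousLinearMap.adjoint X (X (unitVec G i)) from rfl,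
    ContinuousLinearMap.adjoint_inner_right, inner_self_eq_norm_sq_to_K]
  simp

variable (G n) in
/-- The von Neumann trace on the group von Neumann algebra. -/
noncomputable def vnPosTrace : PosTrace (vN G n) where
  fn := (vnTraceL G n).comp ((vN G n).toSubalgebra.toSubmodule.subtypeL)
  tracial x y := by
    change vnTraceL G n ((x * y : vN G n) : L2n G n →L[ℂ] L2n G n) =
      vnTraceL G n ((y * x : vN G n) : L2n G n →L[ℂ] L2n G n)
    rw [vnTraceL_apply, vnTraceL_apply]
    exact vnTrace_comm x.2 y.2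
  map_star x := by
    change vnTraceL G n (star (x : L2n G n →L[ℂ] L2n G n)) =
      conj (vnTraceL G n (x : L2n G n →L[ℂ] L2n G n))
    rw [vnTraceL_apply, vnTraceL_apply]
    exact vnTrace_star _
  nonneg x := by
    change 0 ≤ (vnTraceL G n (star (x : L2n G n →L[ℂ] L2n G n) * x)).re
    rw [vnTraceL_apply, vnTrace_star_mul_self, Complex.re_sum]
    exact Finset.sum_nonneg fun i _ => by
      rw [Complex.ofReal_re]; positivity

theorem vnPosTrace_fn (x : vN G n) : (vnPosTrace G n).fn x = vnTrace (x : L2n G n →L[ℂ] L2n G n) :=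
  vnTraceL_apply _

end Pool.Agent.Lib.MP_2e739e_gt
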