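import Pool.Agent.Lib.MP_2e739e_gt.Klein

/-!
# The regularised determinant and its multiplicativity
-/

set_option autoImplicit false
set_option linter.unusedSectionVars false

open scoped ComplexConjugate Topology
open Filter Finset

namespace Pool.Agent.Lib.MP_2e739e_gt

variable {A : Type*} [CStarAlgebra A] [PartialOrder A] [StarOrderedRing A] (τ : PosTrace A)

theorem isStrictlyPositive_smul_one {ε : ℝ} (hε : 0 < ε) : IsStrictlyPositive (ε • (1 : A)) :=
  isStrictlyPositive_smul isStrictlyPositive_one hε

theorem isStrictlyPositive_reg (T : A) {ε : ℝ} (hε : 0 < ε) :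
    IsStrictlyPositive (star T * T + ε • (1 : A)) :=
  IsStrictlyPositive.nonneg_add (star_mul_self_nonneg T) (isStrictlyPositive_smul_one hε)

theorem isStrictlyPositive_reg' (T : A) {ε : ℝ} (hε : 0 < ε) :
    IsStrictlyPositive (T * star T + ε • (1 : A)) :=
  IsStrictlyPositive.nonneg_add (mul_star_self_nonneg T) (isStrictlyPositive_smul_one hε)

theorem isStrictlyPositive_star_mul_self {S : A} (hS : IsUnit S) :
    IsStrictlyPositive (star S * S) :=
  (hS.star.mul hS).isStrictlyPositive (star_mul_self_nonneg S)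

theorem isStrictlyPositive_conj {S P : A} (hS : IsUnit S) (hP : IsStrictlyPositive P) :
    IsStrictlyPositive (star S * P * S) :=
  ((hS.star.mul hP.isUnit).mul hS).isStrictlyPositive (star_left_conjugate_nonneg hP.nonneg S)

/-- `T R = R' T` for the two resolvents. -/
theorem mul_inverse_reg (T : A) {ε : ℝ} (hε : 0 < ε) :
    T * Ring.inverse (star T * T + ε • (1 : A)) = Ring.inverse (T * star T + ε • (1 : A)) * T := by
  have h1 := (isStrictlyPositive_reg T hε).isUnit
  have h2 := (isStrictlyPositive_reg' T hε).isUnit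
  have h3 : (T * star T + ε • (1 : A)) * T = T * (star T * T + ε • (1 : A)) := by
    simp only [add_mul, mul_add, mul_assoc, smul_mul_assoc, mul_smul_comm, one_mul, mul_one]
  calc T * Ring.inverse (star T * T + ε • (1 : A))
      = Ring.inverse (T * star T + ε • (1 : A)) * ((T * star T + ε • (1 : A)) * T) *
        Ring.inverse (star T * T + ε • (1 : A)) := by
        rw [← mul_assoc, Ring.inverse_mul_cancel _ h2, one_mul]
    _ = _ := by
        rw [h3, mul_assoc, mul_assoc, Ring.mul_inverse_cancel _ h1, mul_one]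

theorem inverse_reg_mul_star (T : A) {ε : ℝ} (hε : 0 < ε) :
    Ring.inverse (star T * T + ε • (1 : A)) * star T =
      star T * Ring.inverse (T * star T + ε • (1 : A)) := by
  have := mul_inverse_reg (star T) hε
  rw [star_star] at this
  exact this.symm

/-- `(T* T + ε)` and `(T T* + ε)` have the same trace of the logarithm. -/
theorem tlog_reg_star (T : A) {ε : ℝ} (hε : 0 < ε) :
    tlog τ (star T * T + ε • (1 : A)) = tlog τ (T * star T + ε • (1 : A)) := by
  set f : ℝ → ℝ := fun s => tlog τ (star (s • T) * (s • T) + ε • (1 : A)) -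
    tlog τ ((s • T) * star (s • T) + ε • (1 : A)) with hf
  have hpath : ∀ s : ℝ, HasDerivAt (fun s : ℝ => s • T) T s := fun s => by
    simpa using (hasDerivAt_id s).smul_const T
  have hstar : ∀ s : ℝ, HasDerivAt (fun s : ℝ => star (s • T)) (star T) s := fun s =>
    (hpath s).star
  have hder : ∀ s : ℝ, HasDerivAt f 0 s := by
    intro s
    have h1 := hasDerivAt_tlog τ (((hstar s).mul (hpath s)).add_const (ε • (1 : A)))
      (Eventually.of_forall fun t => isStrictlyPositive_reg (t • T) hε)
    have h2 := hasDerivAt_tlog τ (((hpath s).mul (hstar s)).add_const (ε • (1 : A)))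
      (Eventually.of_forall fun t => isStrictlyPositive_reg' (t • T) hε)
    refine (h1.sub h2).congr_deriv ?_
    have e1 := inverse_reg_mul_star (s • T) hε
    have e2 := mul_inverse_reg (s • T) hε
    simp only [mul_add, map_add, Pi.mul_apply]
    have k1 : τ.rfn (Ring.inverse (star (s • T) * s • T + ε • 1) * (star T * s • T)) =
        τ.rfn (Ring.inverse (s • T * star (s • T) + ε • 1) * (s • T * star T)) := by
      rw [← mul_assoc, τ.rfn_comm, ← mul_assoc, ← mul_assoc, e2]
    have k2 : τ.rfn (Ring.inverse (star (s • T) * s • T + ε • 1) * (star (s • T) * T)) =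
        τ.rfn (Ring.inverse (s • T * star (s • T) + ε • 1) * (T * star (s • T))) := by
      rw [← mul_assoc, e1, mul_assoc, τ.rfn_comm, mul_assoc]
    rw [k1, k2]
    ring
  obtain ⟨s, hs, hs'⟩ := exists_hasDerivAt_eq_slope f (fun _ => 0) one_pos
    (fun s _ => (hder s).continuousAt.continuousWithinAt) (fun s _ => hder s)
  simp only [hf, one_smul, zero_smul, star_zero, mul_zero, sub_zero, div_one, zero_add,
    sub_self] at hs'
  linarith

/-- Multiplicativity in the invertible case. -/
theorem tlog_conj {S P : A} (hS : IsUnit S) (hP : IsStrictlyPositive P) :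
    tlog τ (star S * P * S) = tlog τ (star S * S) + tlog τ P := by
  have h1p : IsStrictlyPositive (1 : A) := isStrictlyPositive_one
  have hder : ∀ s ∈ Set.Icc (0 : ℝ) 1, HasDerivAt (fun s : ℝ =>
      tlog τ (star S * (1 + s • (P - 1)) * S) - tlog τ (1 + s • (P - 1))) 0 s := by
    intro s hs
    have hseg := isStrictlyPositive_segment h1p hP hs.1 hs.2
    have hl : HasDerivAt (fun s : ℝ => (1 : A) + s • (P - 1)) (P - 1) s := by
      have := ((hasDerivAt_id s).smul_const (P - 1)).const_add 1
      simpa using this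
    have ho : ∀ᶠ t : ℝ in 𝓝 s, IsStrictlyPositive ((1 : A) + t • (P - 1)) := by
      have hsa : ∀ t : ℝ, IsSelfAdjoint ((1 : A) + t • (P - 1)) := fun t =>
        (IsSelfAdjoint.one A).add (IsSelfAdjoint.smul (.all _)
          (hP.isSelfAdjoint.sub (IsSelfAdjoint.one A)))
      set c : ℝ := ‖(1 : A) + s • (P - 1)‖ + 1 with hc
      have hc0 : 0 < c := by positivity
      have hlt : ‖1 - c⁻¹ • ((1 : A) + s • (P - 1))‖ < 1 :=
        norm_one_sub_lt hseg (by linarith) hc0
      have hcont : Continuous fun s : ℝ => ‖1 - c⁻¹ • ((1 : A) + s • (P - 1))‖ := by fun_prop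
      filter_upwards [(isOpen_lt hcont continuous_const).mem_nhds hlt] with t ht
      have hsp := isStrictlyPositive_one_sub
        ((IsSelfAdjoint.one A).sub (IsSelfAdjoint.smul (.all c⁻¹) (hsa t))) ht
      have := isStrictlyPositive_smul hsp hc0
      rwa [sub_sub_cancel, smul_smul, mul_inv_cancel₀ hc0.ne', one_smul] at this
    have d1 := hasDerivAt_tlog τ hl ho
    have d2 := hasDerivAt_tlog τ ((hl.const_mul (star S)).mul_const S)
      (ho.mono fun t ht => isStrictlyPositive_conj hS ht)
    refine (d2.sub d1).congr_deriv ?_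
    have hinv : Ring.inverse (star S * (1 + s • (P - 1)) * S) =
        Ring.inverse S * Ring.inverse (1 + s • (P - 1)) * Ring.inverse (star S) := by
      obtain ⟨u, rfl⟩ := hS
      obtain ⟨v, hv⟩ := hseg.isUnit
      rw [← hv, ← Units.coe_star, ← Units.val_mul, ← Units.val_mul]
      simp only [Ring.inverse_unit]
      rw [← Units.val_mul, ← Units.val_mul]
      simp [mul_inv_rev, mul_assoc]
    rw [hinv, sub_eq_zero]
    calc τ.rfn (Ring.inverse S * Ring.inverse (1 + s • (P - 1)) * Ring.inverse (star S) *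
          (star S * (P - 1) * S))
        = τ.rfn (Ring.inverse S * (Ring.inverse (1 + s • (P - 1)) * (P - 1) * S)) := by
          congr 1
          rw [mul_assoc (star S), mul_assoc _ (Ring.inverse (star S)),
            ← mul_assoc (Ring.inverse (star S)), Ring.inverse_mul_cancel _ hS.star, one_mul]
          simp only [mul_assoc]
      _ = _ := by
          rw [τ.rfn_comm, mul_assoc, Ring.mul_inverse_cancel _ hS, mul_one]
  obtain ⟨s, hs, hs'⟩ := exists_hasDerivAt_eq_slope _ (fun _ => 0) one_pos
    (fun s hs => (hder s hs).continuousAt.continuousWithinAt)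
    (fun s hs => hder s (Set.Ioo_subset_Icc_self hs))
  have hP1 : (1 : A) + (P - 1) = P := by abel
  have h0 : tlog τ (1 : A) = 0 := by simp [tlog]
  simp only [one_smul, zero_smul, add_zero, mul_one, sub_zero, div_one, hP1, h0] at hs'
  linarith

/-- The trace of `log (T* T + ε)`, halved. -/
noncomputable def hreg (T : A) (ε : ℝ) : ℝ := tlog τ (star T * T + ε • (1 : A)) / 2

/-- The regularised Fuglede-Kadison determinant, `inf_{ε > 0} exp (τ (log (T* T + ε)) / 2)`. -/
noncomputable def rdet (T : A) : ℝ := ⨅ ε : Set.Ioi (0 : ℝ), Real.exp (hreg τ T ε)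

theorem rdet_bddBelow (T : A) :
    BddBelow (Set.range fun ε : Set.Ioi (0 : ℝ) => Real.exp (hreg τ T ε)) :=
  ⟨0, by rintro _ ⟨ε, rfl⟩; positivity⟩

theorem rdet_nonneg (T : A) : 0 ≤ rdet τ T := Real.iInf_nonneg fun _ => by positivity

theorem rdet_le (T : A) {ε : ℝ} (hε : 0 < ε) : rdet τ T ≤ Real.exp (hreg τ T ε) :=
  ciInf_le (rdet_bddBelow τ T) (⟨ε, hε⟩ : Set.Ioi (0 : ℝ))

theorem le_rdet {T : A} {c : ℝ} (h : ∀ ε : ℝ, 0 < ε → c ≤ Real.exp (hreg τ T ε)) :
    c ≤ rdet τ T :=
  le_ciInf fun ε => h ε ε.2

theorem hreg_mono (T : A) {ε δ : ℝ} (hε : 0 < ε) (h : ε ≤ δ) : hreg τ T ε ≤ hreg τ T δ := by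
  unfold hreg
  have := tlog_mono τ (isStrictlyPositive_reg T hε)
    (b := star T * T + δ • (1 : A)) (by gcongr)
  linarith

theorem hreg_star (T : A) {ε : ℝ} (hε : 0 < ε) : hreg τ (star T) ε = hreg τ T ε := by
  unfold hreg
  rw [star_star, tlog_reg_star τ T hε]

theorem rdet_star (T : A) : rdet τ (star T) = rdet τ T := by
  unfold rdet
  congr 1
  ext ε
  rw [hreg_star τ T ε.2]

theorem rdet_of_isUnit {S : A} (hS : IsUnit S) :
    rdet τ S = Real.exp (tlog τ (star S * S) / 2) := by
  have hp := isStrictlyPositive_star_mul_self hS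
  apply le_antisymm
  · set c := τ.rfn (Ring.inverse (star S * S)) with hc
    have hb : ∀ ε : ℝ, 0 < ε → rdet τ S ≤ Real.exp (tlog τ (star S * S) / 2 + ε * c / 2) := by
      intro ε hε
      refine (rdet_le τ S hε).trans (Real.exp_le_exp.mpr ?_)
      have := klein τ hp (isStrictlyPositive_reg S hε)
      rw [add_sub_cancel_left, mul_smul_comm, mul_one, map_smul, smul_eq_mul] at this
      unfold hreg
      linarith
    have hlim : Tendsto (fun ε : ℝ => Real.exp (tlog τ (star S * S) / 2 + ε * c / 2)) (𝓝[>] 0)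
        (𝓝 (Real.exp (tlog τ (star S * S) / 2 + 0 * c / 2))) := by
      apply Tendsto.mono_left _ nhdsWithin_le_nhds
      apply Continuous.tendsto
      fun_prop
    rw [zero_mul, zero_div, add_zero] at hlim
    exact ge_of_tendsto hlim (eventually_nhdsWithin_of_forall fun ε hε => hb ε hε)
  · refine le_rdet τ fun ε hε => Real.exp_le_exp.mpr ?_
    unfold hreg
    have := tlog_mono τ hp (b := star S * S + ε • (1 : A))
      (le_add_of_nonneg_right (isStrictlyPositive_smul_one hε).nonneg)
    linarith

theorem tlog_star_mul_self_comm {S : A} (hS : IsUnit S) :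
    tlog τ (S * star S) = tlog τ (star S * S) := by
  have h1 := rdet_of_isUnit τ hS
  have h2 := rdet_of_isUnit τ hS.star
  rw [rdet_star, h1, star_star] at h2
  have := Real.exp_injective h2
  linarith

theorem rdet_mul_le {S T : A} (hS : IsUnit S) : rdet τ (S * T) ≤ rdet τ S * rdet τ T := by
  rw [rdet_of_isUnit τ hS]
  set c : ℝ := ‖Ring.inverse (star S * S)‖ + 1 with hc
  have hc0 : 0 < c := by positivity
  have hp := isStrictlyPositive_star_mul_self hS
  have hcle : Ring.inverse (star S * S) ≤ c • (1 : A) := by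
    have h1 := hp.ringInverse.isSelfAdjoint.le_algebraMap_norm_self
    rw [Algebra.algebraMap_eq_smul_one] at h1
    refine h1.trans ?_
    have : ‖Ring.inverse (star S * S)‖ ≤ c := by linarith
    gcongr
  have key : ∀ ε : ℝ, 0 < ε →
      hreg τ (S * T) ε ≤ tlog τ (star S * S) / 2 + hreg τ T (ε * c) := by
    intro ε hε
    rw [← hreg_star τ (S * T) hε, ← hreg_star τ T (mul_pos hε hc0)]
    unfold hreg
    simp only [star_star]
    have hpos : IsStrictlyPositive (T * star T + ε • Ring.inverse (star S * S)) :=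
      IsStrictlyPositive.nonneg_add (mul_star_self_nonneg T)
        (isStrictlyPositive_smul hp.ringInverse hε)
    have hid : S * T * star (S * T) + ε • (1 : A) =
        star (star S) * (T * star T + ε • Ring.inverse (star S * S)) * star S := by
      obtain ⟨u, rfl⟩ := hS
      rw [← Units.coe_star, ← Units.val_mul, Ring.inverse_unit]
      simp only [star_mul, star_star, mul_add, add_mul, mul_smul_comm, smul_mul_assoc,
        mul_assoc, Units.coe_star, mul_inv_rev, Units.val_mul]
      congr 2
      rw [← Units.coe_star, Units.inv_mul, mul_one, Units.mul_inv]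
    rw [hid, tlog_conj τ hS.star hpos, star_star, tlog_star_mul_self_comm τ hS]
    have h2 := tlog_mono τ hpos (b := T * star T + (ε * c) • (1 : A)) (by
      rw [mul_smul]; gcongr)
    linarith
  have hle : ∀ ε : ℝ, 0 < ε → rdet τ (S * T) ≤
      Real.exp (tlog τ (star S * S) / 2) * Real.exp (hreg τ T ε) := by
    intro ε hε
    refine (rdet_le τ (S * T) (div_pos hε hc0)).trans ?_
    rw [← Real.exp_add]
    refine Real.exp_le_exp.mpr ((key _ (div_pos hε hc0)).trans ?_)
    rw [div_mul_cancel₀ _ hc0.ne']
  have h1 : rdet τ (S * T) / Real.exp (tlog τ (star S * S) / 2) ≤ rdet τ T := by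
    refine le_rdet τ fun ε hε => ?_
    rw [div_le_iff₀ (by positivity), mul_comm]
    exact hle ε hε
  rw [div_le_iff₀ (by positivity)] at h1
  linarith

theorem rdet_one : rdet τ (1 : A) = 1 := by
  rw [rdet_of_isUnit τ isUnit_one]
  simp [tlog]

theorem rdet_pos_of_isUnit {S : A} (hS : IsUnit S) : 0 < rdet τ S := by
  rw [rdet_of_isUnit τ hS]; positivity

theorem rdet_mul_of_isUnit {S T : A} (hS : IsUnit S) (hT : IsUnit T) :
    rdet τ (S * T) = rdet τ S * rdet τ T := by
  rw [rdet_of_isUnit τ hS, rdet_of_isUnit τ hT, rdet_of_isUnit τ (hS.mul hT), ← Real.exp_add]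
  congr 1
  have h1 : star (S * T) * (S * T) = star T * (star S * S) * T := by
    simp only [star_mul, mul_assoc]
  rw [h1, tlog_conj τ hT (isStrictlyPositive_star_mul_self hS)]
  ring

/-- Multiplicativity, the left factor being invertible. -/
theorem rdet_mul_left {S : A} (T : A) (hS : IsUnit S) :
    rdet τ (S * T) = rdet τ S * rdet τ T := by
  apply le_antisymm (rdet_mul_le τ hS)
  have h1 := rdet_mul_le τ (S := Ring.inverse S) (T := S * T) hS.ringInverse
  rw [← mul_assoc, Ring.inverse_mul_cancel _ hS, one_mul] at h1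
  have h2 := rdet_mul_of_isUnit τ hS.ringInverse hS
  rw [Ring.inverse_mul_cancel _ hS, rdet_one] at h2
  have h3 := rdet_pos_of_isUnit τ hS
  calc rdet τ S * rdet τ T ≤ rdet τ S * (rdet τ (Ring.inverse S) * rdet τ (S * T)) := by
        gcongr
    _ = rdet τ (S * T) := by
        rw [← mul_assoc, mul_comm (rdet τ S), ← h2, one_mul]

/-- Multiplicativity, the right factor being invertible. -/
theorem rdet_mul_right {S : A} (T : A) (hS : IsUnit S) :
    rdet τ (T * S) = rdet τ T * rdet τ S := by
  rw [← rdet_star, star_mul, rdet_mul_left τ _ hS.star, rdet_star, rdet_star, mul_comm]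

end Pool.Agent.Lib.MP_2e739e_gt
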