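import Pool.Agent.Lib.MP_2e739e_gt.Det

/-!
# Determinants of unipotents, of `1 + w` and of `1 + (r - 1) P`
-/

set_option autoImplicit false
set_option linter.unusedSectionVars false

open scoped ComplexConjugate Topology
open Filter Finset

namespace Pool.Agent.Lib.MP_2e739e_gt

variable {A : Type*} [CStarAlgebra A] [PartialOrder A] [StarOrderedRing A] (τ : PosTrace A)

theorem inverse_star_mul_self {S : A} (hS : IsUnit S) :
    Ring.inverse (star S * S) = Ring.inverse S * Ring.inverse (star S) := by
  obtain ⟨u, rfl⟩ := hS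
  rw [← Units.coe_star, ← Units.val_mul]
  simp only [Ring.inverse_unit]
  rw [← Units.val_mul]
  simp [mul_inv_rev]

theorem star_inverse (S : A) : star (Ring.inverse S) = Ring.inverse (star S) :=
  (Ring.inverse_star S).symm

/-- The derivative of `tlog (W* W)` along a path of invertible elements. -/
theorem hasDerivAt_tlog_star_mul_self {W : ℝ → A} {W' : A} {s : ℝ} (hW : HasDerivAt W W' s)
    (hu : ∀ᶠ t in 𝓝 s, IsUnit (W t)) :
    HasDerivAt (fun t => tlog τ (star (W t) * W t)) (2 * τ.rfn (Ring.inverse (W s) * W')) s := by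
  have hs : IsUnit (W s) := hu.self_of_nhds
  have h1 := hasDerivAt_tlog τ (hW.star.mul hW)
    (hu.mono fun t ht => isStrictlyPositive_star_mul_self ht)
  refine h1.congr_deriv ?_
  simp only [Pi.mul_apply]
  rw [inverse_star_mul_self hs, mul_add, map_add]
  have e1 : τ.rfn (Ring.inverse (W s) * Ring.inverse (star (W s)) * (star W' * W s)) =
      τ.rfn (Ring.inverse (W s) * W') := by
    rw [← τ.rfn_star (Ring.inverse (W s) * W'), star_mul, star_inverse, τ.rfn_comm (star W')]
    rw [mul_assoc, τ.rfn_comm, mul_assoc, mul_assoc, Ring.mul_inverse_cancel _ hs, mul_one]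
  have e2 : τ.rfn (Ring.inverse (W s) * Ring.inverse (star (W s)) * (star (W s) * W')) =
      τ.rfn (Ring.inverse (W s) * W') := by
    rw [mul_assoc, ← mul_assoc (Ring.inverse (star (W s))), Ring.inverse_mul_cancel _ hs.star,
      one_mul]
  rw [e1, e2]; ring

theorem inverse_one_add_of_sq {N : A} (hN : N * N = 0) :
    IsUnit (1 + N) ∧ Ring.inverse (1 + N) = 1 - N := by
  have h1 : (1 + N) * (1 - N) = 1 := by
    simp only [mul_sub, add_mul, mul_one, one_mul, hN]; abel
  have h2 : (1 - N) * (1 + N) = 1 := by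
    simp only [mul_add, sub_mul, mul_one, one_mul, hN]; abel
  let u : Aˣ := ⟨1 + N, 1 - N, h1, h2⟩
  exact ⟨u.isUnit, Ring.inverse_unit u⟩

/-- Unipotent elements have determinant one. -/
theorem rdet_one_add_of_sq {N : A} (hN : N * N = 0) (hτ : τ.rfn N = 0) : rdet τ (1 + N) = 1 := by
  have hsN : ∀ s : ℝ, (s • N) * (s • N) = 0 := fun s => by
    rw [smul_mul_smul_comm, hN, smul_zero]
  have hder : ∀ s : ℝ, HasDerivAt (fun s : ℝ => tlog τ (star (1 + s • N) * (1 + s • N))) 0 s := by
    intro s
    have hl : HasDerivAt (fun s : ℝ => (1 : A) + s • N) N s := by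
      have := ((hasDerivAt_id s).smul_const N).const_add (1 : A)
      simpa using this
    refine (hasDerivAt_tlog_star_mul_self τ hl
      (Eventually.of_forall fun t => (inverse_one_add_of_sq (hsN t)).1)).congr_deriv ?_
    rw [(inverse_one_add_of_sq (hsN s)).2, sub_mul, one_mul, smul_mul_assoc, hN, smul_zero,
      sub_zero, hτ, mul_zero]
  obtain ⟨s, hs, hs'⟩ := exists_hasDerivAt_eq_slope _ (fun _ => 0) one_pos
    (fun s _ => (hder s).continuousAt.continuousWithinAt) (fun s _ => hder s)
  have h0 : tlog τ (1 : A) = 0 := by simp [tlog]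
  simp only [one_smul, zero_smul, add_zero, star_one, mul_one, sub_zero, div_one, h0] at hs'
  rw [rdet_of_isUnit τ (inverse_one_add_of_sq hN).1, ← hs']
  simp

/-- Unitary elements have determinant one. -/
theorem rdet_of_unitary {u : A} (hu : u ∈ unitary A) : rdet τ u = 1 := by
  have h : IsUnit u := (Unitary.toUnits ⟨u, hu⟩).isUnit
  rw [rdet_of_isUnit τ h, Unitary.star_mul_self_of_mem hu]
  simp [tlog]

/-- Continuity of the regularised logarithmic trace. -/
theorem continuous_hreg {ε : ℝ} (hε : 0 < ε) : Continuous fun T : A => hreg τ T ε := by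
  unfold hreg tlog
  have h1 : Continuous fun T : A => CFC.log (star T * T + ε • (1 : A)) := by
    have := CFC.continuousOn_log (A := A)
    refine this.comp_continuous (by fun_prop) fun T => ?_
    exact ⟨(isStrictlyPositive_reg T hε).isSelfAdjoint, (isStrictlyPositive_reg T hε).isUnit⟩
  exact (τ.rfn.continuous.comp h1).div_const 2

/-- If `w` is a contraction all of whose powers have trace zero, then `det (1 + w) = 1`. -/
theorem rdet_one_add_of_trace_pow {w : A} (hwn : ‖w‖ ≤ 1)
    (hτ : ∀ n : ℕ, τ.rfn (w ^ (n + 1)) = 0) : rdet τ (1 + w) = 1 := by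
  have hw : star w * w ≤ 1 := by
    have h1 := (IsSelfAdjoint.star_mul_self w).le_algebraMap_norm_self
    refine h1.trans ?_
    rw [← map_one (algebraMap ℝ A)]
    apply algebraMap_mono
    rw [CStarRing.norm_star_mul_self]
    nlinarith [norm_nonneg w]
  have hnorm : ∀ s : ℝ, |s| < 1 → ‖-(s • w)‖ < 1 := by
    intro s hs
    rw [norm_neg, norm_smul, Real.norm_eq_abs]
    calc |s| * ‖w‖ ≤ |s| * 1 := by gcongr
      _ < 1 := by linarith
  have hunit : ∀ s : ℝ, |s| < 1 → IsUnit (1 + s • w) := by
    intro s hs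
    have := isUnit_one_sub_of_norm_lt_one (hnorm s hs)
    rwa [sub_neg_eq_add] at this
  have hder : ∀ s : ℝ, |s| < 1 → HasDerivAt (fun s : ℝ =>
      tlog τ (star (1 + s • w) * (1 + s • w))) 0 s := by
    intro s hs
    have hl : HasDerivAt (fun s : ℝ => (1 : A) + s • w) w s := by
      have := ((hasDerivAt_id s).smul_const w).const_add (1 : A)
      simpa using this
    have hev : ∀ᶠ t : ℝ in 𝓝 s, IsUnit (1 + t • w) := by
      filter_upwards [(isOpen_lt continuous_abs continuous_const).mem_nhds hs] with t ht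
      exact hunit t ht
    refine (hasDerivAt_tlog_star_mul_self τ hl hev).congr_deriv ?_
    have h1 : HasSum (fun n : ℕ => (-(s • w)) ^ n) (Ring.inverse (1 + s • w)) := by
      have := NormedRing.inverse_one_sub _ (hnorm s hs)
      rw [sub_neg_eq_add] at this
      rw [this]
      exact (summable_geometric_of_norm_lt_one (hnorm s hs)).hasSum
    have h2 := (h1.mul_right w).mapL τ.rfn
    have h3 : ∀ n : ℕ, τ.rfn ((-(s • w)) ^ n * w) = 0 := by
      intro n
      rw [← neg_smul, smul_pow, smul_mul_assoc, ← pow_succ, map_smul, hτ, smul_zero]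
    simp only [h3] at h2
    rw [h2.unique hasSum_zero, mul_zero]
  have hzero : ∀ r : ℝ, 0 < r → r < 1 → tlog τ (star (1 + r • w) * (1 + r • w)) = 0 := by
    intro r hr0 hr1
    have habs : ∀ s ∈ Set.Icc (0 : ℝ) r, |s| < 1 := fun s hs => by
      rw [abs_of_nonneg hs.1]; linarith [hs.2]
    obtain ⟨s, hs, hs'⟩ := exists_hasDerivAt_eq_slope _ (fun _ => 0) hr0
      (fun s hs => (hder s (habs s hs)).continuousAt.continuousWithinAt)
      (fun s hs => hder s (habs s (Set.Ioo_subset_Icc_self hs)))
    have h0 : tlog τ (1 : A) = 0 := by simp [tlog]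
    simp only [zero_smul, add_zero, star_one, mul_one, sub_zero, h0] at hs'
    have := (div_eq_zero_iff.mp hs'.symm).resolve_right hr0.ne'
    exact this
  apply le_antisymm
  · -- upper bound
    have hb : ∀ r : ℝ, 0 < r → r < 1 → rdet τ (1 + w) ≤ Real.exp (Real.log r⁻¹ * τ.rfn 1 / 2) := by
      intro r hr0 hr1
      have hr' : 1 < r⁻¹ := (one_lt_inv₀ hr0).mpr hr1
      set ε : ℝ := r + r⁻¹ - 2 with hε
      have hε0 : 0 < ε := by
        have h1 : ε = (1 - r) ^ 2 * r⁻¹ := by
          rw [hε]; field_simp; ring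
        rw [h1]
        have : 0 < 1 - r := by linarith
        positivity
      refine (rdet_le τ (1 + w) hε0).trans (Real.exp_le_exp.mpr ?_)
      have hpos := isStrictlyPositive_star_mul_self (hunit r (by rw [abs_of_pos hr0]; exact hr1))
      have hle : star (1 + w) * (1 + w) + ε • (1 : A) ≤
          r⁻¹ • (star (1 + r • w) * (1 + r • w)) := by
        rw [← sub_nonneg]
        have h2 : r⁻¹ • (star (1 + r • w) * (1 + r • w)) -
            (star (1 + w) * (1 + w) + ε • (1 : A)) = (1 - r) • (1 - star w * w) := by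
          have hr2 : r⁻¹ * r = 1 := inv_mul_cancel₀ hr0.ne'
          simp only [star_add, star_one, star_smul, star_trivial, mul_add, add_mul, one_mul,
            mul_one, smul_add, smul_mul_assoc, mul_smul_comm, smul_smul, hε, hr2, one_smul,
            smul_sub, sub_smul, add_smul]
          have : (2 : ℝ) • (1 : A) = 1 + 1 := two_smul ℝ 1
          rw [this]
          have hrr : r⁻¹ * (r * r) = r := by rw [← mul_assoc, hr2, one_mul]
          rw [hrr]
          abel
        rw [h2]
        exact smul_nonneg (by linarith) (sub_nonneg.mpr hw)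
      have h3 := tlog_mono τ (isStrictlyPositive_reg (1 + w) hε0) hle
      rw [tlog_smul τ hpos (inv_pos.mpr hr0), hzero r hr0 hr1, add_zero] at h3
      unfold hreg
      linarith
    have hlim : Tendsto (fun r : ℝ => Real.exp (Real.log r⁻¹ * τ.rfn 1 / 2)) (𝓝[<] 1)
        (𝓝 (Real.exp (Real.log (1 : ℝ)⁻¹ * τ.rfn 1 / 2))) := by
      apply Tendsto.mono_left _ nhdsWithin_le_nhds
      apply ContinuousAt.tendsto
      apply Real.continuous_exp.continuousAt.comp
      apply ContinuousAt.div_const
      apply ContinuousAt.mul _ continuousAt_const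
      apply ContinuousAt.log (by fun_prop (disch := norm_num)) (by norm_num)
    simp only [inv_one, Real.log_one, zero_mul, zero_div, Real.exp_zero] at hlim
    refine ge_of_tendsto hlim ?_
    have : ∀ᶠ r : ℝ in 𝓝[<] 1, 0 < r := by
      apply eventually_nhdsWithin_of_eventually_nhds
      exact lt_mem_nhds one_pos
    filter_upwards [this, self_mem_nhdsWithin] with r hr0 hr1
    exact hb r hr0 hr1
  · -- lower bound
    refine le_rdet τ fun ε hε => ?_
    rw [← Real.exp_zero]
    refine Real.exp_le_exp.mpr ?_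
    have hlim : Tendsto (fun r : ℝ => hreg τ (1 + r • w) ε) (𝓝[<] 1)
        (𝓝 (hreg τ (1 + (1 : ℝ) • w) ε)) := by
      apply Tendsto.mono_left _ nhdsWithin_le_nhds
      exact ((continuous_hreg τ hε).comp (by fun_prop : Continuous fun r : ℝ =>
        (1 : A) + r • w)).tendsto 1
    rw [one_smul] at hlim
    refine le_of_tendsto_of_tendsto tendsto_const_nhds hlim ?_
    have : ∀ᶠ r : ℝ in 𝓝[<] 1, 0 < r := by
      apply eventually_nhdsWithin_of_eventually_nhds
      exact lt_mem_nhds one_pos
    filter_upwards [this, self_mem_nhdsWithin] with r hr0 hr1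
    have hpos := isStrictlyPositive_star_mul_self (hunit r (by rw [abs_of_pos hr0]; exact hr1))
    have := tlog_mono τ hpos (b := star (1 + r • w) * (1 + r • w) + ε • (1 : A))
      (le_add_of_nonneg_right (isStrictlyPositive_smul_one hε).nonneg)
    rw [hzero r hr0 hr1] at this
    unfold hreg
    linarith

end Pool.Agent.Lib.MP_2e739e_gt
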