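import Pool.Agent.Lib.MP_2e739e_gt.Bridge

/-!
# Gauge action, diagonal matrices, and polynomial families
-/

set_option autoImplicit false
set_option linter.unusedSectionVars false

open scoped ENNReal ComplexConjugate InnerProductSpace
open Filter Topology

namespace Pool.Agent.Lib.MP_2e739e_gt

section Phase

variable {G : Type*}

theorem memℓp_phase {c : G → ℂ} (hc : ∀ g, ‖c g‖ = 1) {v : G → ℂ} (hv : Memℓp v 2) :
    Memℓp (fun g => c g * v g) 2 := by
  have h2 : 0 < (2 : ℝ≥0∞).toReal := by norm_num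
  rw [memℓp_gen_iff h2] at hv ⊢
  simpa [norm_mul, hc] using hv

/-- Multiplication by a unimodular function. -/
noncomputable def phaseL2 (c : G → ℂ) (hc : ∀ g, ‖c g‖ = 1) : L2 G ≃ₗᵢ[ℂ] L2 G where
  toFun v := ⟨fun g => c g * v g, memℓp_phase hc (lp.memℓp v)⟩
  invFun v := ⟨fun g => (c g)⁻¹ * v g, memℓp_phase (fun g => by rw [norm_inv, hc, inv_one])
    (lp.memℓp v)⟩
  map_add' v w := by
    apply lp.ext; funext g
    exact mul_add _ _ _
  map_smul' a v := by
    apply lp.ext; funext g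
    exact mul_left_comm _ _ _
  left_inv v := by
    apply lp.ext; funext g
    have : c g ≠ 0 := by rw [← norm_ne_zero_iff, hc]; exact one_ne_zero
    change (c g)⁻¹ * (c g * v g) = v g
    rw [inv_mul_cancel_left₀ this]
  right_inv v := by
    apply lp.ext; funext g
    have : c g ≠ 0 := by rw [← norm_ne_zero_iff, hc]; exact one_ne_zero
    change c g * ((c g)⁻¹ * v g) = v g
    rw [mul_inv_cancel_left₀ this]
  norm_map' v := by
    have h2 : 0 < (2 : ℝ≥0∞).toReal := by norm_num
    rw [lp.norm_eq_tsum_rpow h2, lp.norm_eq_tsum_rpow h2]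
    congr 1
    refine tsum_congr fun g => ?_
    change ‖c g * v g‖ ^ _ = _
    rw [norm_mul, hc, one_mul]

theorem phaseL2_apply (c : G → ℂ) (hc : ∀ g, ‖c g‖ = 1) (v : L2 G) (g : G) :
    phaseL2 c hc v g = c g * v g := rfl

theorem phaseL2_del (c : G → ℂ) (hc : ∀ g, ‖c g‖ = 1) (g : G) :
    phaseL2 c hc (del g) = c g • del g := by
  classical
  apply lp.ext; funext h
  rw [phaseL2_apply]
  change c h * del g h = c g * del g h
  unfold del
  by_cases hh : h = g
  · subst hh; rfl
  · rw [lp.single_apply_ne _ _ _ hh, mul_zero, mul_zero]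

end Phase

variable {G : Type*} [Group G] {n : Type*} [Fintype n]

/-- A unitary character. -/
structure UChar (G : Type*) [Group G] where
  /-- the character -/
  χ : G →* ℂ
  norm_eq : ∀ g, ‖χ g‖ = 1

/-- The gauge unitary. -/
noncomputable def gauge (n : Type*) [Fintype n] (c : UChar G) : L2n G n ≃ₗᵢ[ℂ] L2n G n :=
  LinearIsometryEquiv.piLpCongrRight 2 fun _ => phaseL2 c.χ c.norm_eq

theorem gauge_apply (c : UChar G) (x : L2n G n) (i : n) (g : G) :
    (gauge n c x) i g = c.χ g * x i g := rfl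

theorem gauge_leftTr (c : UChar G) (g : G) (x : L2n G n) :
    gauge n c (leftTr n g x) = c.χ g • leftTr n g (gauge n c x) := by
  apply PiLp.ext; intro i
  apply lp.ext; funext h
  change c.χ h * x i (g⁻¹ * h) = c.χ g * (c.χ (g⁻¹ * h) * x i (g⁻¹ * h))
  rw [← mul_assoc, ← map_mul, mul_inv_cancel_left]

theorem conj_gauge_mem (c : UChar G) (X : vN G n) :
    (gauge n c).conjStarAlgEquiv (X : L2n G n →L[ℂ] L2n G n) ∈ vN G n := by
  rw [mem_vN]
  intro g x
  rw [LinearIsometryEquiv.conjStarAlgEquiv_apply_apply,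
    LinearIsometryEquiv.conjStarAlgEquiv_apply_apply]
  have hg : c.χ g ≠ 0 := by rw [← norm_ne_zero_iff, c.norm_eq]; exact one_ne_zero
  have h1 : (gauge n c).symm (leftTr n g x) = (c.χ g)⁻¹ • leftTr n g ((gauge n c).symm x) := by
    apply (gauge n c).injective
    rw [LinearIsometryEquiv.apply_symm_apply, map_smul, gauge_leftTr,
      LinearIsometryEquiv.apply_symm_apply, smul_smul, inv_mul_cancel₀ hg, one_smul]
  rw [h1, map_smul, map_smul, mem_vN.mp X.2, gauge_leftTr, smul_smul, inv_mul_cancel₀ hg, one_smul]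

/-- The gauge automorphism of the group von Neumann algebra. -/
noncomputable def gaugeHom (n : Type*) [Fintype n] (c : UChar G) : vN G n →⋆ₐ[ℂ] vN G n :=
  (((gauge n c).conjStarAlgEquiv : (L2n G n →L[ℂ] L2n G n) →⋆ₐ[ℂ] (L2n G n →L[ℂ] L2n G n)).comp
    (vN G n).subtype).codRestrict (vN G n) (conj_gauge_mem c)

theorem coe_gaugeHom (c : UChar G) (X : vN G n) : (gaugeHom n c X : L2n G n →L[ℂ] L2n G n) =
    (gauge n c).conjStarAlgEquiv (X : L2n G n →L[ℂ] L2n G n) := rfl

theorem trace_gaugeHom (c : UChar G) (X : vN G n) :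
    (vnPosTrace G n).fn (gaugeHom n c X) = (vnPosTrace G n).fn X := by
  rw [vnPosTrace_fn, vnPosTrace_fn, coe_gaugeHom]
  unfold vnTrace
  refine Finset.sum_congr rfl fun i _ => ?_
  rw [LinearIsometryEquiv.conjStarAlgEquiv_apply_apply]
  have h1 : gauge n c (unitVec G i) = unitVec G i := by
    classical
    rw [unitVec_eq]
    unfold gauge bvec
    rw [LinearIsometryEquiv.piLpCongrRight_single, phaseL2_del, map_one, one_smul]
  have h2 : (gauge n c).symm (unitVec G i) = unitVec G i := by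
    rw [LinearIsometryEquiv.symm_apply_eq, h1]
  rw [h2]
  nth_rewrite 1 [← h1]
  rw [LinearIsometryEquiv.inner_map_map]

/-- The element `a` of the group ring is an eigenvector of the gauge automorphism. -/
def PhaseEq (c : UChar G) (γ : ℂ) (a : MonoidAlgebra ℝ G) : Prop :=
  ∀ v : L2 G, phaseL2 c.χ c.norm_eq (mulRightRing a v) =
    γ • mulRightRing a (phaseL2 c.χ c.norm_eq v)

theorem PhaseEq.add {c : UChar G} {γ : ℂ} {a b : MonoidAlgebra ℝ G} (ha : PhaseEq c γ a)
    (hb : PhaseEq c γ b) : PhaseEq c γ (a + b) := by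
  intro v
  rw [mulRightRing_add, _root_.add_apply, _root_.add_apply, map_add, ha, hb, smul_add]

theorem PhaseEq.zero {c : UChar G} {γ : ℂ} : PhaseEq c γ 0 := by
  intro v
  rw [mulRightRing_zero, _root_.zero_apply, _root_.zero_apply, map_zero, smul_zero]

theorem mulRightGrp_apply (h g : G) (v : L2 G) : mulRightGrp h v g = v (g * h⁻¹) := rfl

theorem PhaseEq.single {c : UChar G} {γ : ℂ} (g : G) (r : ℝ) (h : c.χ g = γ) :
    PhaseEq c γ (MonoidAlgebra.single g r) := by
  intro v
  rw [mulRightRing_single]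
  apply lp.ext; funext k
  change c.χ k * ((r : ℂ) * v (k * g⁻¹)) = γ * ((r : ℂ) * (c.χ (k * g⁻¹) * v (k * g⁻¹)))
  have : c.χ k = γ * c.χ (k * g⁻¹) := by
    rw [← h, ← map_mul]
    have : c.χ (g * (k * g⁻¹)) = c.χ k := by
      simp only [map_mul]
      rw [mul_left_comm, ← map_mul c.χ g g⁻¹, mul_inv_cancel, map_one, mul_one]
    rw [this]
  rw [this]; ring

/-- Right multiplication by a matrix, as an element of the group von Neumann algebra. -/
noncomputable def mm (M : Matrix n n (MonoidAlgebra ℝ G)) : vN G n :=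
  ⟨mulRightMatrix M, mulRightMatrix_mem_vN M⟩

theorem coe_mm (M : Matrix n n (MonoidAlgebra ℝ G)) :
    (mm M : L2n G n →L[ℂ] L2n G n) = mulRightMatrix M := rfl

theorem mm_mul (M N : Matrix n n (MonoidAlgebra ℝ G)) : mm (M * N) = mm N * mm M :=
  Subtype.ext (mulRightMatrix_mul M N)

theorem mm_add (M N : Matrix n n (MonoidAlgebra ℝ G)) : mm (M + N) = mm M + mm N :=
  Subtype.ext (mulRightMatrix_add M N)

theorem mm_smul (r : ℝ) (M : Matrix n n (MonoidAlgebra ℝ G)) : mm (r • M) = r • mm M :=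
  Subtype.ext (mulRightMatrix_smul r M)

theorem mm_one [DecidableEq n] : mm (1 : Matrix n n (MonoidAlgebra ℝ G)) = 1 :=
  Subtype.ext mulRightMatrix_one

theorem mm_zero : mm (0 : Matrix n n (MonoidAlgebra ℝ G)) = 0 := by
  have := mm_add (0 : Matrix n n (MonoidAlgebra ℝ G)) 0
  rw [add_zero] at this
  exact left_eq_add.mp this

theorem mm_sum {ι : Type*} (s : Finset ι) (M : ι → Matrix n n (MonoidAlgebra ℝ G)) :
    mm (∑ i ∈ s, M i) = ∑ i ∈ s, mm (M i) :=
  map_sum (⟨⟨mm, mm_zero⟩, mm_add⟩ : Matrix n n (MonoidAlgebra ℝ G) →+ vN G n) M s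

theorem gaugeHom_mm {c : UChar G} {γ : ℂ} {M : Matrix n n (MonoidAlgebra ℝ G)}
    (h : ∀ i j, PhaseEq c γ (M i j)) : gaugeHom n c (mm M) = γ • mm M := by
  apply Subtype.ext
  rw [coe_gaugeHom]
  apply ContinuousLinearMap.ext
  intro x
  rw [LinearIsometryEquiv.conjStarAlgEquiv_apply_apply]
  apply PiLp.ext; intro j
  change phaseL2 c.χ c.norm_eq ((mulRightMatrix M ((gauge n c).symm x)) j) =
    γ • (mulRightMatrix M x) j
  rw [mulRightMatrix_apply, mulRightMatrix_apply, map_sum, Finset.smul_sum]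
  refine Finset.sum_congr rfl fun i _ => ?_
  rw [h i j]
  congr 2
  have : (gauge n c ((gauge n c).symm x)) i = x i := by
    rw [LinearIsometryEquiv.apply_symm_apply]
  exact this

end Pool.Agent.Lib.MP_2e739e_gt
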