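import Pool.Agent.Lib.MP_2e739e_gt.Family

/-!
# Diagonal matrices and polynomial families
-/

set_option autoImplicit false
set_option linter.unusedSectionVars false

open scoped ENNReal ComplexConjugate InnerProductSpace
open Filter Topology

namespace Pool.Agent.Lib.MP_2e739e_gt

variable {G : Type*} [Group G] {n : Type*} [Fintype n] [DecidableEq n]

/-- The matrix with the entry `a` at the diagonal position `i₀` and zeros elsewhere. -/
noncomputable def EM (i₀ : n) (a : MonoidAlgebra ℝ G) : Matrix n n (MonoidAlgebra ℝ G) :=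
  Matrix.single i₀ i₀ a

/-- The diagonal matrix with the entry `a` at the position `i₀` and ones elsewhere. -/
noncomputable def DM (i₀ : n) (a : MonoidAlgebra ℝ G) : Matrix n n (MonoidAlgebra ℝ G) :=
  1 - EM i₀ 1 + EM i₀ a

theorem EM_mul (i₀ : n) (a b : MonoidAlgebra ℝ G) : EM i₀ a * EM i₀ b = EM i₀ (a * b) :=
  Matrix.single_mul_single_same ..

theorem EM_add (i₀ : n) (a b : MonoidAlgebra ℝ G) : EM i₀ (a + b) = EM i₀ a + EM i₀ b :=
  Matrix.single_add ..

theorem EM_smul (i₀ : n) (r : ℝ) (a : MonoidAlgebra ℝ G) : EM i₀ (r • a) = r • EM i₀ a :=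
  (Matrix.smul_single ..).symm

theorem EM_zero (i₀ : n) : EM i₀ (0 : MonoidAlgebra ℝ G) = 0 := Matrix.single_zero ..

theorem EM_sum (i₀ : n) {ι : Type*} (s : Finset ι) (a : ι → MonoidAlgebra ℝ G) :
    EM i₀ (∑ i ∈ s, a i) = ∑ i ∈ s, EM i₀ (a i) :=
  map_sum (⟨⟨EM i₀, EM_zero i₀⟩, EM_add i₀⟩ :
    MonoidAlgebra ℝ G →+ Matrix n n (MonoidAlgebra ℝ G)) a s

theorem DM_mul (i₀ : n) (a b : MonoidAlgebra ℝ G) : DM i₀ a * DM i₀ b = DM i₀ (a * b) := by
  unfold DM
  simp only [mul_add, add_mul, mul_sub, sub_mul, mul_one, one_mul, EM_mul]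
  abel

theorem DM_one (i₀ : n) : DM i₀ (1 : MonoidAlgebra ℝ G) = 1 := by
  unfold DM; abel

/-- The projection onto the coordinate `i₀`. -/
noncomputable def PM (G : Type*) [Group G] (i₀ : n) : vN G n := mm (EM i₀ 1)

theorem EM_apply_coord (i₀ : n) (a : MonoidAlgebra ℝ G) (x : L2n G n) (j : n) :
    mulRightMatrix (EM i₀ a) x j = if j = i₀ then mulRightRing a (x i₀) else 0 := by
  rw [mulRightMatrix_apply, Finset.sum_eq_single i₀]
  · by_cases h : j = i₀
    · subst h; simp [EM]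
    · rw [if_neg h]
      have : EM i₀ a i₀ j = 0 := by simp [EM, Ne.symm h]
      rw [this, mulRightRing_zero]; rfl
  · intro k _ hk
    have : EM i₀ a k j = 0 := by simp [EM, Ne.symm hk]
    rw [this, mulRightRing_zero]; rfl
  · simp

theorem star_mm_EM (i₀ : n) (g : G) :
    star (mm (EM i₀ (MonoidAlgebra.single g (1 : ℝ))) : vN G n) =
      mm (EM i₀ (MonoidAlgebra.single g⁻¹ 1)) := by
  apply Subtype.ext
  change ContinuousLinearMap.adjoint (mulRightMatrix (EM i₀ (MonoidAlgebra.single g (1 : ℝ)))) =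
    mulRightMatrix (EM i₀ (MonoidAlgebra.single g⁻¹ 1))
  symm
  rw [ContinuousLinearMap.eq_adjoint_iff]
  intro x y
  rw [inner_eq_sum, inner_eq_sum, Finset.sum_eq_single i₀, Finset.sum_eq_single i₀]
  · rw [EM_apply_coord, EM_apply_coord, if_pos rfl, if_pos rfl, mulRightRing_single,
      mulRightRing_single, one_smul, one_smul]
    have h1 : ∀ v : L2 G, mulRightGrp g (mulRightGrp g⁻¹ v) = v := by
      intro v
      have : (mulRightGrp g ∘L mulRightGrp g⁻¹ : L2 G →L[ℂ] L2 G) v = v := by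
        rw [← mulRightGrp_mul, inv_mul_cancel, mulRightGrp_one]; rfl
      exact this
    have h2 : ∀ v w : L2 G, inner ℂ (mulRightGrp g v) (mulRightGrp g w) = inner ℂ v w :=
      fun v w => (transport (Equiv.mulRight g)).inner_map_map v w
    rw [← h2, h1]
  · intro j _ hj
    rw [EM_apply_coord, if_neg hj, inner_zero_right]
  · simp
  · intro j _ hj
    rw [EM_apply_coord, if_neg hj, inner_zero_left]
  · simp

theorem PM_mul_self (i₀ : n) : PM G i₀ * PM G i₀ = PM G i₀ := by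
  unfold PM
  rw [← mm_mul, EM_mul, mul_one]

theorem star_PM (i₀ : n) : star (PM G i₀) = PM G i₀ := by
  unfold PM
  have := star_mm_EM i₀ (1 : G)
  rwa [inv_one] at this

theorem trace_mm (M : Matrix n n (MonoidAlgebra ℝ G)) :
    (vnPosTrace G n).rfn (mm M) = ∑ i, (mulRightRing (M i i) (del 1) 1).re := by
  rw [PosTrace.rfn_apply, vnPosTrace_fn, vnTrace_eq, Complex.re_sum]
  refine Finset.sum_congr rfl fun i _ => ?_
  rw [coe_mm, mulRightMatrix_bvec]

open Classical in
theorem mulRightRing_single_del (g : G) (r : ℝ) :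
    (mulRightRing (MonoidAlgebra.single g r) (del 1) 1).re = if g = 1 then r else 0 := by
  classical
  rw [mulRightRing_single, _root_.smul_apply, mulRightGrp_del, one_mul]
  change ((r : ℂ) * (del g : L2 G) 1).re = _
  unfold del
  by_cases h : g = 1
  · subst h; simp
  · rw [lp.single_apply_ne _ _ _ (Ne.symm h), mul_zero, if_neg h]; rfl

open Classical in
theorem trace_mm_EM (i₀ : n) (g : G) (r : ℝ) :
    (vnPosTrace G n).rfn (mm (EM i₀ (MonoidAlgebra.single g r))) = if g = 1 then r else 0 := by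
  rw [trace_mm, Finset.sum_eq_single i₀]
  · have : EM i₀ (MonoidAlgebra.single g r) i₀ i₀ = MonoidAlgebra.single g r := by simp [EM]
    rw [this, mulRightRing_single_del]
  · intro j _ hj
    have : EM i₀ (MonoidAlgebra.single g r) j j = 0 := by simp [EM, Ne.symm hj]
    rw [this, mulRightRing_zero]; rfl
  · simp

theorem trace_PM (i₀ : n) : (vnPosTrace G n).rfn (PM G i₀) = 1 := by
  have := trace_mm_EM (n := n) i₀ (1 : G) 1
  rwa [if_pos rfl] at this

theorem mm_DM (i₀ : n) (a : MonoidAlgebra ℝ G) :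
    mm (DM i₀ a) = 1 - PM G i₀ + mm (EM i₀ a) := by
  unfold DM PM
  rw [mm_add, sub_eq_add_neg, mm_add, mm_one]
  have : mm (-(EM i₀ (1 : MonoidAlgebra ℝ G))) = -mm (EM i₀ 1) := by
    rw [eq_neg_iff_add_eq_zero, ← mm_add, neg_add_cancel, mm_zero]
  rw [this, ← sub_eq_add_neg]

theorem PM_mul_EM (i₀ : n) (a : MonoidAlgebra ℝ G) : PM G i₀ * mm (EM i₀ a) = mm (EM i₀ a) := by
  unfold PM
  rw [← mm_mul, EM_mul, mul_one]

theorem EM_mul_PM (i₀ : n) (a : MonoidAlgebra ℝ G) : mm (EM i₀ a) * PM G i₀ = mm (EM i₀ a) := by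
  unfold PM
  rw [← mm_mul, EM_mul, one_mul]

/-- `D(g)` is unitary for a group element `g`. -/
theorem unitary_DM (i₀ : n) (g : G) :
    mm (DM i₀ (MonoidAlgebra.single g (1 : ℝ))) ∈ unitary (vN G n) := by
  have hs : star (mm (DM i₀ (MonoidAlgebra.single g (1 : ℝ))) : vN G n) =
      mm (DM i₀ (MonoidAlgebra.single g⁻¹ (1 : ℝ))) := by
    rw [mm_DM, mm_DM, star_add, star_sub, star_one, star_PM, star_mm_EM]
  rw [Unitary.mem_iff, hs, ← mm_mul, ← mm_mul, DM_mul, DM_mul, MonoidAlgebra.single_mul_single,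
    MonoidAlgebra.single_mul_single, mul_one, mul_inv_cancel, inv_mul_cancel]
  have : (MonoidAlgebra.single (1 : G) (1 : ℝ)) = 1 := rfl
  rw [this, DM_one, mm_one]
  exact ⟨rfl, rfl⟩

/-- The determinant of `D(1 + g)` is one if `g` has infinite order. -/
theorem vdet_DM_one_add (i₀ : n) (g : G) (hg : ∀ k : ℕ, g ^ (k + 1) ≠ 1) :
    vdet (mm (DM i₀ (1 + MonoidAlgebra.single g (1 : ℝ))) : vN G n) = 1 := by
  set w : vN G n := mm (EM i₀ (MonoidAlgebra.single g (1 : ℝ))) with hw
  have h1 : mm (DM i₀ (1 + MonoidAlgebra.single g (1 : ℝ))) = 1 + w := by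
    rw [mm_DM, EM_add, mm_add]
    change 1 - PM G i₀ + (PM G i₀ + w) = 1 + w
    abel
  have h3 : star w * w = PM G i₀ := by
    rw [hw, star_mm_EM, ← mm_mul, EM_mul, MonoidAlgebra.single_mul_single, mul_one,
      mul_inv_cancel]
    rfl
  have hpow : ∀ k : ℕ, w ^ (k + 1) = mm (EM i₀ (MonoidAlgebra.single (g ^ (k + 1)) (1 : ℝ))) := by
    intro k
    induction k with
    | zero => rw [zero_add, pow_one, pow_one]
    | succ k ih =>
      rw [pow_succ, ih, hw, ← mm_mul, EM_mul, MonoidAlgebra.single_mul_single, mul_one,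
        ← pow_succ']
  rw [h1]
  unfold vdet
  refine rdet_one_add_w (vnPosTrace G n) (PM_mul_self i₀) (star_PM i₀) h3 fun k => ?_
  rw [hpow, trace_mm_EM, if_neg (hg k)]

/-- The determinant of `D(r)`, `r > 0`. -/
theorem vdet_DM_real (i₀ : n) {r : ℝ} (hr : 0 < r) :
    IsUnit (mm (DM i₀ (MonoidAlgebra.single (1 : G) r)) : vN G n) ∧
    vdet (mm (DM i₀ (MonoidAlgebra.single (1 : G) r)) : vN G n) = r := by
  have h1 : (mm (DM i₀ (MonoidAlgebra.single (1 : G) r)) : vN G n) = 1 + (r - 1) • PM G i₀ := by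
    have : (MonoidAlgebra.single (1 : G) r) = r • (1 : MonoidAlgebra ℝ G) := by
      rw [MonoidAlgebra.one_def, MonoidAlgebra.smul_single, smul_eq_mul, mul_one]
    rw [mm_DM, this, EM_smul, mm_smul]
    change 1 - PM G i₀ + r • PM G i₀ = _
    rw [sub_smul, one_smul]; abel
  rw [h1]
  exact rdet_scale _ (PM_mul_self i₀) (trace_PM i₀) hr

end Pool.Agent.Lib.MP_2e739e_gt
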