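import Pool.Agent.Lib.MP_2e739e_gt.Fox

/-!
# The standard diagram of the knot `5_2`
-/

set_option autoImplicit false

open Filter Topology

namespace Pool.Agent.Lib.MP_2e739e_gt

/-- The successor map of the diagram: the knot runs through the passages
`0-, 3+, 1-, 0+, 2-, 4+, 3-, 1+, 4-, 2+` in this cyclic order, where `x+` is the over-passage and
`x-` the under-passage at the crossing `x`. -/
def next52 : Equiv.Perm (Fin 5 × Bool) where
  toFun p := if p.2 then ((![2, 4, 0, 1, 3] : Fin 5 → Fin 5) p.1, false)
    else ((![3, 0, 4, 1, 2] : Fin 5 → Fin 5) p.1, true)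
  invFun p := if p.2 then ((![1, 3, 4, 0, 2] : Fin 5 → Fin 5) p.1, false)
    else ((![2, 3, 0, 4, 1] : Fin 5 → Fin 5) p.1, true)
  left_inv := by decide
  right_inv := by decide

/-- The signed Gauss diagram of the standard diagram of `5_2`, all crossings being positive. -/
def G52 : GaussDiagram where
  X := Fin 5
  pos := fun _ => true
  next := next52

theorem oneComponent52 : G52.OneComponent := by
  have h : ∀ e f : Fin 5 × Bool, ∃ k : Fin 10, (next52^[k.1]) e = f := by decide
  intro e f
  obtain ⟨k, hk⟩ := h e f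
  exact ⟨k.1, hk⟩

/-- Decidable form of the corner relation. -/
def cornerB (s t : (Fin 5 × Bool) × Bool) : Prop :=
  ∃ x : Fin 5, (s = ((x, true), true) ∧ t = ((x, false), false)) ∨
    (s = (next52.symm (x, true), true) ∧ t = ((x, false), true)) ∨
    (s = (next52.symm (x, true), false) ∧ t = (next52.symm (x, false), true)) ∨
    (s = ((x, true), false) ∧ t = (next52.symm (x, false), false))

instance : DecidableRel cornerB := fun _ _ => by unfold cornerB; infer_instance

theorem corner_imp : ∀ {s t : G52.Side}, G52.Corner s t → cornerB s t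
  | _, _, .outOut x => ⟨x, Or.inl ⟨rfl, rfl⟩⟩
  | _, _, .inOut x => ⟨x, Or.inr (Or.inl ⟨rfl, rfl⟩)⟩
  | _, _, .inIn x => ⟨x, Or.inr (Or.inr (Or.inl ⟨rfl, rfl⟩))⟩
  | _, _, .outIn x => ⟨x, Or.inr (Or.inr (Or.inr ⟨rfl, rfl⟩))⟩

theorem corner_iff (s t : (Fin 5 × Bool) × Bool) : G52.Corner s t ↔ cornerB s t := by
  constructor
  · exact corner_imp
  · rintro ⟨x, ⟨rfl, rfl⟩ | ⟨rfl, rfl⟩ | ⟨rfl, rfl⟩ | ⟨rfl, rfl⟩⟩
    · exact GaussDiagram.Corner.outOut (D := G52) x
    · exact GaussDiagram.Corner.inOut (D := G52) x
    · exact GaussDiagram.Corner.inIn (D := G52) x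
    · exact GaussDiagram.Corner.outIn (D := G52) x

/-- The face which contains a given side. -/
def faceIdx (s : (Fin 5 × Bool) × Bool) : Fin 7 :=
  match s.1.2, s.2 with
  | false, false => (![0, 3, 3, 6, 0] : Fin 5 → Fin 7) s.1.1
  | true, true => (![0, 3, 3, 6, 0] : Fin 5 → Fin 7) s.1.1
  | false, true => (![1, 1, 5, 1, 5] : Fin 5 → Fin 7) s.1.1
  | true, false => (![2, 4, 2, 4, 4] : Fin 5 → Fin 7) s.1.1

/-- A side in each face. -/
def faceRep : Fin 7 → (Fin 5 × Bool) × Bool :=
  ![((0, false), false), ((0, false), true), ((0, true), false), ((1, false), false),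
    ((1, true), false), ((2, false), true), ((3, false), false)]

theorem faceIdx_corner : ∀ s t : (Fin 5 × Bool) × Bool, cornerB s t → faceIdx s = faceIdx t := by
  decide +kernel

theorem faceIdx_rep : ∀ i : Fin 7, faceIdx (faceRep i) = i := by decide

theorem face_connected : ∀ s : (Fin 5 × Bool) × Bool, ∃ a b : (Fin 5 × Bool) × Bool,
    (s = a ∨ cornerB s a ∨ cornerB a s) ∧ (a = b ∨ cornerB a b ∨ cornerB b a) ∧
    (b = faceRep (faceIdx s) ∨ cornerB b (faceRep (faceIdx s)) ∨
      cornerB (faceRep (faceIdx s)) b) := by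
  decide +kernel

theorem mk_eq_of {s t : (Fin 5 × Bool) × Bool} (h : s = t ∨ cornerB s t ∨ cornerB t s) :
    (Quot.mk _ s : G52.Face) = Quot.mk _ t := by
  rcases h with h | h | h
  · subst h; rfl
  · exact Quot.sound ((corner_iff s t).mpr h)
  · exact (Quot.sound ((corner_iff t s).mpr h)).symm

/-- The diagram has seven faces. -/
def faceEquiv : G52.Face ≃ Fin 7 where
  toFun := Quot.lift faceIdx fun s t h => faceIdx_corner s t ((corner_iff s t).mp h)
  invFun i := Quot.mk _ (faceRep i)
  left_inv q := by
    induction q using Quot.ind with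
    | mk s =>
      obtain ⟨a, b, h1, h2, h3⟩ := face_connected s
      exact ((mk_eq_of h1).trans ((mk_eq_of h2).trans (mk_eq_of h3))).symm
  right_inv i := faceIdx_rep i

theorem planar52 : G52.Planar := by
  unfold GaussDiagram.Planar
  rw [Nat.card_congr faceEquiv]
  have h1 : Nat.card G52.X = 5 := by
    change Nat.card (Fin 5) = 5
    simp
  have h2 : Nat.card G52.Edge = 10 := by
    change Nat.card (Fin 5 × Bool) = 10
    simp
  rw [h1, h2]
  simp

/-- The standard diagram of the knot `5_2`. -/
def K52 : KnotDiagram := { G52 with oneComponent := oneComponent52, planar := planar52 }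

/-- The index of the arc which contains a given edge. -/
def arcIdx (e : Fin 5 × Bool) : Fin 5 :=
  if e.2 then (![1, 3, 4, 0, 2] : Fin 5 → Fin 5) e.1 else e.1

/-- The arcs of the diagram; the arc `i` begins at the under-passage of the crossing `i`. -/
def arcEquiv : K52.Arc ≃ Fin 5 where
  toFun := Quot.lift arcIdx (by
    rintro e f ⟨x⟩
    have h : ∀ x : Fin 5, arcIdx (next52.symm (x, true)) = arcIdx (x, true) := by decide
    exact h x)
  invFun i := K52.arc (i, false)
  left_inv q := by
    induction q using Quot.ind with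
    | mk e =>
      obtain ⟨x, b⟩ := e
      cases b with
      | false => rfl
      | true =>
        have h : ∀ x : Fin 5, (arcIdx (x, true), false) = next52.symm (x, true) := by decide
        have h2 : (Quot.mk K52.ArcRel (K52.arriving (x, true)) : K52.Arc) =
            Quot.mk K52.ArcRel (x, true) := Quot.sound (KnotDiagram.ArcRel.over x)
        refine Eq.trans ?_ h2
        exact congrArg (Quot.mk K52.ArcRel) (h x)
  right_inv i := rfl

end Pool.Agent.Lib.MP_2e739e_gt
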