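import Pool.Agent.Lib.MP_2e739e_gt.FiveTwo

/-!
# The knot group of `5_2`
-/

set_option autoImplicit false

open Filter Topology

namespace Pool.Agent.Lib.MP_2e739e_gt

/-- The meridian generators of the knot group of `5_2`. -/
def gx (i : Fin 5) : K52.KnotGroup := K52.meridian (arcEquiv.symm i)

theorem arc_eq (e : Fin 5 × Bool) : K52.arc e = arcEquiv.symm (arcIdx e) := by
  rw [Equiv.eq_symm_apply]; rfl

/-- The index of the over-arc at a crossing. -/
def oIdx : Fin 5 → Fin 5 := ![1, 3, 4, 0, 2]

/-- The index of the incoming arc at a crossing. -/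
def iIdx : Fin 5 → Fin 5 := ![4, 0, 1, 2, 3]

theorem relator_eq (y : Fin 5) : K52.relator y =
    FreeGroup.of (arcEquiv.symm (oIdx y)) * FreeGroup.of (arcEquiv.symm (iIdx y)) *
      (FreeGroup.of (arcEquiv.symm (oIdx y)))⁻¹ * (FreeGroup.of (arcEquiv.symm y))⁻¹ := by
  have h1 : K52.arc (y, true) = arcEquiv.symm (oIdx y) := arc_eq (y, true)
  have h2 : K52.arc (K52.arriving (y, false)) = arcEquiv.symm (iIdx y) := by
    have h : ∀ y : Fin 5, arcIdx (next52.symm (y, false)) = iIdx y := by decide
    have := arc_eq (next52.symm (y, false))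
    rw [h] at this
    exact this
  have h3 : K52.arc (y, false) = arcEquiv.symm y := arc_eq (y, false)
  unfold KnotDiagram.relator
  rw [if_pos (show K52.pos y = true from rfl), h1, h2, h3]

theorem relation (y : Fin 5) : gx (oIdx y) * gx (iIdx y) * (gx (oIdx y))⁻¹ * (gx y)⁻¹ = 1 := by
  have h : (PresentedGroup.mk (Set.range K52.relator) (K52.relator y)) = 1 :=
    PresentedGroup.one_of_mem ⟨y, rfl⟩
  rw [relator_eq] at h
  simp only [map_mul, map_inv] at h
  exact h

/-- The parameter `α = (3 + √7 i) / 4` of the affine representation. -/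
noncomputable def al : ℂ := ⟨3 / 4, Real.sqrt 7 / 4⟩

theorem al_eq : 2 * al ^ 2 - 3 * al + 2 = 0 := by
  have h7 : Real.sqrt 7 * Real.sqrt 7 = 7 := Real.mul_self_sqrt (by norm_num)
  apply Complex.ext
  · simp [al, pow_two]
    nlinarith [h7]
  · simp [al, pow_two]
    ring

theorem al_ne_zero : al ≠ 0 := by
  intro h
  have := al_eq
  rw [h] at this
  norm_num at this

/-- The affine map `z ↦ α z + c`. -/
noncomputable def aff (c : ℂ) : Equiv.Perm ℂ where
  toFun z := al * z + c
  invFun z := al⁻¹ * (z - c)
  left_inv z := by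
    have := al_ne_zero
    field_simp
    ring
  right_inv z := by
    have := al_ne_zero
    field_simp
    ring

theorem aff_apply (c z : ℂ) : aff c z = al * z + c := rfl

/-- The translation parts of the images of the generators. -/
noncomputable def tr : Fin 5 → ℂ := ![0, (1 - al) * al, 1, al, al ^ 2 - al + 1]

theorem aff_relation (y : Fin 5) :
    aff (tr (oIdx y)) * aff (tr (iIdx y)) * (aff (tr (oIdx y)))⁻¹ * (aff (tr y))⁻¹ = 1 := by
  have h : tr y = al * tr (iIdx y) + (1 - al) * tr (oIdx y) := by
    have := al_eq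
    fin_cases y <;> simp [tr, oIdx, iIdx]
    · linear_combination (-al) * this
    · linear_combination al * this
    · ring
  rw [mul_inv_eq_one, mul_inv_eq_iff_eq_mul]
  ext z
  simp only [Equiv.Perm.mul_apply, aff_apply]
  rw [h]; ring

/-- The affine representation of the knot group. -/
noncomputable def rho : K52.KnotGroup →* Equiv.Perm ℂ :=
  PresentedGroup.toGroup (f := fun a : K52.Arc => aff (tr (arcEquiv a))) (by
    rintro _ ⟨y, rfl⟩
    rw [show K52.relator y = _ from relator_eq y]
    simp only [map_mul, map_inv, FreeGroup.lift_apply_of, Equiv.apply_symm_apply]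
    exact aff_relation y)

theorem rho_gx (i : Fin 5) : rho (gx i) = aff (tr i) := by
  have h : rho (gx i) = aff (tr (arcEquiv (arcEquiv.symm i))) := PresentedGroup.toGroup.of ..
  rw [h, Equiv.apply_symm_apply]

theorem phi_gx (i : Fin 5) : K52.phi (gx i) = Multiplicative.ofAdd 1 := PresentedGroup.toGroup.of ..

/-- Elements represented by nontrivial translations have infinite order. -/
theorem pow_ne_one_of_translation {g : K52.KnotGroup} {c : ℂ} (hc : c ≠ 0)
    (h : ∀ z, rho g z = z + c) (k : ℕ) : g ^ (k + 1) ≠ 1 := by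
  intro h1
  have h2 : ∀ m : ℕ, ∀ z, rho (g ^ m) z = z + m * c := by
    intro m
    induction m with
    | zero => intro z; simp
    | succ m ih =>
      intro z
      rw [pow_succ, map_mul, Equiv.Perm.mul_apply, h, ih]
      push_cast; ring
  have h3 := h2 (k + 1) 0
  rw [h1, map_one, Equiv.Perm.one_apply, zero_add] at h3
  have h4 : ((k + 1 : ℕ) : ℂ) ≠ 0 := by exact_mod_cast Nat.succ_ne_zero k
  exact mul_ne_zero h4 hc h3.symm

/-- The bottom unit. -/
theorem bot_ne_one (k : ℕ) : ((gx 2)⁻¹ * gx 4) ^ (k + 1) ≠ 1 := by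
  refine pow_ne_one_of_translation (c := al - 1) ?_ ?_ k
  · intro h
    have h1 : al = 1 := sub_eq_zero.mp h
    have := al_eq
    rw [h1] at this
    norm_num at this
  · intro z
    rw [map_mul, map_inv, rho_gx, rho_gx, Equiv.Perm.mul_apply, Equiv.Perm.inv_eq_iff_eq]
    simp only [aff_apply, tr]
    simp
    ring

/-- The top unit. -/
theorem top_ne_one (k : ℕ) :
    ((gx 4 * gx 1 * gx 0)⁻¹ * (gx 2 * gx 2 * gx 0)) ^ (k + 1) ≠ 1 := by
  have hne := al_ne_zero
  refine pow_ne_one_of_translation (c := (al ^ 2 - 2 * al + 2) / al ^ 2) ?_ ?_ k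
  · apply div_ne_zero _ (pow_ne_zero 2 hne)
    intro h
    have h1 := al_eq
    have h2 : al = 2 := by linear_combination (-2) * h + h1
    rw [h2] at h1
    norm_num at h1
  · intro z
    simp only [map_mul, map_inv, rho_gx]
    rw [Equiv.Perm.mul_apply, Equiv.Perm.inv_eq_iff_eq]
    simp only [Equiv.Perm.mul_apply, aff_apply, tr]
    simp
    field_simp
    ring

/-- The linear part of the affine representation. -/
noncomputable def lin : K52.KnotGroup →* ℂˣ :=
  (zpowersHom ℂˣ (Units.mk0 al al_ne_zero)).comp K52.phi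

theorem lin_gx (i : Fin 5) : (lin (gx i) : ℂ) = al := by
  rw [lin, MonoidHom.comp_apply, phi_gx]
  simp

theorem rho_sub (g : K52.KnotGroup) : ∀ z w : ℂ, rho g z - rho g w = (lin g : ℂ) * (z - w) := by
  let H : Subgroup K52.KnotGroup :=
    { carrier := {g | ∀ z w : ℂ, rho g z - rho g w = (lin g : ℂ) * (z - w)}
      one_mem' := by intro z w; simp
      mul_mem' := by
        intro a b ha hb z w
        rw [map_mul, map_mul, Equiv.Perm.mul_apply, Equiv.Perm.mul_apply, ha, hb, Units.val_mul,
          mul_assoc]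
      inv_mem' := by
        intro a ha z w
        have h := ha ((rho a)⁻¹ z) ((rho a)⁻¹ w)
        have e1 : ∀ y : ℂ, rho a ((rho a)⁻¹ y) = y := fun y => (rho a).apply_symm_apply y
        rw [e1, e1] at h
        rw [map_inv, map_inv, h, Units.inv_mul_cancel_left] }
  have hgen : ∀ a : K52.Arc, PresentedGroup.of a ∈ H := by
    intro a z w
    have h : PresentedGroup.of a = gx (arcEquiv a) := by
      unfold gx KnotDiagram.meridian
      rw [Equiv.symm_apply_apply]
    rw [h, rho_gx, lin_gx, aff_apply, aff_apply]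
    ring
  exact PresentedGroup.generated_by _ H hgen g

theorem rho_of_mem_commutator {g : K52.KnotGroup} (hg : g ∈ commutator K52.KnotGroup) (z : ℂ) :
    rho g z = z + rho g 0 := by
  have h1 : lin g = 1 := MonoidHom.mem_ker.mp (Abelianization.commutator_subset_ker lin hg)
  have h2 := rho_sub g z 0
  rw [h1] at h2
  simp only [Units.val_one, one_mul, sub_zero] at h2
  linear_combination h2

/-- The commutator subgroup of the knot group of `5_2` is not finitely generated. -/
theorem not_fibered52 : ¬ K52.IsFibered := by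
  rintro ⟨S, hS⟩
  have hne := al_ne_zero
  set t : K52.KnotGroup → ℂ := fun g => rho g 0 with ht
  set N : Submodule ℤ ℂ := Submodule.span ℤ (t '' (S : Set K52.KnotGroup)) with hN
  have hmem : ∀ g ∈ commutator K52.KnotGroup, t g ∈ N := by
    intro g hg
    rw [← hS] at hg
    have hsub : ∀ x ∈ Subgroup.closure (S : Set K52.KnotGroup),
        x ∈ commutator K52.KnotGroup := fun x hx => hS ▸ hx
    induction hg using Subgroup.closure_induction with
    | mem x hx => exact Submodule.subset_span ⟨x, hx, rfl⟩
    | one =>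
      have : t 1 = 0 := by simp [ht]
      rw [this]; exact N.zero_mem
    | mul x y hx hy ihx ihy =>
      have : t (x * y) = t y + t x := by
        simp only [ht]
        rw [map_mul, Equiv.Perm.mul_apply, rho_of_mem_commutator (hsub x hx)]
      rw [this]; exact N.add_mem ihy ihx
    | inv x hx ih =>
      have h1 : t x⁻¹ = -t x := by
        have h2 : rho x (rho x⁻¹ 0) = 0 := by
          rw [← Equiv.Perm.mul_apply, ← map_mul, mul_inv_cancel, map_one]; rfl
        rw [rho_of_mem_commutator (hsub x hx)] at h2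
        simp only [ht]
        linear_combination h2
      rw [h1]; exact N.neg_mem ih
  have hstab : ∀ n ∈ N, al • n ∈ N := by
    intro n hn
    induction hn using Submodule.span_induction with
    | mem x hx =>
      obtain ⟨s, hs, rfl⟩ := hx
      have hsC : s ∈ commutator K52.KnotGroup := by
        rw [← hS]; exact Subgroup.subset_closure hs
      have hconj : gx 0 * s * (gx 0)⁻¹ ∈ commutator K52.KnotGroup :=
        (inferInstance : (commutator K52.KnotGroup).Normal).conj_mem s hsC (gx 0)
      have h1 : t (gx 0 * s * (gx 0)⁻¹) = al • t s := by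
        simp only [ht, map_mul, map_inv, rho_gx, Equiv.Perm.mul_apply]
        have h0 : (aff (tr 0))⁻¹ 0 = 0 := by
          rw [Equiv.Perm.inv_eq_iff_eq, aff_apply]; simp [tr]
        rw [h0, aff_apply]
        simp [tr]
      rw [← h1]
      exact hmem _ hconj
    | zero => rw [smul_zero]; exact N.zero_mem
    | add x y _ _ hx hy => rw [smul_add]; exact N.add_mem hx hy
    | smul a x _ hx =>
      rw [smul_comm]; exact N.smul_mem a hx
  have hNe : N ≠ ⊥ := by
    intro hbot
    have h1 : t (gx 1 * gx 0 * (gx 1)⁻¹ * (gx 0)⁻¹) ∈ N := by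
      apply hmem
      exact Subgroup.commutator_mem_commutator (Subgroup.mem_top _) (Subgroup.mem_top _)
    rw [hbot, Submodule.mem_bot] at h1
    have h2 : t (gx 1 * gx 0 * (gx 1)⁻¹ * (gx 0)⁻¹) = (1 - al) ^ 2 * al := by
      simp only [ht, map_mul, map_inv, rho_gx, Equiv.Perm.mul_apply]
      have h0 : (aff (tr 0))⁻¹ 0 = 0 := by
        rw [Equiv.Perm.inv_eq_iff_eq, aff_apply]; simp [tr]
      have h3 : (aff (tr 1))⁻¹ 0 = -(1 - al) := by
        rw [Equiv.Perm.inv_eq_iff_eq, aff_apply]
        simp only [tr, Matrix.cons_val_one, Matrix.cons_val_zero]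
        ring
      rw [h0, h3, aff_apply, aff_apply]
      simp [tr]
      ring
    rw [h2] at h1
    rcases mul_eq_zero.mp h1 with h4 | h4
    · have h5 : al = 1 := by
        have := pow_eq_zero_iff (two_ne_zero) |>.mp h4
        linear_combination -this
      have := al_eq
      rw [h5] at this
      norm_num at this
    · exact hne h4
  have hNfg : N.FG := Submodule.fg_span (S.finite_toSet.image t)
  have hint : IsIntegral ℤ al := isIntegral_of_smul_mem_submodule N hNe hNfg al hstab
  have hint' : IsIntegral ℤ ((starRingEnd ℂ) al) :=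
    hint.map ((starRingEnd ℂ).toIntAlgHom)
  have hsum : IsIntegral ℤ (al + (starRingEnd ℂ) al) := hint.add hint'
  have h32 : al + (starRingEnd ℂ) al = algebraMap ℚ ℂ (3 / 2) := by
    rw [Complex.add_conj]
    simp [al]
    norm_num
  rw [h32] at hsum
  have hq : IsIntegral ℤ (3 / 2 : ℚ) :=
    (isIntegral_algebraMap_iff (algebraMap ℚ ℂ).injective).mp hsum
  obtain ⟨k, hk⟩ := IsIntegrallyClosed.isIntegral_iff.mp hq
  have hk2 : (2 * k : ℚ) = 3 := by
    have : (k : ℚ) = 3 / 2 := by simpa using hk
    rw [this]; norm_num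
  have hk3 : 2 * k = 3 := by exact_mod_cast hk2
  omega

end Pool.Agent.Lib.MP_2e739e_gt
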