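import Pool.Agent.Lib.MP_2e739e_gt.Knot

/-!
# Fox calculus
-/

set_option autoImplicit false

open Filter Topology

namespace Pool.Agent.Lib.MP_2e739e_gt

section Fox

variable {α G : Type*} [DecidableEq α] [Group G]

/-- The homomorphism underlying the Fox derivative. -/
noncomputable def foxHom (ρ : α → G) (j : α) :
    FreeGroup α →* (Matrix (Fin 2) (Fin 2) (MonoidAlgebra ℤ G))ˣ :=
  FreeGroup.lift (fun i => foxUnit (ρ i) (if i = j then 1 else 0))

theorem foxHom_shape (ρ : α → G) (j : α) (w : FreeGroup α) :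
    (foxHom ρ j w : Matrix (Fin 2) (Fin 2) (MonoidAlgebra ℤ G)) 0 0 =
        MonoidAlgebra.single (FreeGroup.lift ρ w) 1 ∧
      (foxHom ρ j w : Matrix (Fin 2) (Fin 2) (MonoidAlgebra ℤ G)) 1 0 = 0 ∧
      (foxHom ρ j w : Matrix (Fin 2) (Fin 2) (MonoidAlgebra ℤ G)) 1 1 = 1 := by
  induction w using FreeGroup.induction_on with
  | C1 => simp [MonoidAlgebra.one_def]
  | of i =>
    unfold foxHom
    rw [FreeGroup.lift_apply_of, FreeGroup.lift_apply_of]
    simp [foxUnit]
  | inv_of i _ =>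
    rw [map_inv, map_inv, foxHom, FreeGroup.lift_apply_of, FreeGroup.lift_apply_of]
    simp [foxUnit]
  | mul u v hu hv =>
    rw [map_mul, map_mul, Units.val_mul]
    simp only [Matrix.mul_apply, Fin.sum_univ_two, hu.1, hu.2.1, hu.2.2, hv.1, hv.2.1, hv.2.2]
    refine ⟨?_, by simp, by simp⟩
    rw [mul_zero, add_zero, MonoidAlgebra.single_mul_single, one_mul]

theorem foxDeriv_one (ρ : α → G) (j : α) : foxDeriv ρ j 1 = 0 := by
  unfold foxDeriv
  rw [map_one]; simp

/-- The Fox derivative of a generator. -/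
theorem foxDeriv_of (ρ : α → G) (i j : α) :
    foxDeriv ρ j (FreeGroup.of i) = if i = j then 1 else 0 := by
  unfold foxDeriv
  rw [FreeGroup.lift_apply_of]
  simp [foxUnit]

/-- The product rule for Fox derivatives. -/
theorem foxDeriv_mul (ρ : α → G) (j : α) (u v : FreeGroup α) :
    foxDeriv ρ j (u * v) =
      foxDeriv ρ j u + MonoidAlgebra.single (FreeGroup.lift ρ u) 1 * foxDeriv ρ j v := by
  have h := foxHom_shape ρ j u
  have h' := foxHom_shape ρ j v
  change (foxHom ρ j (u * v) : Matrix (Fin 2) (Fin 2) (MonoidAlgebra ℤ G)) 0 1 =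
    (foxHom ρ j u : Matrix (Fin 2) (Fin 2) (MonoidAlgebra ℤ G)) 0 1 +
      MonoidAlgebra.single (FreeGroup.lift ρ u) 1 *
        (foxHom ρ j v : Matrix (Fin 2) (Fin 2) (MonoidAlgebra ℤ G)) 0 1
  rw [map_mul, Units.val_mul, Matrix.mul_apply, Fin.sum_univ_two, h.1, h'.2.2, mul_one, add_comm]

theorem foxDeriv_inv (ρ : α → G) (j : α) (u : FreeGroup α) :
    foxDeriv ρ j u⁻¹ = -(MonoidAlgebra.single (FreeGroup.lift ρ u)⁻¹ 1 * foxDeriv ρ j u) := by
  have h := foxDeriv_mul ρ j u⁻¹ u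
  rw [inv_mul_cancel, foxDeriv_one, map_inv] at h
  exact eq_neg_of_add_eq_zero_left h.symm

end Fox

end Pool.Agent.Lib.MP_2e739e_gt
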