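import Mathlib

/-!
# `ℓ²(G)^n`, right multiplication by matrices over the group ring, Fuglede-Kadison determinant
-/

set_option autoImplicit false

open scoped ENNReal

namespace Pool.Agent.Lib.MP_2e739e_gt

/-- The Hilbert space `ℓ²(G)` of complex-valued square-summable functions on `G`. -/
abbrev L2 (G : Type*) : Type _ := lp (fun _ : G => ℂ) 2

/-- The Hilbert space `ℓ²(G)^n`; its elements are regarded as row vectors. -/
abbrev L2n (G n : Type*) [Fintype n] : Type _ := PiLp 2 (fun _ : n => L2 G)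

theorem memℓp_comp_symm {ι κ : Type*} (e : ι ≃ κ) {v : ι → ℂ} (hv : Memℓp v 2) :
    Memℓp (fun k => v (e.symm k)) 2 := by
  have h2 : 0 < (2 : ℝ≥0∞).toReal := by norm_num
  rw [memℓp_gen_iff h2] at hv ⊢
  exact (Equiv.summable_iff e.symm (f := fun i => ‖v i‖ ^ (2 : ℝ≥0∞).toReal)).mpr hv

/-- Transport of square-summable functions along a bijection `e`: the basis vector `δ_i` is sent
to the basis vector `δ_{e i}`, i.e. `v` is sent to `v ∘ e⁻¹`. -/
noncomputable def transport {ι κ : Type*} (e : ι ≃ κ) : L2 ι ≃ₗᵢ[ℂ] L2 κ where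
  toFun v := ⟨fun k => v (e.symm k), memℓp_comp_symm e (lp.memℓp v)⟩
  invFun w := ⟨fun i => w (e i), memℓp_comp_symm e.symm (lp.memℓp w)⟩
  map_add' v w := rfl
  map_smul' c v := rfl
  left_inv v := by
    apply lp.ext; funext i
    simp
  right_inv w := by
    apply lp.ext; funext i
    simp
  norm_map' v := by
    have h2 : 0 < (2 : ℝ≥0∞).toReal := by norm_num
    rw [lp.norm_eq_tsum_rpow h2, lp.norm_eq_tsum_rpow h2]
    congr 1
    exact Equiv.tsum_eq e.symm (fun i => ‖v i‖ ^ (2 : ℝ≥0∞).toReal)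

theorem transport_apply {ι κ : Type*} (e : ι ≃ κ) (v : L2 ι) (k : κ) :
    transport e v k = v (e.symm k) := rfl

section Group

variable {G : Type*} [Group G]

/-- Right multiplication by a group element `h` on `ℓ²(G)`: `(v · h)(g) = v (g h⁻¹)`. -/
noncomputable def mulRightGrp (h : G) : L2 G →L[ℂ] L2 G :=
  (transport (Equiv.mulRight h)).toContinuousLinearEquiv

/-- Right multiplication by an element of the real group ring on `ℓ²(G)`:
`v · (∑ h, a_h h) = ∑ h, a_h (v · h)`. -/
noncomputable def mulRightRing (a : MonoidAlgebra ℝ G) : L2 G →L[ℂ] L2 G :=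
  a.coeff.sum fun h c => c • mulRightGrp h

/-- Right multiplication `v ↦ v M`, `ℓ²(G)^m → ℓ²(G)^n`, by an `m × n` matrix `M` over the real
group ring: `(v M)_j = ∑ i, v_i M_{ij}`. -/
noncomputable def mulRightMatrix {m n : Type*} [Fintype m] [Fintype n]
    (M : Matrix m n (MonoidAlgebra ℝ G)) : L2n G m →L[ℂ] L2n G n :=
  ((PiLp.continuousLinearEquiv 2 ℂ (fun _ : n => L2 G)).symm : (n → L2 G) →L[ℂ] L2n G n) ∘L
    ContinuousLinearMap.pi fun j =>
      ∑ i, (mulRightRing (M i j)) ∘L (PiLp.proj 2 (fun _ : m => L2 G) i : L2n G m →L[ℂ] L2 G)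

open Classical in
/-- The vector of `ℓ²(G)^n` whose `i`-th entry is the basis vector `δ_1` at the neutral element and
whose other entries are zero. -/
noncomputable def unitVec (G : Type*) [Group G] {n : Type*} [Fintype n] (i : n) : L2n G n :=
  PiLp.single 2 i (lp.single 2 (1 : G) (1 : ℂ))

/-- The von Neumann trace `tr_{N(G)}(X) = ∑ i, ⟨e_i, X e_i⟩`. -/
noncomputable def vnTrace {n : Type*} [Fintype n] (X : L2n G n →L[ℂ] L2n G n) : ℂ :=
  ∑ i, inner ℂ (unitVec G i) (X (unitVec G i))

open Classical in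
/-- The Fuglede-Kadison determinant of a `G`-equivariant operator `T : ℓ²(G)^m → ℓ²(G)^n`, set to
`0` if `T` is not injective.  For injective `T` it is
`inf_{ε > 0} exp (tr (log (T* T + ε)) / 2) = lim_{ε → 0+} det (T* T + ε) ^ (1/2)`; by monotone
convergence this is `exp (∫ log λ dF(λ))`, where `F` is the spectral density function of `T` (and
`0` if the integral is `-∞`).  Here `log` is the continuous functional calculus of the C*-algebra
of bounded operators on `ℓ²(G)^m`. -/
noncomputable def fkDet {m n : Type*} [Fintype m] [Fintype n] (T : L2n G m →L[ℂ] L2n G n) : ℝ :=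
  if Function.Injective T then
    ⨅ ε : Set.Ioi (0 : ℝ), Real.exp ((vnTrace (CFC.log
      (ContinuousLinearMap.adjoint T ∘L T + (ε : ℝ) • 1 : L2n G m →L[ℂ] L2n G m))).re / 2)
  else 0

end Group

end Pool.Agent.Lib.MP_2e739e_gt
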