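import Pool.Agent.Lib.MP_2e739e_gt.Trace

/-!
# The Klein inequality and the derivative of the trace of the logarithm
-/

set_option autoImplicit false

open scoped ComplexConjugate Topology
open Filter Finset

namespace Pool.Agent.Lib.MP_2e739e_gt

variable {A : Type*} [CStarAlgebra A] [PartialOrder A] [StarOrderedRing A] (τ : PosTrace A)

theorem isStrictlyPositive_one_sub {z : A} (hz : IsSelfAdjoint z) (h : ‖z‖ < 1) :
    IsStrictlyPositive (1 - z) := by
  refine IsUnit.isStrictlyPositive (isUnit_one_sub_of_norm_lt_one h) ?_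
  have h1 := hz.le_algebraMap_norm_self
  have h2 : algebraMap ℝ A ‖z‖ ≤ 1 := by
    rw [← map_one (algebraMap ℝ A)]
    exact algebraMap_mono A h.le
  exact sub_nonneg.mpr (h1.trans h2)

theorem norm_one_sub_lt {X : A} (hX : IsStrictlyPositive X) {c : ℝ} (hc : ‖X‖ ≤ c) (hc0 : 0 < c) :
    ‖1 - c⁻¹ • X‖ < 1 := by
  have hsa := hX.isSelfAdjoint
  have h1 : (1 - c⁻¹ • X : A) = cfc (fun t : ℝ => 1 - c⁻¹ * t) X := by
    rw [cfc_sub (fun _ : ℝ => (1 : ℝ)) (fun t => c⁻¹ * t) X, cfc_const_one ℝ X,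
      cfc_const_mul_id c⁻¹ X]
  rw [h1]
  refine norm_cfc_lt one_pos fun t ht => ?_
  have ht0 : 0 < t := hX.spectrum_pos ht
  have ht1 : t ≤ c := (le_abs_self t).trans ((spectrum_abs_le hsa ht).trans hc)
  rw [Real.norm_eq_abs, abs_lt]
  have h2 : 0 < c⁻¹ * t := by positivity
  have h3 : c⁻¹ * t ≤ 1 := by
    rw [inv_mul_le_iff₀ hc0]; linarith
  constructor <;> linarith

theorem tlog_smul {X : A} (hX : IsStrictlyPositive X) {c : ℝ} (hc : 0 < c) :
    tlog τ (c • X) = Real.log c * τ.rfn 1 + tlog τ X := by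
  unfold tlog
  rw [CFC.log_smul' X hc hX, map_add, Algebra.algebraMap_eq_smul_one, map_smul, smul_eq_mul]

theorem isStrictlyPositive_smul {X : A} (hX : IsStrictlyPositive X) {c : ℝ} (hc : 0 < c) :
    IsStrictlyPositive (c • X) := hX.smul hc

omit [PartialOrder A] [StarOrderedRing A] in
theorem inverse_smul_of_isUnit {X : A} (hX : IsUnit X) {c : ℝ} (hc : c ≠ 0) :
    Ring.inverse (c • X) = c⁻¹ • Ring.inverse X := by
  obtain ⟨u, rfl⟩ := hX
  have h1 : ((Units.mk0 c hc) • u : Aˣ) = c • (u : A) := rfl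
  have h2 : (c • (u : A)) = (((Units.mk0 c hc) • u : Aˣ) : A) := rfl
  rw [h2, Ring.inverse_unit, Ring.inverse_unit]
  rfl

theorem hasDerivAt_tlog_affine {X D : A} (hX : IsSelfAdjoint X) (hD : IsSelfAdjoint D) {s : ℝ}
    (hs : IsStrictlyPositive (X + s • D)) :
    HasDerivAt (fun s : ℝ => tlog τ (X + s • D)) (τ.rfn (Ring.inverse (X + s • D) * D)) s := by
  set c : ℝ := ‖X + s • D‖ + 1 with hc
  have hc0 : 0 < c := by positivity
  set x : A := 1 - c⁻¹ • X with hx
  set d : A := -(c⁻¹ • D) with hd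
  have hxd : ∀ s : ℝ, 1 - (x + s • d) = c⁻¹ • (X + s • D) := by
    intro s
    rw [hx, hd, smul_neg, smul_add, smul_comm s c⁻¹ D]
    abel
  have hxd' : ∀ s : ℝ, x + s • d = 1 - c⁻¹ • (X + s • D) := by
    intro s
    rw [← hxd]; abel
  have hxsa : IsSelfAdjoint x := (IsSelfAdjoint.one A).sub (IsSelfAdjoint.smul (.all _) hX)
  have hdsa : IsSelfAdjoint d := (IsSelfAdjoint.smul (.all _) hD).neg
  have hlt : ‖x + s • d‖ < 1 := by
    rw [hxd']
    exact norm_one_sub_lt hs (by linarith) hc0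
  have h1 := hasDerivAt_tlog_one_sub τ hxsa hdsa hlt
  have h2 : (fun s : ℝ => tlog τ (X + s • D)) =ᶠ[𝓝 s]
      fun s => Real.log c * τ.rfn 1 + tlog τ (1 - (x + s • d)) := by
    have hcont : Continuous fun s : ℝ => ‖x + s • d‖ := by fun_prop
    filter_upwards [(isOpen_lt hcont continuous_const).mem_nhds hlt] with t ht
    have hsp : IsStrictlyPositive (1 - (x + t • d)) :=
      isStrictlyPositive_one_sub (hxsa.add (IsSelfAdjoint.smul (.all _) hdsa)) ht
    rw [← tlog_smul τ hsp hc0, hxd, smul_smul, mul_inv_cancel₀ hc0.ne', one_smul]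
  refine ((h1.const_add _).congr_of_eventuallyEq h2).congr_deriv ?_
  rw [hxd, inverse_smul_of_isUnit hs.isUnit (inv_ne_zero hc0.ne'), hd, ← map_neg]
  congr 1
  rw [mul_neg, neg_neg, smul_mul_smul_comm, inv_inv, mul_inv_cancel₀ hc0.ne', one_smul]

theorem PosTrace.rfn_conj_nonneg {a b d : A} (ha : 0 ≤ a) (hb : 0 ≤ b) :
    0 ≤ τ.rfn (a * star d * b * d) := by
  obtain ⟨u, rfl⟩ := CStarAlgebra.nonneg_iff_eq_star_mul_self.mp ha
  obtain ⟨v, rfl⟩ := CStarAlgebra.nonneg_iff_eq_star_mul_self.mp hb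
  have : τ.rfn (star u * u * star d * (star v * v) * d) =
      τ.rfn (star (v * d * star u) * (v * d * star u)) := by
    rw [show star u * u * star d * (star v * v) * d =
      star u * (u * star d * (star v * v) * d) by simp only [mul_assoc], τ.rfn_comm]
    congr 1
    simp only [star_mul, star_star, mul_assoc]
  rw [this]
  exact τ.rfn_star_mul_self_nonneg _

theorem PosTrace.rfn_nonneg {a : A} (ha : 0 ≤ a) : 0 ≤ τ.rfn a := by
  obtain ⟨u, rfl⟩ := CStarAlgebra.nonneg_iff_eq_star_mul_self.mp ha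
  exact τ.rfn_star_mul_self_nonneg _

theorem PosTrace.rfn_mono {a b : A} (h : a ≤ b) : τ.rfn a ≤ τ.rfn b := by
  have := τ.rfn_nonneg (sub_nonneg.mpr h)
  rw [map_sub] at this
  linarith

/-- The trace of the logarithm is monotone. -/
theorem tlog_mono {a b : A} (ha : IsStrictlyPositive a) (hab : a ≤ b) : tlog τ a ≤ tlog τ b :=
  τ.rfn_mono (CFC.log_le_log hab ha)

omit [PartialOrder A] [StarOrderedRing A] in
theorem inverse_sub_inverse {X Y : A} (hX : IsUnit X) (hY : IsUnit Y) :
    Ring.inverse Y - Ring.inverse X = Ring.inverse Y * (X - Y) * Ring.inverse X := by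
  rw [mul_sub, sub_mul, mul_assoc, Ring.mul_inverse_cancel _ hX, Ring.inverse_mul_cancel _ hY,
    mul_one, one_mul]

/-- Strict positivity on segments. -/
theorem isStrictlyPositive_segment {X Y : A} (hX : IsStrictlyPositive X)
    (hY : IsStrictlyPositive Y) {s : ℝ} (h0 : 0 ≤ s) (h1 : s ≤ 1) :
    IsStrictlyPositive (X + s • (Y - X)) := by
  have : X + s • (Y - X) = (1 - s) • X + s • Y := by
    rw [smul_sub, sub_smul, one_smul]; abel
  rw [this]
  rcases h0.eq_or_lt with h | h
  · subst h; simpa using hX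
  · rw [add_comm]
    exact (isStrictlyPositive_smul hY h).add_nonneg (smul_nonneg (by linarith) hX.nonneg)

/-- **Klein inequality** for the logarithm. -/
theorem klein {X Y : A} (hX : IsStrictlyPositive X) (hY : IsStrictlyPositive Y) :
    tlog τ Y - tlog τ X ≤ τ.rfn (Ring.inverse X * (Y - X)) := by
  set D := Y - X with hD
  have hDsa : IsSelfAdjoint D := hY.isSelfAdjoint.sub hX.isSelfAdjoint
  have hder : ∀ s ∈ Set.Icc (0 : ℝ) 1, HasDerivAt (fun s : ℝ => tlog τ (X + s • D))
      (τ.rfn (Ring.inverse (X + s • D) * D)) s := fun s hs =>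
    hasDerivAt_tlog_affine τ hX.isSelfAdjoint hDsa (isStrictlyPositive_segment hX hY hs.1 hs.2)
  obtain ⟨s, hs, hs'⟩ := exists_hasDerivAt_eq_slope (fun s : ℝ => tlog τ (X + s • D))
    (fun s => τ.rfn (Ring.inverse (X + s • D) * D)) one_pos
    (fun s hs => (hder s hs).continuousAt.continuousWithinAt)
    (fun s hs => hder s (Set.Ioo_subset_Icc_self hs))
  simp only [one_smul, zero_smul, add_zero, sub_zero, div_one] at hs'
  have hXY : X + D = Y := by rw [hD]; abel
  rw [hXY] at hs'
  rw [← hs']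
  have hpos := isStrictlyPositive_segment hX hY hs.1.le hs.2.le
  rw [← hD] at hpos
  have h1 : Ring.inverse (X + s • D) - Ring.inverse X =
      -(s • (Ring.inverse (X + s • D) * D * Ring.inverse X)) := by
    rw [inverse_sub_inverse hX.isUnit hpos.isUnit]
    rw [show X - (X + s • D) = -(s • D) by abel]
    simp [mul_assoc]
  have h2 : τ.rfn (Ring.inverse (X + s • D) * D) - τ.rfn (Ring.inverse X * D) =
      -(s * τ.rfn (Ring.inverse (X + s • D) * star D * Ring.inverse X * D)) := by
    rw [← map_sub, ← sub_mul, h1, neg_mul, map_neg, smul_mul_assoc, map_smul, smul_eq_mul,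
      hDsa.star_eq]
  have h3 := τ.rfn_conj_nonneg (d := D) hpos.ringInverse.nonneg hX.ringInverse.nonneg
  have := mul_nonneg hs.1.le h3
  linarith

/-- The derivative of the trace of the logarithm along a path. -/
theorem hasDerivAt_tlog {X : ℝ → A} {X' : A} {s : ℝ} (hX : HasDerivAt X X' s)
    (hpos : ∀ᶠ t in 𝓝 s, IsStrictlyPositive (X t)) :
    HasDerivAt (fun t => tlog τ (X t)) (τ.rfn (Ring.inverse (X s) * X')) s := by
  have hs : IsStrictlyPositive (X s) := hpos.self_of_nhds
  rw [hasDerivAt_iff_isLittleO]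
  have e1 : (fun t => tlog τ (X t) - tlog τ (X s) - τ.rfn (Ring.inverse (X s) * (X t - X s)))
      =o[𝓝 s] fun t => t - s := by
    have hbound : ∀ᶠ t in 𝓝 s,
        ‖tlog τ (X t) - tlog τ (X s) - τ.rfn (Ring.inverse (X s) * (X t - X s))‖ ≤
        ‖τ.rfn‖ * ‖(Ring.inverse (X t) - Ring.inverse (X s)) * (X t - X s)‖ := by
      filter_upwards [hpos] with t ht
      have h1 := klein τ hs ht
      have h2 := klein τ ht hs
      have h3 := τ.abs_rfn_le ((Ring.inverse (X t) - Ring.inverse (X s)) * (X t - X s))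
      refine le_trans ?_ h3
      rw [sub_mul, map_sub, Real.norm_eq_abs]
      have h4 : τ.rfn (Ring.inverse (X t) * (X s - X t)) =
          -τ.rfn (Ring.inverse (X t) * (X t - X s)) := by
        rw [← map_neg, ← mul_neg, neg_sub]
      rw [h4] at h2
      rw [abs_of_nonpos (by linarith), abs_of_nonpos (by linarith)]
      linarith
    refine Asymptotics.IsBigO.trans_isLittleO (Asymptotics.IsBigO.of_bound ‖τ.rfn‖ hbound) ?_
    have hc : Tendsto (fun t => Ring.inverse (X t) - Ring.inverse (X s)) (𝓝 s) (𝓝 0) := by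
      obtain ⟨u, hu⟩ := hs.isUnit
      have h1 : ContinuousAt (Ring.inverse : A → A) (X s) := by
        rw [← hu]; exact NormedRing.inverse_continuousAt u
      have h2 : ContinuousAt (fun t => Ring.inverse (X t)) s :=
        ContinuousAt.comp (f := X) h1 hX.continuousAt
      have := h2.tendsto.sub_const (Ring.inverse (X s))
      simpa using this
    have hlo : (fun t => Ring.inverse (X t) - Ring.inverse (X s)) =o[𝓝 s] fun _ => (1 : ℝ) :=
      (Asymptotics.isLittleO_one_iff ℝ).mpr hc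
    have := hlo.mul_isBigO hX.isBigO_sub
    simpa using this
  have e2 : (fun t => τ.rfn (Ring.inverse (X s) * (X t - X s - (t - s) • X'))) =o[𝓝 s]
      fun t => t - s := by
    have h1 := hX.isLittleO
    have h2 : (fun t => τ.rfn (Ring.inverse (X s) * (X t - X s - (t - s) • X'))) =O[𝓝 s]
        fun t => X t - X s - (t - s) • X' := by
      refine Asymptotics.IsBigO.of_bound (‖τ.rfn‖ * ‖Ring.inverse (X s)‖) (Eventually.of_forall
        fun t => ?_)
      rw [Real.norm_eq_abs]
      refine (τ.abs_rfn_le _).trans ?_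
      rw [mul_assoc]
      gcongr
      exact norm_mul_le _ _
    exact h2.trans_isLittleO (by simpa using h1)
  have e3 := e1.add e2
  refine e3.congr_left fun t => ?_
  simp only [mul_sub, map_sub, mul_smul_comm, map_smul, smul_eq_mul]
  ring

end Pool.Agent.Lib.MP_2e739e_gt
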