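import Pool.Agent.Lib.MP_2e739e_gt.Hilbert

/-!
# Knot diagrams, Wirtinger presentations and the full `L²`-Alexander torsion

Diagrams of oriented knots are encoded by signed Gauss diagrams of genus zero.
-/

set_option autoImplicit false

open Filter Topology

namespace Pool.Agent.Lib.MP_2e739e_gt

/-! ## Diagrams of oriented knots -/

/-- A signed Gauss diagram (with at least one crossing).

* `X` is the finite set of crossings, `pos x = true` iff the crossing `x` is positive.
* At each crossing `x` there are two passages: `(x, true)` is the passage along the over-strand and
  `(x, false)` the passage along the under-strand.  The oriented edge of the diagram which leaves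
  the crossing `x` along the passage `(x, b)` is also denoted by `(x, b)`.
* `next e` is the passage at which the oriented edge `e` arrives; so travelling along the knot,
  after the passage (or edge) `e` comes the passage (or edge) `next e`. -/
structure GaussDiagram where
  X : Type
  [fintypeX : Fintype X]
  [decEqX : DecidableEq X]
  [nonemptyX : Nonempty X]
  pos : X → Bool
  next : Equiv.Perm (X × Bool)

attribute [instance] GaussDiagram.fintypeX GaussDiagram.decEqX GaussDiagram.nonemptyX

namespace GaussDiagram

variable (D : GaussDiagram)

/-- The oriented edges of the diagram: `(x, b)` is the edge which leaves the crossing `x` along its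
over-strand (`b = true`) or under-strand (`b = false`). -/
abbrev Edge : Type := D.X × Bool

/-- The edge which arrives at the passage `p = (x, b)`. -/
def arriving (p : D.X × Bool) : D.Edge := D.next.symm p

/-- The edge sides: `(e, true)` is the left side and `(e, false)` is the right side of the oriented
edge `e`. -/
abbrev Side : Type := D.Edge × Bool

/-- The four corners at a crossing `x`.  Let `b` be the over-strand if `x` is positive and the
under-strand if `x` is negative, and let `c` be the other strand at `x`.  Then `c` crosses `b` from
the right to the left.  Each of the four corners at `x` is a corner between one of the two edges of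
`b` and one of the two edges of `c`, and `Corner` relates the two edge sides which meet there. -/
inductive Corner : D.Side → D.Side → Prop
  | outOut (x : D.X) : Corner ((x, D.pos x), true) ((x, !D.pos x), false)
  | inOut (x : D.X) : Corner (D.arriving (x, D.pos x), true) ((x, !D.pos x), true)
  | inIn (x : D.X) : Corner (D.arriving (x, D.pos x), false) (D.arriving (x, !D.pos x), true)
  | outIn (x : D.X) : Corner ((x, D.pos x), false) (D.arriving (x, !D.pos x), false)

/-- The faces of the closed oriented surface obtained from the diagram by gluing a disk to every
boundary walk: classes of edge sides under the equivalence relation generated by `Corner`. -/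
abbrev Face : Type := Quot D.Corner

/-- The diagram has one component, i.e. it is the diagram of a knot. -/
def OneComponent : Prop := ∀ e f : D.Edge, ∃ k : ℕ, (D.next^[k]) e = f

/-- The diagram (of a knot) is planar, i.e. lives on the sphere, iff Euler's formula
`V - E + F = 2` holds, where `V` is the number of crossings, `E = 2 V` is the number of edges and
`F` is the number of faces. -/
def Planar : Prop := (Nat.card D.X : ℤ) - Nat.card D.Edge + Nat.card D.Face = 2

end GaussDiagram

/-- A planar diagram, with at least one crossing, of an oriented knot in the three-sphere. -/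
structure KnotDiagram extends GaussDiagram where
  oneComponent : toGaussDiagram.OneComponent
  planar : toGaussDiagram.Planar

/-! ## Fox calculus -/

section Fox

variable {α G : Type*} [DecidableEq α] [Group G]

/-- The matrix `(g, d; 0, 1)` over the integral group ring. -/
noncomputable def foxUnit (g : G) (d : MonoidAlgebra ℤ G) :
    (Matrix (Fin 2) (Fin 2) (MonoidAlgebra ℤ G))ˣ where
  val := !![MonoidAlgebra.single g 1, d; 0, 1]
  inv := !![MonoidAlgebra.single g⁻¹ 1, -(MonoidAlgebra.single g⁻¹ 1 * d); 0, 1]
  val_inv := by
    have h : (MonoidAlgebra.single g 1 : MonoidAlgebra ℤ G) * MonoidAlgebra.single g⁻¹ 1 = 1 := by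
      rw [MonoidAlgebra.single_mul_single, mul_inv_cancel, one_mul]; rfl
    ext i j
    fin_cases i <;> fin_cases j <;> simp [Matrix.mul_apply, Fin.sum_univ_two, ← mul_assoc, h]
  inv_val := by
    have h : (MonoidAlgebra.single g⁻¹ 1 : MonoidAlgebra ℤ G) * MonoidAlgebra.single g 1 = 1 := by
      rw [MonoidAlgebra.single_mul_single, inv_mul_cancel, one_mul]; rfl
    ext i j
    fin_cases i <;> fin_cases j <;> simp [Matrix.mul_apply, Fin.sum_univ_two, h]

/-- The Fox derivative `∂ w / ∂ x_j` of a word `w` in the generators `x_i`, `i : α`, pushed forward
to the integral group ring of `G` along the homomorphism `x_i ↦ ρ i`.  It is the upper right entry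
of the image of `w` under the homomorphism `x_i ↦ (ρ i, δ_ij; 0, 1)`; see `foxDeriv_of` and
`foxDeriv_mul` for its characterising properties. -/
noncomputable def foxDeriv (ρ : α → G) (j : α) (w : FreeGroup α) : MonoidAlgebra ℤ G :=
  (FreeGroup.lift (fun i => foxUnit (ρ i) (if i = j then 1 else 0)) w :
    Matrix (Fin 2) (Fin 2) (MonoidAlgebra ℤ G)) 0 1

end Fox

/-! ## The Wirtinger presentation -/

namespace KnotDiagram

variable (D : KnotDiagram)

/-- The two edges which meet at an over-passage belong to the same arc. -/
inductive ArcRel : D.Edge → D.Edge → Prop
  | over (x : D.X) : ArcRel (D.arriving (x, true)) (x, true)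

/-- The arcs of the diagram: they run from an under-passage to the next under-passage. -/
abbrev Arc : Type := Quot D.ArcRel

/-- The arc which contains the edge `e`. -/
def arc (e : D.Edge) : D.Arc := Quot.mk _ e

instance : Finite D.Arc := Quot.finite _

noncomputable instance : Fintype D.Arc := Fintype.ofFinite _

open Classical in
noncomputable instance : DecidableEq D.Arc := inferInstance

/-- The Wirtinger relator of the crossing `x`.  Let `o` be the over-arc, `i` the arc which arrives
at the under-passage and `j` the arc which leaves it.  The relator is `o i o⁻¹ j⁻¹` if the crossing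
is positive and `o⁻¹ i o j⁻¹` if it is negative. -/
def relator (x : D.X) : FreeGroup D.Arc :=
  if D.pos x then
    FreeGroup.of (D.arc (x, true)) * FreeGroup.of (D.arc (D.arriving (x, false))) *
      (FreeGroup.of (D.arc (x, true)))⁻¹ * (FreeGroup.of (D.arc (x, false)))⁻¹
  else
    (FreeGroup.of (D.arc (x, true)))⁻¹ * FreeGroup.of (D.arc (D.arriving (x, false))) *
      FreeGroup.of (D.arc (x, true)) * (FreeGroup.of (D.arc (x, false)))⁻¹

/-- The knot group `π`, given by the Wirtinger presentation. -/
abbrev KnotGroup : Type := PresentedGroup (Set.range D.relator)

/-- The meridian of the arc `a`. -/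
def meridian (a : D.Arc) : D.KnotGroup := PresentedGroup.of a

theorem relator_phi (x : D.X) :
    FreeGroup.lift (fun _ : D.Arc => Multiplicative.ofAdd (1 : ℤ)) (D.relator x) = 1 := by
  unfold relator
  split_ifs <;> simp

/-- The abelianization map `φ : π → ℤ` which sends the oriented meridians to `1`. -/
def phi : D.KnotGroup →* Multiplicative ℤ :=
  PresentedGroup.toGroup (f := fun _ : D.Arc => Multiplicative.ofAdd (1 : ℤ)) (by
    rintro _ ⟨x, rfl⟩
    exact D.relator_phi x)

/-- The knot is fibered, in the algebraic form given by Stallings' theorem: the commutator
subgroup of the knot group is finitely generated. -/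
def IsFibered : Prop := (commutator D.KnotGroup).FG

/-! ## The full `L²`-Alexander torsion -/

/-- The matrix obtained from the Fox Jacobian of the Wirtinger presentation by deleting the row of
the crossing `r` (any one of the Wirtinger relators is redundant) and the column of the arc `a`. -/
noncomputable def foxMatrix (r : D.X) (a : D.Arc) :
    Matrix {x : D.X // x ≠ r} {b : D.Arc // b ≠ a} (MonoidAlgebra ℤ D.KnotGroup) :=
  fun x b => foxDeriv D.meridian b.1 (D.relator x.1)

/-- The map `κ_t : ℤ[π] → ℝ[π]`, `g ↦ t ^ φ(g) g`. -/
noncomputable def kappa (t : ℝ) (u : MonoidAlgebra ℤ D.KnotGroup) : MonoidAlgebra ℝ D.KnotGroup :=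
  u.coeff.sum fun g c => MonoidAlgebra.single g ((c : ℝ) * t ^ (D.phi g).toAdd)

noncomputable instance (a : D.Arc) : Fintype {b : D.Arc // b ≠ a} := Fintype.ofFinite _

/-- The full `L²`-Alexander torsion of the knot, as a function of `t > 0`, computed from its
Wirtinger presentation by deleting the relator of the crossing `r` and the column of the arc
`a`. -/
noncomputable def torsion (r : D.X) (a : D.Arc) (t : ℝ) : ℝ :=
  fkDet (mulRightMatrix ((D.foxMatrix r a).map (D.kappa t))) * (max 1 t)⁻¹

end KnotDiagram

/-! ## Monic functions -/

/-- The function `f : (0, ∞) → [0, ∞)` is monomial in the limit, with exponents `d` at `0` and `e`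
at `∞`, bottom coefficient `b` and top coefficient `c`. -/
structure MonomialInLimit (f : ℝ → ℝ) (d e b c : ℝ) : Prop where
  bottom_pos : 0 < b
  top_pos : 0 < c
  bottom : Tendsto (fun t => f t / (b * t ^ d)) (𝓝[>] 0) (𝓝 1)
  top : Tendsto (fun t => f t / (c * t ^ e)) atTop (𝓝 1)

/-- The function `f` is monic: it is monomial in the limit with top coefficient `1`. -/
def IsMonic (f : ℝ → ℝ) : Prop := ∃ d e b : ℝ, MonomialInLimit f d e b 1

end Pool.Agent.Lib.MP_2e739e_gt
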