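import Pool.Agent.Lib.MP_2e739e_gt.Family2

/-!
# Limits of determinants of graded polynomial families
-/

set_option autoImplicit false
set_option linter.unusedSectionVars false

open scoped ENNReal ComplexConjugate InnerProductSpace
open Filter Topology

namespace Pool.Agent.Lib.MP_2e739e_gt

variable {G : Type*} [Group G] {n : Type*} [Fintype n] [DecidableEq n]

/-- The element `a` of the group ring is homogeneous of degree `d`. -/
def IsHomog (φ : G →* Multiplicative ℤ) (d : ℤ) (a : MonoidAlgebra ℝ G) : Prop :=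
  ∀ g ∈ a.coeff.support, φ g = Multiplicative.ofAdd d

theorem IsHomog.single {φ : G →* Multiplicative ℤ} {d : ℤ} {g : G} (r : ℝ)
    (h : φ g = Multiplicative.ofAdd d) : IsHomog φ d (MonoidAlgebra.single g r) := by
  intro k hk
  have := Finsupp.support_single_subset hk
  rw [Finset.mem_singleton] at this
  rw [this, h]

theorem IsHomog.add {φ : G →* Multiplicative ℤ} {d : ℤ} {a b : MonoidAlgebra ℝ G}
    (ha : IsHomog φ d a) (hb : IsHomog φ d b) : IsHomog φ d (a + b) := by
  classical
  intro k hk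
  have := Finsupp.support_add hk
  rw [Finset.mem_union] at this
  rcases this with h | h
  · exact ha k h
  · exact hb k h

theorem IsHomog.neg {φ : G →* Multiplicative ℤ} {d : ℤ} {a : MonoidAlgebra ℝ G}
    (ha : IsHomog φ d a) : IsHomog φ d (-a) := by
  intro k hk
  apply ha k
  rw [Finsupp.mem_support_iff] at hk ⊢
  intro h
  apply hk
  change -(a.coeff k) = 0
  rw [h, neg_zero]

theorem IsHomog.zero {φ : G →* Multiplicative ℤ} {d : ℤ} :
    IsHomog φ d (0 : MonoidAlgebra ℝ G) := by
  intro k hk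
  simp at hk

/-- The unitary character `g ↦ exp (i θ φ(g))`. -/
noncomputable def gradingChar (φ : G →* Multiplicative ℤ) (θ : ℝ) : UChar G where
  χ :=
    { toFun := fun g => Complex.exp ((φ g).toAdd * (θ * Complex.I))
      map_one' := by simp
      map_mul' := fun g h => by
        rw [map_mul, toAdd_mul, Int.cast_add, add_mul, Complex.exp_add] }
  norm_eq g := by
    change ‖Complex.exp ((φ g).toAdd * (θ * Complex.I))‖ = 1
    rw [Complex.norm_exp]
    simp

theorem gradingChar_apply (φ : G →* Multiplicative ℤ) (θ : ℝ) (g : G) :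
    (gradingChar φ θ).χ g = Complex.exp ((φ g).toAdd * (θ * Complex.I)) := rfl

theorem PhaseEq.of_support {c : UChar G} {γ : ℂ} {a : MonoidAlgebra ℝ G}
    (h : ∀ g ∈ a.coeff.support, c.χ g = γ) : PhaseEq c γ a := by
  have ha : a = ∑ g ∈ a.coeff.support, MonoidAlgebra.single g (a.coeff g) := by
    apply MonoidAlgebra.ext
    rw [MonoidAlgebra.coeff_sum]
    exact (Finsupp.sum_single a.coeff).symm
  have key : ∀ s : Finset G, (∀ g ∈ s, c.χ g = γ) →
      PhaseEq c γ (∑ g ∈ s, MonoidAlgebra.single g (a.coeff g)) := by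
    classical
    intro s
    induction s using Finset.induction_on with
    | empty => intro _; rw [Finset.sum_empty]; exact PhaseEq.zero
    | insert g s hg ih =>
      intro hs
      rw [Finset.sum_insert hg]
      exact (PhaseEq.single g _ (hs g (Finset.mem_insert_self g s))).add
        (ih fun k hk => hs k (Finset.mem_insert_of_mem hk))
  rw [ha]
  exact key _ h

theorem IsHomog.phaseEq {φ : G →* Multiplicative ℤ} {d : ℤ} {a : MonoidAlgebra ℝ G}
    (ha : IsHomog φ d a) (θ : ℝ) :
    PhaseEq (gradingChar φ θ) (Complex.exp (d * (θ * Complex.I))) a :=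
  PhaseEq.of_support fun g hg => by
    rw [gradingChar_apply, ha g hg]; rfl

theorem gaugeHom_EM {c : UChar G} {γ : ℂ} {a : MonoidAlgebra ℝ G} (i₀ : n) (h : PhaseEq c γ a) :
    gaugeHom n c (mm (EM i₀ a)) = γ • mm (EM i₀ a) := by
  apply gaugeHom_mm
  intro i j
  by_cases hij : i₀ = i ∧ i₀ = j
  · obtain ⟨rfl, rfl⟩ := hij
    have : EM i₀ a i₀ i₀ = a := by simp [EM]
    rwa [this]
  · have : EM i₀ a i j = 0 := Matrix.single_apply_of_ne i₀ i₀ a i j hij
    rw [this]; exact PhaseEq.zero

theorem gaugeHom_PM (c : UChar G) (i₀ : n) : gaugeHom n c (PM G i₀) = PM G i₀ := by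
  have h : PhaseEq c 1 (1 : MonoidAlgebra ℝ G) := PhaseEq.single 1 1 (map_one _)
  have := gaugeHom_EM i₀ h
  rwa [one_smul] at this

/-- The basic continuity statement, in exponential form. -/
theorem vdet_family (i₀ : n) (c : ℕ → MonoidAlgebra ℝ G) (N : ℕ)
    (h : ∀ θ : ℝ, ∃ (ch : UChar G) (γ : ℂ), ‖γ‖ = 1 ∧
      ∀ k ∈ Finset.range (N + 1), PhaseEq ch (γ * Complex.exp (k * (θ * Complex.I))) (c k)) :
    (∀ s : ℝ, vdet (mm (DM i₀ (c 0)) : vN G n) ≤
      vdet (mm (DM i₀ (∑ k ∈ Finset.range (N + 1), Real.exp (k * s) • c k)) : vN G n)) ∧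
    Tendsto (fun s : ℝ =>
      vdet (mm (DM i₀ (∑ k ∈ Finset.range (N + 1), Real.exp (k * s) • c k)) : vN G n))
      atBot (𝓝 (vdet (mm (DM i₀ (c 0)) : vN G n))) := by
  have key := tendsto_rdet_family (vnPosTrace G n) (PM_mul_self i₀) (star_PM i₀)
    (fun k => mm (EM i₀ (c k))) (fun k => PM_mul_EM i₀ (c k)) N (fun θ => by
      obtain ⟨ch, γ, hγ, hk⟩ := h θ
      exact ⟨gaugeHom n ch, γ, hγ, trace_gaugeHom ch, gaugeHom_PM ch i₀,
        fun k hk' => gaugeHom_EM i₀ (hk k hk')⟩)
  have hT : ∀ s : ℝ, 1 - PM G i₀ +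
      ∑ k ∈ Finset.range (N + 1), Complex.exp (k * (s : ℂ)) • mm (EM i₀ (c k)) =
      mm (DM i₀ (∑ k ∈ Finset.range (N + 1), Real.exp (k * s) • c k)) := by
    intro s
    rw [mm_DM, EM_sum, mm_sum]
    congr 1
    refine Finset.sum_congr rfl fun k _ => ?_
    rw [EM_smul, mm_smul]
    have : Complex.exp (k * (s : ℂ)) = ((Real.exp (k * s) : ℝ) : ℂ) := by push_cast; rfl
    rw [this]
    exact Complex.coe_smul _ _
  simp only [hT, ← mm_DM] at key
  exact key

/-- The behaviour of the determinant of a graded polynomial family near `0` and `∞`. -/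
theorem vdet_limits (φ : G →* Multiplicative ℤ) (i₀ : n) (c : ℕ → MonoidAlgebra ℝ G) (N : ℕ)
    (m : ℤ) (hc : ∀ k ≤ N, IsHomog φ (m + k) (c k)) :
    (∀ t : ℝ, 0 < t → vdet (mm (DM i₀ (c 0)) : vN G n) ≤
      vdet (mm (DM i₀ (∑ k ∈ Finset.range (N + 1), t ^ k • c k)) : vN G n)) ∧
    Tendsto (fun t : ℝ => vdet (mm (DM i₀ (∑ k ∈ Finset.range (N + 1), t ^ k • c k)) : vN G n))
      (𝓝[>] 0) (𝓝 (vdet (mm (DM i₀ (c 0)) : vN G n))) ∧
    Tendsto (fun t : ℝ =>
      vdet (mm (DM i₀ (∑ k ∈ Finset.range (N + 1), t ^ k • c k)) : vN G n) / t ^ N)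
      atTop (𝓝 (vdet (mm (DM i₀ (c N)) : vN G n))) := by
  have hexp : ∀ t : ℝ, 0 < t → ∀ k : ℕ, Real.exp (k * Real.log t) = t ^ k := by
    intro t ht k
    rw [mul_comm, ← Real.rpow_def_of_pos ht, Real.rpow_natCast]
  have A := vdet_family (n := n) i₀ c N (fun θ => ⟨gradingChar φ θ,
    Complex.exp (m * (θ * Complex.I)), by rw [Complex.norm_exp]; simp, fun k hk => by
      have := (hc k (Finset.mem_range_succ_iff.mp hk)).phaseEq θ
      rw [Int.cast_add, add_mul, Complex.exp_add] at this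
      exact_mod_cast this⟩)
  have B := vdet_family (n := n) i₀ (fun k => c (N - k)) N (fun θ => ⟨gradingChar φ (-θ),
    Complex.exp (((m + N : ℤ) : ℂ) * (((-θ : ℝ) : ℂ) * Complex.I)), by
      rw [Complex.norm_exp]; simp, fun k hk => by
      have hk' := Finset.mem_range_succ_iff.mp hk
      have := (hc (N - k) (Nat.sub_le N k)).phaseEq (-θ)
      have h2 : Complex.exp (((m + ((N - k : ℕ) : ℤ) : ℤ) : ℂ) * (((-θ : ℝ) : ℂ) * Complex.I)) =
          Complex.exp (((m + N : ℤ) : ℂ) * (((-θ : ℝ) : ℂ) * Complex.I)) *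
            Complex.exp (k * (θ * Complex.I)) := by
        rw [← Complex.exp_add]
        congr 1
        push_cast [Nat.cast_sub hk']
        ring
      rw [h2] at this
      exact this⟩)
  refine ⟨fun t ht => ?_, ?_, ?_⟩
  · have := A.1 (Real.log t)
    simpa only [hexp t ht] using this
  · have h1 := A.2.comp Real.tendsto_log_nhdsGT_zero
    refine h1.congr' ?_
    filter_upwards [self_mem_nhdsWithin] with t ht
    simp only [Function.comp_apply, hexp t ht]
  · have h1 := B.2.comp (tendsto_neg_atTop_atBot.comp Real.tendsto_log_atTop)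
    simp only [Nat.sub_zero] at h1
    refine h1.congr' ?_
    filter_upwards [eventually_gt_atTop 0] with t ht
    simp only [Function.comp_apply]
    have h2 : ∀ k : ℕ, Real.exp (k * -Real.log t) = (t ^ k)⁻¹ := by
      intro k
      rw [mul_neg, Real.exp_neg, hexp t ht]
    simp only [h2]
    have h3 : DM i₀ (∑ k ∈ Finset.range (N + 1), t ^ k • c k) =
        DM i₀ (∑ k ∈ Finset.range (N + 1), (t ^ k)⁻¹ • c (N - k)) *
          DM i₀ (MonoidAlgebra.single (1 : G) (t ^ N)) := by
      rw [DM_mul]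
      congr 1
      rw [Finset.sum_mul, ← Finset.sum_range_reflect]
      refine Finset.sum_congr rfl fun k hk => ?_
      have hk' := Finset.mem_range_succ_iff.mp hk
      have h4 : (MonoidAlgebra.single (1 : G) (t ^ N)) = t ^ N • (1 : MonoidAlgebra ℝ G) := by
        rw [MonoidAlgebra.one_def, MonoidAlgebra.smul_single, smul_eq_mul, mul_one]
      rw [h4, smul_mul_smul_comm, mul_one]
      have h5 : N + 1 - 1 - k = N - k := by omega
      rw [h5]
      congr 1
      have h6 : t ^ N = t ^ k * t ^ (N - k) := by rw [← pow_add, Nat.add_sub_cancel' hk']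
      have h7 : t ^ k ≠ 0 := (pow_pos ht k).ne'
      rw [h6, inv_mul_cancel_left₀ h7]
    rw [h3, mm_mul]
    have h8 := vdet_DM_real (G := G) (n := n) i₀ (pow_pos ht N)
    unfold vdet at h8 ⊢
    rw [rdet_mul_left' _ _ h8.1, h8.2, mul_div_cancel_left₀ _ (pow_pos ht N).ne']

end Pool.Agent.Lib.MP_2e739e_gt
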