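import Mathlib

/-!
# Positive tracial functionals and the logarithm
-/

set_option autoImplicit false

open scoped ComplexConjugate Topology
open Filter Finset

namespace Pool.Agent.Lib.MP_2e739e_gt

section Series

variable {A : Type*} [CStarAlgebra A]

theorem spectrum_abs_le {x : A} (hx : IsSelfAdjoint x) {t : ℝ} (ht : t ∈ spectrum ℝ x) :
    |t| ≤ ‖x‖ := by
  have := norm_apply_le_norm_cfc (id : ℝ → ℝ) x ht
  simpa only [cfc_id ℝ x, id, Real.norm_eq_abs] using this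

theorem one_sub_pos {x : A} (hx : IsSelfAdjoint x) (h : ‖x‖ < 1) {t : ℝ}
    (ht : t ∈ spectrum ℝ x) : 0 < 1 - t := by
  have := spectrum_abs_le hx ht
  have := abs_lt.mp (this.trans_lt h)
  linarith [this.2]

theorem continuousOn_log_one_sub {x : A} (hx : IsSelfAdjoint x) (h : ‖x‖ < 1) :
    ContinuousOn (fun t : ℝ => Real.log (1 - t)) (spectrum ℝ x) :=
  ContinuousOn.log (by fun_prop) fun _ ht => (one_sub_pos hx h ht).ne'

theorem log_one_sub_eq {x : A} (hx : IsSelfAdjoint x) (h : ‖x‖ < 1) :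
    CFC.log (1 - x) = cfc (fun t : ℝ => Real.log (1 - t)) x := by
  have h1 : (1 - x : A) = cfc (fun t : ℝ => 1 - t) x := by
    rw [cfc_sub (fun _ : ℝ => (1 : ℝ)) (fun t => t) x, cfc_const_one ℝ x, cfc_id' ℝ x]
  have h2 : ContinuousOn Real.log ((fun t : ℝ => 1 - t) '' spectrum ℝ x) := by
    apply ContinuousOn.log continuousOn_id
    rintro _ ⟨t, ht, rfl⟩
    exact (one_sub_pos hx h ht).ne'
  rw [CFC.log, h1, ← cfc_comp' Real.log (fun t : ℝ => 1 - t) x h2]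

theorem sum_eq_cfc {x : A} (hx : IsSelfAdjoint x) (n : ℕ) :
    ∑ i ∈ range n, (-(((i : ℝ) + 1)⁻¹)) • x ^ (i + 1) =
      cfc (fun t : ℝ => ∑ i ∈ range n, (-(((i : ℝ) + 1)⁻¹)) * t ^ (i + 1)) x := by
  have h := cfc_sum (fun (i : ℕ) (t : ℝ) => (-(((i : ℝ) + 1)⁻¹)) * t ^ (i + 1)) x (range n)
    (fun i _ => by fun_prop)
  have h' : (fun t : ℝ => ∑ i ∈ range n, (-(((i : ℝ) + 1)⁻¹)) * t ^ (i + 1)) =
      ∑ i ∈ range n, (fun (t : ℝ) => (-(((i : ℝ) + 1)⁻¹)) * t ^ (i + 1)) := by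
    ext t; simp
  rw [h', h]
  refine Finset.sum_congr rfl fun i _ => ?_
  rw [cfc_const_mul _ (fun t : ℝ => t ^ (i + 1)) x, cfc_pow_id x (i + 1)]

theorem summable_log_terms {x : A} (h : ‖x‖ < 1) :
    Summable fun i : ℕ => (-(((i : ℝ) + 1)⁻¹)) • x ^ (i + 1) := by
  refine Summable.of_norm_bounded (g := fun i : ℕ => ‖x‖ ^ (i + 1)) ?_ fun i => ?_
  · exact (summable_nat_add_iff 1).mpr (summable_geometric_of_lt_one (norm_nonneg _) h)
  · rw [norm_smul, norm_neg, norm_inv]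
    have h1 : ‖(i : ℝ) + 1‖⁻¹ ≤ 1 := by
      rw [Real.norm_of_nonneg (by positivity)]
      exact inv_le_one_of_one_le₀ (by linarith [Nat.cast_nonneg (α := ℝ) i])
    calc ‖(i : ℝ) + 1‖⁻¹ * ‖x ^ (i + 1)‖ ≤ 1 * ‖x‖ ^ (i + 1) := by
          gcongr
          exact norm_pow_le' _ (Nat.succ_pos _)
      _ = _ := one_mul _

theorem hasSum_log_one_sub {x : A} (hx : IsSelfAdjoint x) (h : ‖x‖ < 1) :
    HasSum (fun i : ℕ => (-(((i : ℝ) + 1)⁻¹)) • x ^ (i + 1)) (CFC.log (1 - x)) := by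
  rw [(summable_log_terms h).hasSum_iff_tendsto_nat]
  rw [tendsto_iff_norm_sub_tendsto_zero]
  have hb : Tendsto (fun n : ℕ => ‖x‖ ^ (n + 1) / (1 - ‖x‖)) atTop (𝓝 0) := by
    have := (tendsto_pow_atTop_nhds_zero_of_lt_one (norm_nonneg x) h).comp (tendsto_add_atTop_nat 1)
    simpa using this.div_const (1 - ‖x‖)
  refine squeeze_zero (fun _ => norm_nonneg _) (fun n => ?_) hb
  rw [sum_eq_cfc hx, log_one_sub_eq hx h,
    ← cfc_sub _ _ x (by fun_prop) (continuousOn_log_one_sub hx h)]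
  have h0 : 0 < 1 - ‖x‖ := by linarith
  refine norm_cfc_le (by positivity) fun t ht => ?_
  have habs := spectrum_abs_le hx ht
  have h1 := Real.abs_log_sub_add_sum_range_le (habs.trans_lt h) n
  have h2 : (∑ i ∈ range n, (-(((i : ℝ) + 1)⁻¹)) * t ^ (i + 1)) - Real.log (1 - t) =
      -((∑ i ∈ range n, t ^ (i + 1) / (i + 1)) + Real.log (1 - t)) := by
    rw [neg_add, ← sub_eq_add_neg, ← Finset.sum_neg_distrib]
    congr 1
    refine Finset.sum_congr rfl fun i _ => ?_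
    rw [div_eq_mul_inv]; ring
  rw [h2, norm_neg, Real.norm_eq_abs]
  refine h1.trans ?_
  gcongr

end Series

/-- A positive tracial functional on a C*-algebra. -/
structure PosTrace (A : Type*) [CStarAlgebra A] where
  /-- the functional -/
  fn : A →L[ℂ] ℂ
  tracial : ∀ x y, fn (x * y) = fn (y * x)
  map_star : ∀ x, fn (star x) = conj (fn x)
  nonneg : ∀ x, 0 ≤ (fn (star x * x)).re

end Pool.Agent.Lib.MP_2e739e_gt
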