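import Pool.Agent.Lib.MP_2e739e_gt.Base

/-!
# Independence of the deleted row and column
-/

set_option autoImplicit false
set_option linter.unusedSectionVars false

open Filter Topology

namespace Pool.Agent.Lib.MP_2e739e_gt

section Gen

variable {G : Type*} [Group G] {n : Type*} [Fintype n] [DecidableEq n]

theorem vdet_DM_neg_one (i₀ : n) : IsUnit (mm (DM i₀ (-1 : MonoidAlgebra ℝ G))) ∧
    vdet (mm (DM i₀ (-1 : MonoidAlgebra ℝ G))) = 1 := by
  apply vdet_unitary
  have h := unitary_phase (PM_mul_self (G := G) i₀) (star_PM i₀) (γ := -1) (by simp)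
  have h2 : mm (DM i₀ (-1 : MonoidAlgebra ℝ G)) = 1 - PM G i₀ + (-1 : ℂ) • PM G i₀ := by
    rw [mm_DM]
    congr 1
    have : EM i₀ (-1 : MonoidAlgebra ℝ G) = -EM i₀ 1 := by
      rw [eq_neg_iff_add_eq_zero, ← EM_add, neg_add_cancel, EM_zero]
    rw [this, mm_neg, neg_one_smul]; rfl
  rw [h2]; exact h

theorem DM_neg (i₀ : n) (a : MonoidAlgebra ℝ G) : DM i₀ (-a) = DM i₀ (-1) * DM i₀ a := by
  rw [DM_mul, neg_one_mul]

theorem vdet_DM_neg (i₀ : n) (a : MonoidAlgebra ℝ G) :
    vdet (mm (DM i₀ (-a))) = vdet (mm (DM i₀ a)) := by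
  rw [DM_neg, mm_mul, vdet_mul_right _ (vdet_DM_neg_one i₀).1, (vdet_DM_neg_one i₀).2, mul_one]

theorem isUnit_DM_neg (i₀ : n) {a : MonoidAlgebra ℝ G} (h : IsUnit (mm (DM i₀ a))) :
    IsUnit (mm (DM i₀ (-a))) := by
  rw [DM_neg, mm_mul]
  exact h.mul (vdet_DM_neg_one i₀).1

/-- The determinant of `D(1 - t g)` for small `t`. -/
theorem vdet_one_sub_small (i₀ : n) (g : G) (hg : ∀ k : ℕ, g ^ (k + 1) ≠ 1) {t : ℝ}
    (ht0 : 0 < t) (ht : t < 1) :
    IsUnit (mm (DM i₀ (1 - MonoidAlgebra.single g t))) ∧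
      vdet (mm (DM i₀ (1 - MonoidAlgebra.single g t))) = 1 := by
  set w₀ : vN G n := mm (EM i₀ (MonoidAlgebra.single g (1 : ℝ))) with hw₀
  have hw : mm (DM i₀ (1 - MonoidAlgebra.single g t)) = 1 + (-t) • w₀ := by
    have h1 : (1 - MonoidAlgebra.single g t : MonoidAlgebra ℝ G) =
        1 + (-t) • MonoidAlgebra.single g (1 : ℝ) := by
      rw [MonoidAlgebra.smul_single, smul_eq_mul, mul_one, MonoidAlgebra.single_neg,
        ← sub_eq_add_neg]
    rw [h1, mm_DM, EM_add, mm_add, EM_smul, mm_smul]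
    change 1 - PM G i₀ + (PM G i₀ + _) = _
    abel
  have h3 : star w₀ * w₀ = PM G i₀ := by
    rw [hw₀, star_mm_EM, ← mm_mul, EM_mul, MonoidAlgebra.single_mul_single, mul_one,
      mul_inv_cancel]
    rfl
  have hn : ‖w₀‖ ≤ 1 := norm_le_one_of_star_mul_self (PM_mul_self i₀) (star_PM i₀) h3
  have hn2 : ‖(-t) • w₀‖ < 1 := by
    rw [norm_smul, norm_neg, Real.norm_of_nonneg ht0.le]
    nlinarith [norm_nonneg w₀]
  have hpow : ∀ k : ℕ, w₀ ^ (k + 1) = mm (EM i₀ (MonoidAlgebra.single (g ^ (k + 1)) (1 : ℝ))) := by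
    intro k
    induction k with
    | zero => rw [zero_add, pow_one, pow_one]
    | succ k ih =>
      rw [pow_succ, ih, hw₀, ← mm_mul, EM_mul, MonoidAlgebra.single_mul_single, mul_one,
        ← pow_succ']
  rw [hw]
  constructor
  · have := isUnit_one_sub_of_norm_lt_one (x := -((-t) • w₀)) (by rwa [norm_neg])
    rwa [sub_neg_eq_add] at this
  · unfold vdet
    refine rdet_one_add_contr (vnPosTrace G n) hn2.le fun k => ?_
    rw [smul_pow, map_smul, hpow, trace_mm_EM, if_neg (hg k), smul_zero]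

/-- The determinant of `D(1 - t g)`. -/
theorem vdet_one_sub (i₀ : n) (g : G) (hg : ∀ k : ℕ, g ^ (k + 1) ≠ 1) {t : ℝ}
    (ht0 : 0 < t) (ht : t ≠ 1) :
    IsUnit (mm (DM i₀ (1 - MonoidAlgebra.single g t))) ∧
      vdet (mm (DM i₀ (1 - MonoidAlgebra.single g t))) = max 1 t := by
  rcases lt_or_gt_of_ne ht with h | h
  · rw [max_eq_left h.le]
    exact vdet_one_sub_small i₀ g hg ht0 h
  · rw [max_eq_right h.le]
    have hg' : ∀ k : ℕ, g⁻¹ ^ (k + 1) ≠ 1 := by
      intro k hk
      rw [inv_pow, inv_eq_one] at hk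
      exact hg k hk
    have h1 := vdet_one_sub_small i₀ g⁻¹ hg' (inv_pos.mpr ht0) (inv_lt_one_of_one_lt₀ h)
    have h2 : (1 - MonoidAlgebra.single g t : MonoidAlgebra ℝ G) =
        -(MonoidAlgebra.single (1 : G) t * (MonoidAlgebra.single g 1 *
          (1 - MonoidAlgebra.single g⁻¹ t⁻¹))) := by
      rw [mul_sub, mul_one, MonoidAlgebra.single_mul_single, mul_inv_cancel, one_mul, mul_sub,
        MonoidAlgebra.single_mul_single, MonoidAlgebra.single_mul_single, one_mul, mul_one,
        one_mul, mul_inv_cancel₀ ht0.ne', neg_sub]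
      rfl
    have h3 := vdet_DM_real (G := G) i₀ ht0
    have h4 := vdet_DM_single i₀ g
    rw [h2]
    refine ⟨isUnit_DM_neg i₀ ?_, ?_⟩
    · rw [← DM_mul, ← DM_mul, mm_mul, mm_mul]
      exact (h1.1.mul h4.1).mul h3.1
    · rw [vdet_DM_neg, ← DM_mul, ← DM_mul, mm_mul, mm_mul, vdet_mul_right _ h3.1,
        vdet_mul_right _ h4.1, h1.2, h3.2, h4.2, one_mul, one_mul]

/-- Replacing a column. -/
theorem column_move (i₀ : n) (M M' : Matrix n n (MonoidAlgebra ℝ G)) (z : n → MonoidAlgebra ℝ G)
    (u : MonoidAlgebra ℝ G) (h1 : ∀ i j, j ≠ i₀ → M' i j = M i j)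
    (h2 : ∀ i, M' i i₀ * u + ∑ c, M i c * z c = 0)
    (hu : IsUnit (mm (DM i₀ u))) (hz : IsUnit (mm (DM i₀ (z i₀)))) :
    vdet (mm M') * vdet (mm (DM i₀ u)) = vdet (mm M) * vdet (mm (DM i₀ (z i₀))) := by
  set N : Matrix n n (MonoidAlgebra ℝ G) :=
    Matrix.of fun c j => if j = i₀ ∧ c ≠ i₀ then -z c else 0 with hN
  have hN2 : N * N = 0 := by
    refine Matrix.ext fun c j => ?_
    rw [Matrix.mul_apply, Matrix.zero_apply]
    refine Finset.sum_eq_zero fun k _ => ?_
    simp only [hN, Matrix.of_apply]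
    by_cases hk : k = i₀
    · rw [if_neg (fun h : j = i₀ ∧ k ≠ i₀ => h.2 hk), mul_zero]
    · rw [if_neg (fun h : k = i₀ ∧ c ≠ i₀ => hk h.1), zero_mul]
  have hNd : ∀ i, N i i = 0 := by
    intro i
    simp only [hN, Matrix.of_apply]
    rw [if_neg (fun h : i = i₀ ∧ i ≠ i₀ => h.2 h.1)]
  have hDM : ∀ (a : MonoidAlgebra ℝ G) (c j : n), DM i₀ a c j =
      if c = j then (if c = i₀ then a else 1) else 0 := by
    intro a c j
    unfold DM EM
    rw [Matrix.add_apply, Matrix.sub_apply, Matrix.single_apply, Matrix.single_apply,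
      Matrix.one_apply]
    by_cases hcj : c = j
    · subst hcj
      by_cases hc : c = i₀
      · subst hc; simp
      · simp [hc, Ne.symm hc]
    · by_cases hc : c = i₀
      · subst hc; simp [hcj]
      · simp [hcj, Ne.symm hc]
  have key : M' * DM i₀ u = M * DM i₀ (-z i₀) * (1 + N) := by
    have hZ : DM i₀ (-z i₀) * (1 + N) = Matrix.of fun c j => if j = i₀ then -z c else
        (if c = j then 1 else 0) := by
      refine Matrix.ext fun c j => ?_
      rw [Matrix.mul_apply, Finset.sum_eq_single c]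
      · rw [hDM, if_pos rfl, Matrix.add_apply, Matrix.one_apply]
        simp only [hN, Matrix.of_apply]
        by_cases hj : j = i₀
        · subst hj
          by_cases hc : c = j
          · subst hc; simp
          · simp [hc]
        · by_cases hc : c = i₀
          · subst hc; simp [hj, Ne.symm hj]
          · simp [hj, hc]
      · intro k _ hk
        rw [hDM, if_neg (Ne.symm hk), zero_mul]
      · simp
    rw [mul_assoc, hZ]
    refine Matrix.ext fun i j => ?_
    rw [Matrix.mul_apply, Matrix.mul_apply]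
    simp only [Matrix.of_apply, hDM]
    by_cases hj : j = i₀
    · subst hj
      simp only [if_true, mul_ite, mul_one, mul_zero, mul_neg, Finset.sum_neg_distrib]
      rw [eq_neg_iff_add_eq_zero]
      convert h2 i using 2
      rw [Finset.sum_eq_single j]
      · simp
      · intro k _ hk; simp [hk]
      · simp
    · simp only [if_neg hj, mul_ite, mul_one, mul_zero]
      rw [Finset.sum_eq_single j, Finset.sum_eq_single j]
      · simp [hj, h1 i j hj]
      · intro k _ hk; simp [hk]
      · simp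
      · intro k _ hk; simp [hk]
      · simp
  have hu2 := vdet_one_add N hN2 hNd
  have h3 := congrArg (fun M => vdet (mm M)) key
  simp only [mm_mul] at h3
  rw [vdet_mul_left _ hu, vdet_mul_left _ hu2.1, vdet_mul_left _ (isUnit_DM_neg i₀ hz),
    vdet_DM_neg, hu2.2, one_mul] at h3
  linarith

/-- Replacing a row. -/
theorem row_move (i₀ : n) (M M' : Matrix n n (MonoidAlgebra ℝ G)) (z : n → MonoidAlgebra ℝ G)
    (u : MonoidAlgebra ℝ G) (h1 : ∀ i j, i ≠ i₀ → M' i j = M i j)
    (h2 : ∀ j, u * M' i₀ j + ∑ c, z c * M c j = 0)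
    (hu : IsUnit (mm (DM i₀ u))) (hz : IsUnit (mm (DM i₀ (z i₀)))) :
    vdet (mm M') * vdet (mm (DM i₀ u)) = vdet (mm M) * vdet (mm (DM i₀ (z i₀))) := by
  set N : Matrix n n (MonoidAlgebra ℝ G) :=
    Matrix.of fun c j => if c = i₀ ∧ j ≠ i₀ then -z j else 0 with hN
  have hN2 : N * N = 0 := by
    refine Matrix.ext fun c j => ?_
    rw [Matrix.mul_apply, Matrix.zero_apply]
    refine Finset.sum_eq_zero fun k _ => ?_
    simp only [hN, Matrix.of_apply]
    by_cases hk : k = i₀
    · rw [if_neg (fun h : c = i₀ ∧ k ≠ i₀ => h.2 hk), zero_mul]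
    · rw [if_neg (fun h : k = i₀ ∧ j ≠ i₀ => hk h.1), mul_zero]
  have hNd : ∀ i, N i i = 0 := by
    intro i
    simp only [hN, Matrix.of_apply]
    rw [if_neg (fun h : i = i₀ ∧ i ≠ i₀ => h.2 h.1)]
  have hDM : ∀ (a : MonoidAlgebra ℝ G) (c j : n), DM i₀ a c j =
      if c = j then (if c = i₀ then a else 1) else 0 := by
    intro a c j
    unfold DM EM
    rw [Matrix.add_apply, Matrix.sub_apply, Matrix.single_apply, Matrix.single_apply,
      Matrix.one_apply]
    by_cases hcj : c = j
    · subst hcj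
      by_cases hc : c = i₀
      · subst hc; simp
      · simp [hc, Ne.symm hc]
    · by_cases hc : c = i₀
      · subst hc; simp [hcj]
      · simp [hcj, Ne.symm hc]
  have key : DM i₀ u * M' = (1 + N) * DM i₀ (-z i₀) * M := by
    have hZ : (1 + N) * DM i₀ (-z i₀) = Matrix.of fun c j => if c = i₀ then -z j else
        (if c = j then 1 else 0) := by
      refine Matrix.ext fun c j => ?_
      rw [Matrix.mul_apply, Finset.sum_eq_single j]
      · rw [hDM, if_pos rfl, Matrix.add_apply, Matrix.one_apply]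
        simp only [hN, Matrix.of_apply]
        by_cases hc : c = i₀
        · subst hc
          by_cases hj : j = c
          · subst hj; simp
          · simp [hj, Ne.symm hj]
        · by_cases hj : j = i₀
          · subst hj; simp [hc]
          · simp [hj, hc]
      · intro k _ hk
        rw [hDM, if_neg hk, mul_zero]
      · simp
    rw [hZ]
    refine Matrix.ext fun i j => ?_
    rw [Matrix.mul_apply, Matrix.mul_apply]
    simp only [Matrix.of_apply, hDM]
    by_cases hi : i = i₀
    · subst hi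
      simp only [if_true, ite_mul, zero_mul, neg_mul, Finset.sum_neg_distrib]
      rw [eq_neg_iff_add_eq_zero]
      convert h2 j using 2
      rw [Finset.sum_eq_single i]
      · simp
      · intro k _ hk; simp [Ne.symm hk]
      · simp
    · simp only [if_neg hi, ite_mul, one_mul, zero_mul]
      rw [Finset.sum_eq_single i, Finset.sum_eq_single i]
      · simp [h1 i j hi]
      · intro k _ hk; simp [Ne.symm hk]
      · simp
      · intro k _ hk; simp [Ne.symm hk]
      · simp
  have hu2 := vdet_one_add N hN2 hNd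
  have h3 := congrArg (fun M => vdet (mm M)) key
  simp only [mm_mul] at h3
  rw [vdet_mul_right _ hu, vdet_mul_right _ ((isUnit_DM_neg i₀ hz).mul hu2.1),
    vdet_mul_right _ hu2.1, vdet_DM_neg, hu2.2, mul_one] at h3
  exact h3

end Gen

/-- The meridians have infinite order. -/
theorem gx_pow_ne_one (i : Fin 5) (k : ℕ) : gx i ^ (k + 1) ≠ 1 := by
  intro h
  have h1 := congrArg K52.phi h
  rw [map_pow, phi_gx, map_one K52.phi] at h1
  have h2 : (Multiplicative.ofAdd (1 : ℤ)) ^ (k + 1) = Multiplicative.ofAdd ((k + 1 : ℕ) : ℤ) := by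
    rw [← ofAdd_nsmul]; simp
  rw [h2] at h1
  have h3 : ((k + 1 : ℕ) : ℤ) = 0 := Multiplicative.ofAdd.injective h1
  omega

/-- The fundamental identity of Fox calculus. -/
theorem col_identity (t : ℝ) (y : Fin 5) : ∑ j, JM t y j * (1 - tx t j) = 0 := by
  have hrel : tx t (oIdx y) * tx t (iIdx y) = tx t y * tx t (oIdx y) := by
    have h := relation y
    have h1 : gx (oIdx y) * gx (iIdx y) = gx y * gx (oIdx y) := by
      rw [mul_inv_eq_one, mul_inv_eq_iff_eq_mul] at h
      exact h
    unfold tx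
    rw [MonoidAlgebra.single_mul_single, MonoidAlgebra.single_mul_single, h1]
  have h : ∑ j, JM t y j * (1 - tx t j) = (1 - tx t y) * (1 - tx t (oIdx y)) +
      tx t (oIdx y) * (1 - tx t (iIdx y)) - (1 - tx t y) := by
    unfold JM
    simp only [sub_mul, add_mul, ite_mul, zero_mul, Finset.sum_add_distrib,
      Finset.sum_sub_distrib, Finset.sum_ite_eq, Finset.mem_univ, if_true, one_mul]
  rw [h]
  simp only [mul_sub, sub_mul, mul_one, one_mul, hrel]
  abel

theorem vdet_col_step (r : Fin 5) (a : Fin 4) {t : ℝ} (ht0 : 0 < t) (ht : t ≠ 1) :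
    vdet (mm (minorM r a.succ t)) = vdet (mm (minorM r a.castSucc t)) := by
  have hu : ∀ i : Fin 5, IsUnit (mm (DM a (1 - tx t i))) ∧
      vdet (mm (DM a (1 - tx t i))) = max 1 t := fun i =>
    vdet_one_sub a (gx i) (gx_pow_ne_one i) ht0 ht
  have h1 : ∀ c : Fin 4, a.castSucc.succAbove c = if c < a then c.castSucc else c.succ := by
    intro c; rfl
  have h2 : ∀ c : Fin 4, a.succ.succAbove c = if c ≤ a then c.castSucc else c.succ := by
    intro c
    have hc : c.castSucc < a.succ ↔ c ≤ a := Fin.castSucc_lt_succ_iff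
    simp only [Fin.succAbove, hc]
  have hcol : a.castSucc.succAbove a = a.succ := by rw [h1]; simp
  have hmove := column_move a (minorM r a.castSucc t) (minorM r a.succ t)
    (fun c => 1 - tx t (a.castSucc.succAbove c)) (1 - tx t a.castSucc) (by
      intro i j hj
      change JM t _ (a.succ.succAbove j) = JM t _ (a.castSucc.succAbove j)
      rw [h1, h2]
      congr 1
      rcases lt_or_gt_of_ne hj with h | h
      · rw [if_pos h.le, if_pos h]
      · rw [if_neg (not_le.mpr h), if_neg (not_lt.mpr h.le)]) (by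
      intro i
      have := col_identity t (r.succAbove i)
      rw [Fin.sum_univ_succAbove _ a.castSucc] at this
      have h3 : a.succ.succAbove a = a.castSucc := by rw [h2]; simp
      change JM t _ (a.succ.succAbove a) * _ + _ = 0
      rw [h3]
      exact this) (hu _).1 (hu _).1
  rw [(hu _).2, (hu _).2] at hmove
  exact mul_right_cancel₀ (by positivity) hmove

/-- The coefficients of the relation between the Wirtinger relators. -/
def ww : Fin 5 → K52.KnotGroup :=
  ![1, 1, gx 0 * (gx 4)⁻¹, 1, gx 0 * (gx 4)⁻¹]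

theorem ww_rel : gx 0 * (gx 4)⁻¹ * gx 2 = gx 1 := by
  have h0 : gx 1 * gx 4 * (gx 1)⁻¹ * (gx 0)⁻¹ = 1 := relation 0
  have h2 : gx 4 * gx 1 * (gx 4)⁻¹ * (gx 2)⁻¹ = 1 := relation 2
  have e0 : gx 0 = gx 1 * gx 4 * (gx 1)⁻¹ := (mul_inv_eq_one.mp h0).symm
  have e2 : gx 2 = gx 4 * gx 1 * (gx 4)⁻¹ := (mul_inv_eq_one.mp h2).symm
  rw [e0, e2]
  group

/-- The redundancy of one Wirtinger relator. -/
theorem row_identity (t : ℝ) (j : Fin 5) :
    ∑ y, MonoidAlgebra.single (ww y) (1 : ℝ) * JM t y j = 0 := by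
  have h4 : MonoidAlgebra.single (gx 0 * (gx 4)⁻¹) (1 : ℝ) * tx t 4 = tx t 0 := by
    unfold tx
    rw [MonoidAlgebra.single_mul_single, one_mul, inv_mul_cancel_right]
  have h2 : MonoidAlgebra.single (gx 0 * (gx 4)⁻¹) (1 : ℝ) * tx t 2 = tx t 1 := by
    unfold tx
    rw [MonoidAlgebra.single_mul_single, one_mul, ww_rel]
  have h1 : (MonoidAlgebra.single (1 : K52.KnotGroup) (1 : ℝ)) = 1 := rfl
  fin_cases j <;>
    simp [Fin.sum_univ_five, JM, ww, oIdx, iIdx, mul_sub, mul_add, h4, h2, h1]

theorem vdet_row_step (r : Fin 4) (a : Fin 5) (t : ℝ) :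
    vdet (mm (minorM r.succ a t)) = vdet (mm (minorM r.castSucc a t)) := by
  have hu : ∀ i : Fin 5, IsUnit (mm (DM r (MonoidAlgebra.single (ww i) (1 : ℝ)))) ∧
      vdet (mm (DM r (MonoidAlgebra.single (ww i) (1 : ℝ)))) = 1 := fun i =>
    vdet_DM_single r (ww i)
  have h1 : ∀ c : Fin 4, r.castSucc.succAbove c = if c < r then c.castSucc else c.succ := by
    intro c; rfl
  have h2 : ∀ c : Fin 4, r.succ.succAbove c = if c ≤ r then c.castSucc else c.succ := by
    intro c
    have hc : c.castSucc < r.succ ↔ c ≤ r := Fin.castSucc_lt_succ_iff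
    simp only [Fin.succAbove, hc]
  have hmove := row_move r (minorM r.castSucc a t) (minorM r.succ a t)
    (fun c => MonoidAlgebra.single (ww (r.castSucc.succAbove c)) (1 : ℝ))
    (MonoidAlgebra.single (ww r.castSucc) (1 : ℝ)) (by
      intro i j hi
      change JM t (r.succ.succAbove i) _ = JM t (r.castSucc.succAbove i) _
      rw [h1, h2]
      congr 1
      rcases lt_or_gt_of_ne hi with h | h
      · rw [if_pos h.le, if_pos h]
      · rw [if_neg (not_le.mpr h), if_neg (not_lt.mpr h.le)]) (by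
      intro j
      have := row_identity t (a.succAbove j)
      rw [Fin.sum_univ_succAbove _ r.castSucc] at this
      have h3 : r.succ.succAbove r = r.castSucc := by rw [h2]; simp
      change _ * JM t (r.succ.succAbove r) _ + _ = 0
      rw [h3]
      exact this) (hu _).1 (hu _).1
  rw [(hu _).2, (hu _).2, mul_one, mul_one] at hmove
  exact hmove

theorem vdet_minor_eq (r a : Fin 5) {t : ℝ} (ht0 : 0 < t) (ht : t ≠ 1) :
    vdet (mm (minorM r a t)) = vdet (mm (minorM 0 0 t)) := by
  have h1 : ∀ (r a : Fin 5), vdet (mm (minorM r a t)) = vdet (mm (minorM r 0 t)) := by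
    intro r a
    induction a using Fin.induction with
    | zero => rfl
    | succ a ih => rw [vdet_col_step r a ht0 ht, ih]
  have h2 : ∀ (r : Fin 5), vdet (mm (minorM r 0 t)) = vdet (mm (minorM 0 0 t)) := by
    intro r
    induction r using Fin.induction with
    | zero => rfl
    | succ r ih => rw [vdet_row_step r 0 t, ih]
  rw [h1, h2]

end Pool.Agent.Lib.MP_2e739e_gt
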