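import Pool.Agent.Lib.MP_2e739e_gt.Det2

/-!
# Scaling on a projection, kernels, and radial monotonicity
-/

set_option autoImplicit false
set_option linter.unusedSectionVars false

open scoped ComplexConjugate Topology
open Filter Finset

namespace Pool.Agent.Lib.MP_2e739e_gt

variable {A : Type*} [CStarAlgebra A] [PartialOrder A] [StarOrderedRing A] (τ : PosTrace A)

theorem one_add_proj_inv {P : A} (hP : P * P = P) {r : ℝ} (hr : 0 < r) :
    IsUnit (1 + (r - 1) • P) ∧ Ring.inverse (1 + (r - 1) • P) = 1 + (r⁻¹ - 1) • P := by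
  have key : ∀ a b : ℝ, a * b = 1 → (1 + (a - 1) • P) * (1 + (b - 1) • P) = 1 := by
    intro a b hab
    have : (1 + (a - 1) • P) * (1 + (b - 1) • P) =
        1 + ((a - 1) + (b - 1) + (a - 1) * (b - 1)) • P := by
      simp only [mul_add, add_mul, one_mul, mul_one, smul_mul_smul_comm, hP, add_smul]
      abel
    rw [this, show (a - 1) + (b - 1) + (a - 1) * (b - 1) = a * b - 1 by ring, hab, sub_self,
      zero_smul, add_zero]
  have h1 := key r r⁻¹ (mul_inv_cancel₀ hr.ne')
  have h2 := key r⁻¹ r (inv_mul_cancel₀ hr.ne')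
  let u : Aˣ := ⟨_, _, h1, h2⟩
  exact ⟨u.isUnit, Ring.inverse_unit u⟩

/-- The trace of the logarithm of the element which is `r ^ 2` on the projection `P` and `1` on
its complement. -/
theorem tlog_one_add_proj {P : A} (hP : P * P = P) {r : ℝ} (hr : 0 < r) :
    tlog τ (star (1 + (r - 1) • P) * (1 + (r - 1) • P)) = 2 * Real.log r * τ.rfn P := by
  have hder : ∀ s : ℝ, 0 < s → HasDerivAt (fun s : ℝ =>
      tlog τ (star (1 + (s - 1) • P) * (1 + (s - 1) • P)) - 2 * Real.log s * τ.rfn P) 0 s := by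
    intro s hs
    have hl : HasDerivAt (fun s : ℝ => (1 : A) + (s - 1) • P) P s := by
      have := (((hasDerivAt_id s).sub_const 1).smul_const P).const_add (1 : A)
      simpa using this
    have h1 := hasDerivAt_tlog_star_mul_self τ hl (by
      filter_upwards [lt_mem_nhds hs] with t ht
      exact (one_add_proj_inv hP ht).1)
    have h2 := ((Real.hasDerivAt_log hs.ne').const_mul 2).mul_const (τ.rfn P)
    refine (h1.sub h2).congr_deriv ?_
    rw [(one_add_proj_inv hP hs).2, add_mul, one_mul, smul_mul_assoc, hP, map_add, map_smul,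
      smul_eq_mul]
    ring
  have hconst : ∀ a b : ℝ, 0 < a → a < b →
      tlog τ (star (1 + (b - 1) • P) * (1 + (b - 1) • P)) - 2 * Real.log b * τ.rfn P =
      tlog τ (star (1 + (a - 1) • P) * (1 + (a - 1) • P)) - 2 * Real.log a * τ.rfn P := by
    intro a b ha hab
    obtain ⟨s, hs, hs'⟩ := exists_hasDerivAt_eq_slope _ (fun _ => 0) hab
      (fun s hs => (hder s (ha.trans_le hs.1)).continuousAt.continuousWithinAt)
      (fun s hs => hder s (ha.trans hs.1))
    have h3 := (div_eq_zero_iff.mp hs'.symm).resolve_right (by linarith)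
    linarith
  have h0 : tlog τ (1 : A) = 0 := by simp [tlog]
  rcases lt_trichotomy r 1 with h | h | h
  · have := hconst r 1 hr h
    simp only [sub_self, zero_smul, add_zero, star_one, mul_one, h0, Real.log_one, mul_zero,
      zero_mul] at this
    linarith
  · subst h
    simp [h0]
  · have := hconst 1 r one_pos h
    simp only [sub_self, zero_smul, add_zero, star_one, mul_one, h0, Real.log_one, mul_zero,
      zero_mul] at this
    linarith

theorem rdet_one_add_proj {P : A} (hP : P * P = P) {r : ℝ} (hr : 0 < r) :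
    rdet τ (1 + (r - 1) • P) = Real.exp (Real.log r * τ.rfn P) := by
  rw [rdet_of_isUnit τ (one_add_proj_inv hP hr).1, tlog_one_add_proj τ hP hr]
  congr 1; ring

/-- If `P` is a self-adjoint projection with `T P = 0`, then `τ log (T* T + ε)` is at most
`log C * τ 1 + (log ε - log C) * τ P` for `C ≥ ‖T‖ ^ 2 + ε`. -/
theorem hreg_le_of_kernel {P T : A} (hP : P * P = P) (hPs : star P = P) (hT : T * P = 0)
    {ε C : ℝ} (hε : 0 < ε) (hC : ‖star T * T‖ + ε ≤ C) :
    hreg τ T ε ≤ (Real.log C * τ.rfn 1 + (Real.log ε - Real.log C) * τ.rfn P) / 2 := by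
  have hC0 : 0 < C := lt_of_lt_of_le (by positivity) hC
  set r : ℝ := Real.sqrt (ε / C) with hr
  have hr0 : 0 < r := Real.sqrt_pos.mpr (by positivity)
  have hr2 : r * r = ε / C := Real.mul_self_sqrt (by positivity)
  have hQ : star (1 - P) * (1 - P) = 1 - P := by
    simp only [star_sub, star_one, hPs, mul_sub, sub_mul, mul_one, one_mul, hP]; abel
  have hW : star (1 + (r - 1) • P) * (1 + (r - 1) • P) = (ε / C) • P + (1 - P) := by
    simp only [star_add, star_one, star_smul, star_trivial, hPs, mul_add, add_mul, one_mul,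
      mul_one, smul_mul_smul_comm, hP]
    have h1 : (ε / C) • P = (1 + (r - 1) + ((r - 1) + (r - 1) * (r - 1))) • P := by
      rw [← hr2]; congr 1; ring
    rw [h1]
    simp only [add_smul, one_smul]
    abel
  have hTT : star T * T = star (1 - P) * (star T * T) * (1 - P) := by
    have h1 : star T * T * (1 - P) = star T * T := by
      rw [mul_sub, mul_one, mul_assoc, hT, mul_zero, sub_zero]
    have h2 : star (1 - P) * (star T * T) = star T * T := by
      have := congrArg star h1
      rwa [star_mul, star_mul, star_star] at this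
    rw [h2, h1]
  have hle : star T * T + ε • (1 : A) ≤
      C • (star (1 + (r - 1) • P) * (1 + (r - 1) • P)) := by
    rw [hW]
    have h1 : star T * T ≤ ‖star T * T‖ • (1 - P) := by
      have h2 := (IsSelfAdjoint.star_mul_self T).le_algebraMap_norm_self
      have h3 := star_left_conjugate_le_conjugate h2 (1 - P)
      rw [← hTT, Algebra.algebraMap_eq_smul_one, mul_smul_comm, mul_one, smul_mul_assoc, hQ] at h3
      exact h3
    have hQ0 : 0 ≤ 1 - P := by rw [← hQ]; exact star_mul_self_nonneg _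
    calc star T * T + ε • (1 : A) ≤ ‖star T * T‖ • (1 - P) + ε • (1 : A) := by gcongr
      _ = (‖star T * T‖ + ε) • (1 - P) + ε • P := by
          rw [add_smul, smul_sub ε]; abel
      _ ≤ C • (1 - P) + ε • P := by gcongr
      _ = _ := by
          rw [smul_add, smul_smul, mul_div_cancel₀ _ hC0.ne', add_comm]
  have h4 := tlog_mono τ (isStrictlyPositive_reg T hε) hle
  rw [tlog_smul τ (isStrictlyPositive_star_mul_self (one_add_proj_inv hP hr0).1) hC0,
    tlog_one_add_proj τ hP hr0] at h4
  have h5 : 2 * Real.log r = Real.log ε - Real.log C := by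
    rw [hr, Real.log_sqrt (by positivity), Real.log_div hε.ne' hC0.ne']; ring
  rw [h5] at h4
  unfold hreg
  linarith

/-- If the determinant is positive, then any projection on which `T` vanishes has trace zero. -/
theorem rfn_eq_zero_of_kernel {P T : A} (hP : P * P = P) (hPs : star P = P) (hT : T * P = 0)
    (hdet : 0 < rdet τ T) : τ.rfn P = 0 := by
  by_contra hne
  have hP0 : 0 ≤ τ.rfn P := by
    have := τ.rfn_star_mul_self_nonneg P
    rwa [hPs, hP] at this
  have hpos : 0 < τ.rfn P := lt_of_le_of_ne hP0 (Ne.symm hne)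
  set C : ℝ := ‖star T * T‖ + 1 with hC
  have hC0 : 0 < C := by positivity
  have hb : ∀ ε : ℝ, 0 < ε → ε ≤ 1 → Real.log (rdet τ T) ≤
      (Real.log C * τ.rfn 1 + (Real.log ε - Real.log C) * τ.rfn P) / 2 := by
    intro ε hε hε1
    refine le_trans ?_ (hreg_le_of_kernel τ hP hPs hT hε (C := C) (by linarith))
    rw [Real.log_le_iff_le_exp hdet]
    exact rdet_le τ T hε
  have hlim : Tendsto (fun ε : ℝ =>
      (Real.log C * τ.rfn 1 + (Real.log ε - Real.log C) * τ.rfn P) / 2) (𝓝[>] 0) atBot := by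
    apply Tendsto.atBot_div_const two_pos
    apply tendsto_atBot_add_const_left
    apply Tendsto.atBot_mul_const hpos
    exact tendsto_atBot_add_const_right _ _ Real.tendsto_log_nhdsGT_zero
  have h1 := hlim.eventually (eventually_lt_atBot (Real.log (rdet τ T)))
  have h2 : ∀ᶠ ε : ℝ in 𝓝[>] 0, ε ≤ 1 := by
    apply eventually_nhdsWithin_of_eventually_nhds
    exact (eventually_le_nhds one_pos)
  have h3 : ∀ᶠ ε : ℝ in 𝓝[>] 0, 0 < ε := self_mem_nhdsWithin
  obtain ⟨ε, h1, h2, h3⟩ := (h1.and (h2.and h3)).exists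
  linarith [hb ε h3 h2]

/-- The derivative of the resolvent along a path. -/
theorem hasDerivAt_resolvent {W : ℝ → A} {W' : A} {s : ℝ} (hW : HasDerivAt W W' s) {ε : ℝ}
    (hε : 0 < ε) :
    HasDerivAt (fun t => Ring.inverse (star (W t) * W t + ε • (1 : A)))
      (-(Ring.inverse (star (W s) * W s + ε • (1 : A)) * (star W' * W s + star (W s) * W') *
        Ring.inverse (star (W s) * W s + ε • (1 : A)))) s := by
  obtain ⟨u, hu⟩ := (isStrictlyPositive_reg (W s) hε).isUnit
  have h1 := (hW.star.mul hW).add_const (ε • (1 : A))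
  have h2 := hasFDerivAt_ringInverse (𝕜 := ℝ) u
  have h3 : HasFDerivAt (𝕜 := ℝ) Ring.inverse (-ContinuousLinearMap.mulLeftRight ℝ A ↑u⁻¹ ↑u⁻¹)
      (((fun t => star (W t)) * W) s + ε • (1 : A)) := by
    rw [Pi.mul_apply, ← hu]; exact h2
  have h4 := h3.comp_hasDerivAt s h1
  refine h4.congr_deriv ?_
  rw [← hu, Ring.inverse_unit]
  simp

theorem map_ringInverse {α : A →⋆ₐ[ℂ] A} {x : A} (hx : IsUnit x) :
    α (Ring.inverse x) = Ring.inverse (α x) := by
  obtain ⟨u, rfl⟩ := hx
  have h : (Units.map (α : A →* A) u : A) = α u := rfl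
  rw [Ring.inverse_unit, ← h, Ring.inverse_unit, ← map_inv]
  rfl

/-- **Radial monotonicity.** -/
theorem radial_mono {T T₁ T₂ : ℂ → A} (hT : ∀ z, HasDerivAt T (T₁ z) z)
    (hT₁ : ∀ z, HasDerivAt T₁ (T₂ z) z)
    (hsym : ∀ θ : ℝ, ∃ (α : A →⋆ₐ[ℂ] A) (u : A), u ∈ unitary A ∧ (∀ x, τ.fn (α x) = τ.fn x) ∧
      ∀ z, α (T z) = u * T (z + θ * Complex.I) ∧ α (T₁ z) = u * T₁ (z + θ * Complex.I))
    {A₀ : A} (hlim : Tendsto (fun s : ℝ => T s) atBot (𝓝 A₀))
    (hlim₁ : Tendsto (fun s : ℝ => T₁ s) atBot (𝓝 0)) {ε : ℝ} (hε : 0 < ε) (s : ℝ) :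
    hreg τ A₀ ε ≤ hreg τ (T s) ε := by
  set R : ℂ → A := fun z => Ring.inverse (star (T z) * T z + ε • (1 : A)) with hR
  set G : ℂ → ℂ := fun z => τ.fn (R z * star (T z) * T₁ z) with hG
  set α : ℂ → ℂ := fun z => τ.fn (R z * star (T z) * T₂ z -
    R z * star (T z) * T₁ z * R z * star (T z) * T₁ z) with hα
  set β : ℂ → ℂ := fun z => τ.fn (R z * star (T₁ z) * T₁ z -
          R z * star (T₁ z) * T z * R z * star (T z) * T₁ z) with hβ
  -- paths
  have hpath : ∀ (F F' : ℂ → A), (∀ z, HasDerivAt F (F' z) z) → ∀ (z c : ℂ) (r : ℝ),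
      HasDerivAt (fun r : ℝ => F (z + r * c)) (c • F' (z + r * c)) r := by
    intro F F' hF z c r
    have h1 : HasDerivAt (fun r : ℝ => z + (r : ℂ) * c) c r := by
      have := ((Complex.ofRealCLM.hasDerivAt (x := r)).mul_const c).const_add z
      simpa using this
    have h2 := HasDerivAt.scomp r (h := fun r : ℝ => z + (r : ℂ) * c) (g₁ := F) (hF _) h1
    exact h2
  -- derivative of G in direction `c`
  have hGder : ∀ (z c : ℂ) (r : ℝ), HasDerivAt (fun r : ℝ => G (z + r * c))
      (c * α (z + r * c) + conj c * β (z + r * c)) r := by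
    intro z c r
    have hTp := hpath T T₁ hT z c r
    have hT₁p := hpath T₁ T₂ hT₁ z c r
    have hRp := hasDerivAt_resolvent hTp hε
    have h1 := ((hRp.mul hTp.star).mul hT₁p)
    have h2 := (τ.fn.restrictScalars ℝ).hasFDerivAt.comp_hasDerivAt r h1
    refine h2.congr_deriv ?_
    simp only [Pi.mul_apply, hα, hβ]
    change τ.fn _ = _
    rw [← smul_eq_mul c, ← smul_eq_mul (conj c), ← map_smul, ← map_smul, ← map_add]
    congr 1
    simp only [star_smul, RCLike.star_def, mul_add, add_mul, smul_mul_assoc, mul_smul_comm,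
      neg_mul, smul_sub, mul_assoc, hR]
    abel
  -- invariance of `G` under imaginary translations
  have hGinv : ∀ (z : ℂ) (θ : ℝ), G (z + θ * Complex.I) = G z := by
    intro z θ
    obtain ⟨a, u, hu, ha, haT⟩ := hsym θ
    have hu' := Unitary.star_mul_self_of_mem hu
    simp only [hG]
    rw [← ha (R z * star (T z) * T₁ z), map_mul a, map_mul a, map_star a, (haT z).1,
      (haT z).2, hR]
    simp only
    rw [map_ringInverse (isStrictlyPositive_reg (T z) hε).isUnit, map_add a, map_mul a,
      map_star a, (haT z).1]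
    have h1 : a (ε • (1 : A)) = ε • (1 : A) := by
      have : ε • (1 : A) = (ε : ℂ) • (1 : A) := by
        rw [Complex.coe_smul]
      rw [this, map_smul, map_one]
    have h2 : ∀ x y : A, star (u * x) * (u * y) = star x * y := by
      intro x y
      rw [star_mul, mul_assoc, ← mul_assoc (star u), hu', one_mul]
    rw [h1, h2, mul_assoc, mul_assoc, h2]
  have hαβ : ∀ z, α z = β z := by
    intro z
    have h1 := hGder z Complex.I 0
    have h2 : HasDerivAt (fun r : ℝ => G (z + r * Complex.I)) 0 0 := by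
      simp only [hGinv]
      exact hasDerivAt_const _ _
    have h3 := h1.unique h2
    simp only [Complex.ofReal_zero, zero_mul, add_zero, Complex.conj_I] at h3
    have h4 : Complex.I * (α z - β z) = 0 := by linear_combination h3
    have h5 := (mul_eq_zero.mp h4).resolve_left Complex.I_ne_zero
    exact sub_eq_zero.mp h5
  have hβpos : ∀ z, 0 ≤ (β z).re := by
    intro z
    set R' : A := Ring.inverse (T z * star (T z) + ε • (1 : A)) with hR'
    have h1 : T z * R z = R' * T z := mul_inverse_reg (T z) hε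
    have h2 : R' * (T z * star (T z) + ε • (1 : A)) = 1 :=
      Ring.inverse_mul_cancel _ (isStrictlyPositive_reg' (T z) hε).isUnit
    have h3 : R' * T z * star (T z) = 1 - ε • R' := by
      rw [mul_add, mul_smul_comm, mul_one] at h2
      rw [mul_assoc, ← h2]; abel
    have h4 : R z * star (T₁ z) * T₁ z - R z * star (T₁ z) * T z * R z * star (T z) * T₁ z =
        ε • (R z * star (T₁ z) * R' * T₁ z) := by
      have : R z * star (T₁ z) * T z * R z * star (T z) * T₁ z =
          R z * star (T₁ z) * (T z * R z * star (T z)) * T₁ z := by simp only [mul_assoc]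
      rw [this, h1, h3]
      simp only [mul_sub, sub_mul, mul_one, mul_smul_comm, smul_mul_assoc, sub_sub_cancel]
    have h5 : (β z).re = ε * τ.rfn (R z * star (T₁ z) * R' * T₁ z) := by
      simp only [hβ]
      rw [h4, ← τ.rfn_apply, map_smul, smul_eq_mul]
    rw [h5]
    exact mul_nonneg hε.le (τ.rfn_conj_nonneg (isStrictlyPositive_reg (T z) hε).ringInverse.nonneg
      (isStrictlyPositive_reg' (T z) hε).ringInverse.nonneg)
  -- `Re G` is monotone on the real line and tends to `0` at `-∞`
  have hGre : ∀ r : ℝ, HasDerivAt (fun r : ℝ => (G r).re) (2 * (β r).re) r := by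
    intro r
    have h1 := hGder 0 1 r
    simp only [zero_add, mul_one, one_mul, map_one, hαβ] at h1
    have h2 := Complex.reCLM.hasFDerivAt.comp_hasDerivAt r h1
    refine h2.congr_deriv ?_
    simp only [Complex.reCLM_apply, Complex.add_re]
    ring
  have hGmono : Monotone fun r : ℝ => (G r).re := by
    refine monotone_of_deriv_nonneg (fun r => (hGre r).differentiableAt) fun r => ?_
    rw [(hGre r).deriv]
    have := hβpos r
    linarith
  have hGlim : Tendsto (fun r : ℝ => (G r).re) atBot (𝓝 0) := by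
    have h1 : Tendsto (fun r : ℝ => R r) atBot (𝓝 (Ring.inverse (star A₀ * A₀ + ε • (1 : A)))) := by
      obtain ⟨u, hu⟩ := (isStrictlyPositive_reg A₀ hε).isUnit
      have hc : ContinuousAt (Ring.inverse : A → A) (star A₀ * A₀ + ε • (1 : A)) := by
        rw [← hu]; exact NormedRing.inverse_continuousAt u
      exact hc.tendsto.comp (((hlim.star.mul hlim)).add_const _)
    have h2 := ((h1.mul hlim.star).mul hlim₁)
    have h3 := (τ.rfn.continuous.tendsto _).comp h2
    rw [mul_zero, map_zero] at h3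
    exact h3
  have hG0 : ∀ r : ℝ, 0 ≤ (G r).re := fun r => hGmono.le_of_tendsto hGlim r
  -- `hreg` is monotone
  have hder : ∀ r : ℝ, HasDerivAt (fun r : ℝ => hreg τ (T r) ε) ((G r).re) r := by
    intro r
    have h0 := hpath T T₁ hT 0 1 r
    simp only [zero_add, mul_one, one_smul] at h0
    have h1 := hasDerivAt_tlog τ ((h0.star.mul h0).add_const (ε • (1 : A)))
      (Eventually.of_forall fun t => isStrictlyPositive_reg (T t) hε)
    refine (h1.div_const 2).congr_deriv ?_
    simp only [Pi.mul_apply]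
    have e1 : τ.rfn (R r * (star (T₁ r) * T r)) = τ.rfn (R r * (star (T r) * T₁ r)) := by
      rw [← τ.rfn_star, star_mul, star_mul, star_star, τ.rfn_comm]
      congr 2
      exact (isStrictlyPositive_reg (T r) hε).ringInverse.isSelfAdjoint.star_eq
    rw [mul_add, map_add]
    change (τ.rfn (R r * (star (T₁ r) * T r)) + τ.rfn (R r * (star (T r) * T₁ r))) / 2 = _
    rw [e1, ← mul_assoc, add_self_div_two]
    rfl
  have hmono : Monotone fun r : ℝ => hreg τ (T r) ε := by
    refine monotone_of_deriv_nonneg (fun r => (hder r).differentiableAt) fun r => ?_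
    rw [(hder r).deriv]
    exact hG0 r
  have hl : Tendsto (fun r : ℝ => hreg τ (T r) ε) atBot (𝓝 (hreg τ A₀ ε)) :=
    ((continuous_hreg τ hε).tendsto A₀).comp hlim
  exact hmono.le_of_tendsto hl s

/-- **Continuity of the determinant at the end of a radial family.** -/
theorem tendsto_rdet {T T₁ T₂ : ℂ → A} (hT : ∀ z, HasDerivAt T (T₁ z) z)
    (hT₁ : ∀ z, HasDerivAt T₁ (T₂ z) z)
    (hsym : ∀ θ : ℝ, ∃ (α : A →⋆ₐ[ℂ] A) (u : A), u ∈ unitary A ∧ (∀ x, τ.fn (α x) = τ.fn x) ∧
      ∀ z, α (T z) = u * T (z + θ * Complex.I) ∧ α (T₁ z) = u * T₁ (z + θ * Complex.I))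
    {A₀ : A} (hlim : Tendsto (fun s : ℝ => T s) atBot (𝓝 A₀))
    (hlim₁ : Tendsto (fun s : ℝ => T₁ s) atBot (𝓝 0)) :
    (∀ s : ℝ, rdet τ A₀ ≤ rdet τ (T s)) ∧
      Tendsto (fun s : ℝ => rdet τ (T s)) atBot (𝓝 (rdet τ A₀)) := by
  have hlow : ∀ s : ℝ, rdet τ A₀ ≤ rdet τ (T s) := fun s => le_rdet τ fun ε hε =>
    (rdet_le τ A₀ hε).trans
      (Real.exp_le_exp.mpr (radial_mono τ hT hT₁ hsym hlim hlim₁ hε s))
  refine ⟨hlow, ?_⟩
  rw [tendsto_order]
  refine ⟨fun a ha => Eventually.of_forall fun s => ha.trans_le (hlow s), fun a ha => ?_⟩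
  obtain ⟨⟨ε, hε⟩, hlt⟩ := exists_lt_of_ciInf_lt ha
  have h1 : Tendsto (fun s : ℝ => Real.exp (hreg τ (T s) ε)) atBot
      (𝓝 (Real.exp (hreg τ A₀ ε))) :=
    (Real.continuous_exp.tendsto _).comp (((continuous_hreg τ hε).tendsto A₀).comp hlim)
  filter_upwards [h1.eventually (gt_mem_nhds hlt)] with s hs
  exact (rdet_le τ (T s) hε).trans_lt hs

end Pool.Agent.Lib.MP_2e739e_gt
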