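import Pool.Agent.Lib.MP_2e739e_gt.Limits

/-!
# Invariance of the Fuglede-Kadison determinant under reindexing
-/

set_option autoImplicit false
set_option linter.unusedSectionVars false

open scoped ENNReal ComplexConjugate InnerProductSpace
open Filter Topology

namespace Pool.Agent.Lib.MP_2e739e_gt

theorem map_log {B B' : Type*} [CStarAlgebra B] [CStarAlgebra B'] [PartialOrder B]
    [StarOrderedRing B] (φ : B →⋆ₐ[ℂ] B') (hφ : Continuous φ) {x : B}
    (hx : IsStrictlyPositive x) : φ (CFC.log x) = CFC.log (φ x) := by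
  have hcont : ContinuousOn Real.log (spectrum ℝ x) :=
    ContinuousOn.log continuousOn_id fun y hy => (hx.spectrum_pos hy).ne'
  exact StarAlgHom.map_cfc φ Real.log x hcont hφ hx.isSelfAdjoint (hx.isSelfAdjoint.map φ)

variable {G : Type*} [Group G] {m n m' n' : Type*} [Fintype m] [Fintype n] [Fintype m']
  [Fintype n']

theorem isStrictlyPositive_adjoint_comp (T : L2n G m →L[ℂ] L2n G n) {ε : ℝ} (hε : 0 < ε) :
    IsStrictlyPositive (ContinuousLinearMap.adjoint T ∘L T + ε • 1 :
      L2n G m →L[ℂ] L2n G m) := by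
  have h1 : (0 : L2n G m →L[ℂ] L2n G m) ≤ ContinuousLinearMap.adjoint T ∘L T := by
    rw [ContinuousLinearMap.nonneg_iff_isPositive]
    exact ContinuousLinearMap.isPositive_adjoint_comp_self T
  exact IsStrictlyPositive.nonneg_add h1 (isStrictlyPositive_smul_one hε)

theorem vnTrace_conj (e : m ≃ m') (X : L2n G m →L[ℂ] L2n G m) :
    vnTrace ((LinearIsometryEquiv.piLpCongrLeft 2 ℂ (L2 G) e).conjStarAlgEquiv X) = vnTrace X := by
  unfold vnTrace
  rw [← Equiv.sum_comp e]
  refine Finset.sum_congr rfl fun i _ => ?_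
  rw [LinearIsometryEquiv.conjStarAlgEquiv_apply_apply]
  have h1 : (LinearIsometryEquiv.piLpCongrLeft 2 ℂ (L2 G) e) (unitVec G i) = unitVec G (e i) := by
    classical
    unfold unitVec
    rw [LinearIsometryEquiv.piLpCongrLeft_single]
  rw [← h1, LinearIsometryEquiv.symm_apply_apply, LinearIsometryEquiv.inner_map_map]

/-- Invariance of the determinant under permutations of coordinates. -/
theorem fkDet_conj (e : m ≃ m') (f : n ≃ n') (T : L2n G m →L[ℂ] L2n G n)
    (T' : L2n G m' →L[ℂ] L2n G n')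
    (hT : ∀ x, T' x = LinearIsometryEquiv.piLpCongrLeft 2 ℂ (L2 G) f
      (T ((LinearIsometryEquiv.piLpCongrLeft 2 ℂ (L2 G) e).symm x))) :
    fkDet T' = fkDet T := by
  set U := LinearIsometryEquiv.piLpCongrLeft 2 ℂ (L2 G) e with hU
  set V := LinearIsometryEquiv.piLpCongrLeft 2 ℂ (L2 G) f with hV
  have hinj : Function.Injective T' ↔ Function.Injective T := by
    constructor
    · intro h x y hxy
      have := h (a₁ := U x) (a₂ := U y) (by
        rw [hT, hT, LinearIsometryEquiv.symm_apply_apply, LinearIsometryEquiv.symm_apply_apply,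
          hxy])
      exact U.injective this
    · intro h x y hxy
      rw [hT, hT] at hxy
      exact U.symm.injective (h (V.injective hxy))
  have hadj : ContinuousLinearMap.adjoint T' ∘L T' =
      U.conjStarAlgEquiv (ContinuousLinearMap.adjoint T ∘L T) := by
    apply ContinuousLinearMap.ext
    intro x
    apply ext_inner_left ℂ
    intro y
    rw [ContinuousLinearMap.comp_apply, ContinuousLinearMap.adjoint_inner_right, hT, hT,
      LinearIsometryEquiv.inner_map_map, LinearIsometryEquiv.conjStarAlgEquiv_apply_apply,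
      ContinuousLinearMap.comp_apply]
    have h1 : inner ℂ y (U (ContinuousLinearMap.adjoint T (T (U.symm x)))) =
        inner ℂ (U.symm y) (ContinuousLinearMap.adjoint T (T (U.symm x))) := by
      rw [← LinearIsometryEquiv.inner_map_map U (U.symm y), LinearIsometryEquiv.apply_symm_apply]
    rw [h1, ContinuousLinearMap.adjoint_inner_right]
  have hlog : ∀ ε : ℝ, 0 < ε → vnTrace (CFC.log
      (ContinuousLinearMap.adjoint T' ∘L T' + ε • 1 : L2n G m' →L[ℂ] L2n G m')) =
      vnTrace (CFC.log
        (ContinuousLinearMap.adjoint T ∘L T + ε • 1 : L2n G m →L[ℂ] L2n G m)) := by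
    intro ε hε
    have h1 : (ContinuousLinearMap.adjoint T' ∘L T' + ε • 1 : L2n G m' →L[ℂ] L2n G m') =
        U.conjStarAlgEquiv (ContinuousLinearMap.adjoint T ∘L T + ε • 1 :
          L2n G m →L[ℂ] L2n G m) := by
      rw [map_add, hadj]
      congr 1
      apply ContinuousLinearMap.ext
      intro x
      rw [LinearIsometryEquiv.conjStarAlgEquiv_apply_apply]
      change ε • x = U (ε • U.symm x)
      have h2 : ε • U.symm x = (ε : ℂ) • U.symm x := rfl
      rw [h2, map_smul, LinearIsometryEquiv.apply_symm_apply]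
      rfl
    rw [h1]
    have hc : Continuous (U.conjStarAlgEquiv : (L2n G m →L[ℂ] L2n G m) →
        (L2n G m' →L[ℂ] L2n G m')) := by
      have : (U.conjStarAlgEquiv : (L2n G m →L[ℂ] L2n G m) → (L2n G m' →L[ℂ] L2n G m')) =
        fun x => (U : L2n G m →L[ℂ] L2n G m') ∘L x ∘L (U.symm : L2n G m' →L[ℂ] L2n G m) := rfl
      rw [this]
      fun_prop
    have h2 := map_log (U.conjStarAlgEquiv : (L2n G m →L[ℂ] L2n G m) →⋆ₐ[ℂ]
      (L2n G m' →L[ℂ] L2n G m')) hc (isStrictlyPositive_adjoint_comp T hε)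
    have h3 : CFC.log (U.conjStarAlgEquiv (ContinuousLinearMap.adjoint T ∘L T + ε • 1 :
          L2n G m →L[ℂ] L2n G m)) = U.conjStarAlgEquiv (CFC.log
        (ContinuousLinearMap.adjoint T ∘L T + ε • 1 : L2n G m →L[ℂ] L2n G m)) := h2.symm
    rw [h3, hU, vnTrace_conj]
  unfold fkDet
  by_cases h : Function.Injective T
  · rw [if_pos (hinj.mpr h), if_pos h]
    congr 1
    ext ε
    rw [hlog ε ε.2]
  · rw [if_neg (fun h' => h (hinj.mp h')), if_neg h]

theorem fkDet_submatrix (e : m' ≃ m) (f : n' ≃ n) (M : Matrix m n (MonoidAlgebra ℝ G)) :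
    fkDet (mulRightMatrix (M.submatrix e f)) = fkDet (mulRightMatrix M) := by
  apply fkDet_conj e.symm f.symm
  intro x
  apply PiLp.ext
  intro j
  rw [mulRightMatrix_apply]
  change _ = (mulRightMatrix M ((LinearIsometryEquiv.piLpCongrLeft 2 ℂ (L2 G) e.symm).symm x))
    (f j)
  rw [mulRightMatrix_apply, ← Equiv.sum_comp e]
  refine Finset.sum_congr rfl fun i _ => ?_
  rw [Matrix.submatrix_apply]
  congr 1
  rw [LinearIsometryEquiv.piLpCongrLeft_symm, LinearIsometryEquiv.piLpCongrLeft_apply]
  simp [Equiv.piCongrLeft']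

end Pool.Agent.Lib.MP_2e739e_gt
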