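import Pool.Agent.Lib.MP_2e739e_gt.FiveTwoGroup
import Pool.Agent.Lib.MP_2e739e_gt.Reindex

/-!
# The Fox matrix of the diagram of `5_2`
-/

set_option autoImplicit false
set_option linter.unusedSectionVars false

open Filter Topology

namespace Pool.Agent.Lib.MP_2e739e_gt

section Kappa

variable (D : KnotDiagram)

theorem kappa_add (t : ℝ) (u v : MonoidAlgebra ℤ D.KnotGroup) :
    D.kappa t (u + v) = D.kappa t u + D.kappa t v := by
  classical
  unfold KnotDiagram.kappa
  rw [MonoidAlgebra.coeff_add]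
  apply Finsupp.sum_add_index'
  · intro g; simp
  · intro g a b
    rw [← MonoidAlgebra.single_add]
    congr 1
    push_cast; ring

theorem kappa_single (t : ℝ) (g : D.KnotGroup) (c : ℤ) :
    D.kappa t (MonoidAlgebra.single g c) =
      MonoidAlgebra.single g ((c : ℝ) * t ^ (D.phi g).toAdd) := by
  unfold KnotDiagram.kappa
  apply Finsupp.sum_single_index
  simp

theorem kappa_zero (t : ℝ) : D.kappa t 0 = 0 := by
  have := kappa_add D t 0 0
  rw [add_zero] at this
  exact left_eq_add.mp this

theorem kappa_neg (t : ℝ) (u : MonoidAlgebra ℤ D.KnotGroup) : D.kappa t (-u) = -D.kappa t u := by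
  rw [eq_neg_iff_add_eq_zero, ← kappa_add, neg_add_cancel, kappa_zero]

theorem kappa_sub (t : ℝ) (u v : MonoidAlgebra ℤ D.KnotGroup) :
    D.kappa t (u - v) = D.kappa t u - D.kappa t v := by
  rw [sub_eq_add_neg, kappa_add, kappa_neg, ← sub_eq_add_neg]

theorem kappa_one (t : ℝ) : D.kappa t 1 = 1 := by
  have h := kappa_single D t 1 1
  rw [map_one, toAdd_one, zpow_zero, mul_one, Int.cast_one] at h
  exact h

end Kappa

/-- The group ring elements `t x_i`. -/
noncomputable def tx (t : ℝ) (i : Fin 5) : MonoidAlgebra ℝ K52.KnotGroup :=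
  MonoidAlgebra.single (gx i) t

theorem kappa_gx (t : ℝ) (i : Fin 5) :
    K52.kappa t (MonoidAlgebra.single (gx i) 1) = tx t i := by
  rw [kappa_single, phi_gx]
  simp [tx]

/-- The Fox derivatives of the Wirtinger relators. -/
theorem fox52 (y j : Fin 5) :
    foxDeriv K52.meridian (arcEquiv.symm j) (K52.relator y) =
      (if oIdx y = j then 1 - MonoidAlgebra.single (gx y) 1 else 0) +
        (if iIdx y = j then MonoidAlgebra.single (gx (oIdx y)) 1 else 0) -
          (if y = j then 1 else 0) := by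
  have hrel := relation y
  have h1 : gx (oIdx y) * gx (iIdx y) * (gx (oIdx y))⁻¹ = gx y := mul_inv_eq_one.mp hrel
  have hgx : ∀ i, K52.meridian (arcEquiv.symm i) = gx i := fun _ => rfl
  rw [relator_eq]
  simp only [foxDeriv_mul, foxDeriv_inv, foxDeriv_of, map_mul, map_inv, FreeGroup.lift_apply_of,
    hgx, EmbeddingLike.apply_eq_iff_eq]
  rw [mul_neg, mul_neg, ← mul_assoc, ← mul_assoc, MonoidAlgebra.single_mul_single,
    MonoidAlgebra.single_mul_single, one_mul, hrel, h1]
  simp only [mul_ite, mul_one, mul_zero]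
  have h2 : (MonoidAlgebra.single (1 : K52.KnotGroup) (1 : ℤ)) = 1 := rfl
  rw [h2]
  split_ifs <;> abel

/-- The full Fox Jacobian after applying `κ_t`. -/
noncomputable def JM (t : ℝ) : Matrix (Fin 5) (Fin 5) (MonoidAlgebra ℝ K52.KnotGroup) :=
  fun y j => (if oIdx y = j then 1 - tx t y else 0) +
    (if iIdx y = j then tx t (oIdx y) else 0) - (if y = j then 1 else 0)

theorem kappa_fox52 (t : ℝ) (y j : Fin 5) :
    K52.kappa t (foxDeriv K52.meridian (arcEquiv.symm j) (K52.relator y)) = JM t y j := by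
  rw [fox52, kappa_sub, kappa_add]
  unfold JM
  congr 1
  · congr 1
    · split_ifs
      · rw [kappa_sub, kappa_one, kappa_gx]
      · exact kappa_zero _ _
    · split_ifs
      · rw [kappa_gx]
      · exact kappa_zero _ _
  · split_ifs
    · exact kappa_one _ _
    · exact kappa_zero _ _

/-- The minor of the Fox Jacobian. -/
noncomputable def minorM (r a : Fin 5) (t : ℝ) :
    Matrix (Fin 4) (Fin 4) (MonoidAlgebra ℝ K52.KnotGroup) :=
  (JM t).submatrix r.succAbove a.succAbove

/-- The columns of the minor, as arcs. -/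
noncomputable def colEquiv (a : K52.Arc) : Fin 4 ≃ {b : K52.Arc // b ≠ a} :=
  (finSuccAboveEquiv (arcEquiv a)).trans
    ((arcEquiv.symm.subtypeEquiv (p := fun j => j ≠ arcEquiv a) (q := fun b => b ≠ a)
      (fun j => by rw [ne_eq, ne_eq, Equiv.symm_apply_eq])))

theorem torsion_eq (r : K52.X) (a : K52.Arc) (t : ℝ) :
    K52.torsion r a t = fkDet (mulRightMatrix (minorM r (arcEquiv a) t)) * (max 1 t)⁻¹ := by
  have h := fkDet_submatrix (G := K52.KnotGroup) (m := {x : K52.X // x ≠ r}) (m' := Fin 4)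
    (n := {b : K52.Arc // b ≠ a}) (n' := Fin 4) (finSuccAboveEquiv (n := 4) r) (colEquiv a)
    ((K52.foxMatrix r a).map (K52.kappa t))
  have h2 : ((K52.foxMatrix r a).map (K52.kappa t)).submatrix (finSuccAboveEquiv (n := 4) r)
      (colEquiv a) = minorM r (arcEquiv a) t :=
    Matrix.ext fun i j => kappa_fox52 t (Fin.succAbove (n := 4) r i) ((arcEquiv a).succAbove j)
  have h3 : fkDet (mulRightMatrix ((K52.foxMatrix r a).map (K52.kappa t))) =
      fkDet (mulRightMatrix (minorM r (arcEquiv a) t)) :=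
    h.symm.trans (congrArg (fun M => fkDet (mulRightMatrix M)) h2)
  unfold KnotDiagram.torsion
  exact congrArg (fun u => u * (max 1 t)⁻¹) h3

end Pool.Agent.Lib.MP_2e739e_gt
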