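import Pool.Agent.Lib.MP_2e739e_gt.Log

/-!
# Positive tracial functionals and the logarithm: derivative and the Klein inequality
-/

set_option autoImplicit false

open scoped ComplexConjugate Topology
open Filter Finset

namespace Pool.Agent.Lib.MP_2e739e_gt

variable {A : Type*} [CStarAlgebra A] (τ : PosTrace A)

theorem PosTrace.im_selfAdjoint {x : A} (hx : IsSelfAdjoint x) : (τ.fn x).im = 0 := by
  have := τ.map_star x
  rw [hx.star_eq] at this
  exact Complex.conj_eq_iff_im.mp this.symm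

/-- The real part of the trace. -/
noncomputable def PosTrace.rfn : A →L[ℝ] ℝ := Complex.reCLM.comp (τ.fn.restrictScalars ℝ)

theorem PosTrace.rfn_apply (x : A) : τ.rfn x = (τ.fn x).re := rfl

theorem PosTrace.rfn_comm (x y : A) : τ.rfn (x * y) = τ.rfn (y * x) := by
  rw [τ.rfn_apply, τ.rfn_apply, τ.tracial]

theorem PosTrace.rfn_star (x : A) : τ.rfn (star x) = τ.rfn x := by
  rw [τ.rfn_apply, τ.rfn_apply, τ.map_star, Complex.conj_re]

theorem PosTrace.rfn_star_mul_self_nonneg (x : A) : 0 ≤ τ.rfn (star x * x) := τ.nonneg x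

/-- `tlog τ x` is the (real) trace of `log x`. -/
noncomputable def tlog (x : A) : ℝ := τ.rfn (CFC.log x)

theorem hasSum_tlog {x : A} (hx : IsSelfAdjoint x) (h : ‖x‖ < 1) :
    HasSum (fun i : ℕ => -(((i : ℝ) + 1)⁻¹) * τ.rfn (x ^ (i + 1))) (tlog τ (1 - x)) := by
  have h1 := (hasSum_log_one_sub hx h).mapL τ.rfn
  unfold tlog
  simpa only [map_smul, smul_eq_mul, map_neg] using h1

/-- the trace of the derivative of a power -/
theorem hasDerivAt_rfn_pow {Z : ℝ → A} {Z' : A} {s : ℝ} (hZ : HasDerivAt Z Z' s) (n : ℕ) :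
    HasDerivAt (fun s => τ.rfn (Z s ^ (n + 1))) (((n : ℝ) + 1) * τ.rfn (Z s ^ n * Z')) s := by
  have h1 := τ.rfn.hasFDerivAt.comp_hasDerivAt s (hZ.fun_pow' (n + 1))
  have h2 : τ.rfn (∑ i ∈ range (n + 1), Z s ^ ((n + 1).pred - i) * Z' * Z s ^ i) =
      ((n : ℝ) + 1) * τ.rfn (Z s ^ n * Z') := by
    rw [map_sum]
    have : ∀ i ∈ range (n + 1), τ.rfn (Z s ^ ((n + 1).pred - i) * Z' * Z s ^ i) =
        τ.rfn (Z s ^ n * Z') := by
      intro i hi
      rw [τ.rfn_comm, ← mul_assoc, ← pow_add]
      congr 3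
      simp only [Nat.pred_succ]
      have := mem_range.mp hi
      omega
    rw [Finset.sum_congr rfl this]
    simp
  rw [h2] at h1
  exact h1

theorem PosTrace.abs_rfn_le (x : A) : |τ.rfn x| ≤ ‖τ.rfn‖ * ‖x‖ := by
  simpa using τ.rfn.le_opNorm x

/-- the trace of `log (1 - (x + s d))` is differentiable in `s` -/
theorem hasDerivAt_tlog_one_sub {x d : A} (hx : IsSelfAdjoint x) (hd : IsSelfAdjoint d) {s : ℝ}
    (hs : ‖x + s • d‖ < 1) :
    HasDerivAt (fun s : ℝ => tlog τ (1 - (x + s • d)))
      (-τ.rfn (Ring.inverse (1 - (x + s • d)) * d)) s := by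
  obtain ⟨r, hr1, hr2⟩ := exists_between hs
  have hr0 : 0 ≤ r := (norm_nonneg _).trans hr1.le
  set U : Set ℝ := {s | ‖x + s • d‖ < r} with hU
  have hcont : Continuous fun s : ℝ => ‖x + s • d‖ := by fun_prop
  have hUo : IsOpen U := isOpen_lt hcont continuous_const
  have hUc : Convex ℝ U := by
    intro a ha b hb α β hα hβ hαβ
    have : x + (α • a + β • b) • d = α • (x + a • d) + β • (x + b • d) := by
      have hx' : x = (α + β) • x := by rw [hαβ, one_smul]
      nth_rewrite 1 [hx']
      simp only [smul_add, add_smul, smul_smul, smul_eq_mul]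
      abel
    simp only [hU, Set.mem_ofPred_eq] at ha hb ⊢
    rw [this]
    calc ‖α • (x + a • d) + β • (x + b • d)‖ ≤ α * ‖x + a • d‖ + β * ‖x + b • d‖ := by
          refine (norm_add_le _ _).trans ?_
          rw [norm_smul, norm_smul, Real.norm_of_nonneg hα, Real.norm_of_nonneg hβ]
      _ < r := by
          rcases hα.eq_or_lt with h | h
          · subst h
            have : β = 1 := by linarith
            subst this
            simpa using hb
          · have h1 : α * ‖x + a • d‖ < α * r := by gcongr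
            have h2 : β * ‖x + b • d‖ ≤ β * r := by gcongr
            calc _ < α * r + β * r := by linarith
              _ = r := by rw [← add_mul, hαβ, one_mul]
  have hsa : ∀ s : ℝ, IsSelfAdjoint (x + s • d) := fun s => hx.add (IsSelfAdjoint.smul (IsSelfAdjoint.all s) hd)
  have hderiv : ∀ (s : ℝ), HasDerivAt (fun s : ℝ => x + s • d) d s := by
    intro s
    have := ((hasDerivAt_id s).smul_const d).const_add x
    simpa using this
  have hsum : ∀ s ∈ U, HasSum (fun i : ℕ => -(((i : ℝ) + 1)⁻¹) * τ.rfn ((x + s • d) ^ (i + 1)))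
      (tlog τ (1 - (x + s • d))) := fun s hs' => hasSum_tlog τ (hsa s) (lt_trans hs' hr2)
  have key := hasDerivAt_tsum_of_isPreconnected (𝕜 := ℝ) (F := ℝ)
    (g := fun (i : ℕ) (s : ℝ) => -(((i : ℝ) + 1)⁻¹) * τ.rfn ((x + s • d) ^ (i + 1)))
    (g' := fun (i : ℕ) (s : ℝ) => -τ.rfn ((x + s • d) ^ i * d))
    (u := fun i : ℕ => ‖τ.rfn‖ * (r ^ i * ‖d‖ * (‖(1 : A)‖ + 1))) (t := U) (y₀ := s) (y := s)
    ?_ hUo hUc.isPreconnected ?_ ?_ hr1 (hsum s hr1).summable hr1
  · have hev : (fun s : ℝ => tlog τ (1 - (x + s • d))) =ᶠ[𝓝 s]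
        fun z => ∑' n : ℕ, -(((n : ℝ) + 1)⁻¹) * τ.rfn ((x + z • d) ^ (n + 1)) := by
      filter_upwards [hUo.mem_nhds hr1] with z hz
      exact (hsum z hz).tsum_eq.symm
    refine (key.congr_of_eventuallyEq hev).congr_deriv ?_
    rw [tsum_neg]
    congr 1
    have h1 : HasSum (fun n : ℕ => (x + s • d) ^ n) (Ring.inverse (1 - (x + s • d))) := by
      rw [NormedRing.inverse_one_sub _ hs]
      exact (summable_geometric_of_norm_lt_one hs).hasSum
    have h2 := (h1.mul_right d).mapL τ.rfn
    exact h2.tsum_eq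
  · apply Summable.mul_left
    apply Summable.mul_right
    apply Summable.mul_right
    exact summable_geometric_of_lt_one hr0 hr2
  · intro n y _
    have := (hasDerivAt_rfn_pow τ (hderiv y) n).const_mul (-(((n : ℝ) + 1)⁻¹))
    refine this.congr_deriv ?_
    have : (n : ℝ) + 1 ≠ 0 := by positivity
    field_simp
  · intro n y hy
    rw [norm_neg, Real.norm_eq_abs]
    refine (τ.abs_rfn_le _).trans ?_
    gcongr
    rcases Nat.eq_zero_or_pos n with h | h
    · subst h
      simp only [pow_zero, one_mul]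
      nlinarith [norm_nonneg d, norm_nonneg (1 : A)]
    · calc ‖(x + y • d) ^ n * d‖ ≤ ‖(x + y • d)‖ ^ n * ‖d‖ := by
            refine (norm_mul_le _ _).trans ?_
            gcongr
            exact norm_pow_le' _ h
        _ ≤ r ^ n * ‖d‖ * 1 := by
            rw [mul_one]
            gcongr
            exact le_of_lt hy
        _ ≤ _ := by
            gcongr
            linarith [norm_nonneg (1 : A)]

end Pool.Agent.Lib.MP_2e739e_gt
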